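import Pool.Agent.T2h83.GT.Asm

set_option autoImplicit false

/-! The density of the sieve function as an integral. -/

namespace Pool.Agent.T2h83.GT

open Finset
open Pool.Agent.R460.GS
open Pool.Agent.R453.GS (sum_pow log_num)
open Pool.Agent.Y614.GJ.Core (ev_log)
open Pool.Agent.Y883.T4 (badc)

/-- the density function: `log U` comes from the primes, the integral from the products of two primes -/
noncomputable def FU (U : ℝ) : ℝ := Real.log U + ∫ s in (1 : ℝ)..max 1 (U / 2), Real.log ((U - s) / s) / s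

/-- the grid -/
noncomputable def gs (U : ℝ) (k i : ℕ) : ℝ := (U / 2) ^ ((i : ℝ) / k)

lemma gs_zero (U : ℝ) (k : ℕ) : gs U k 0 = 1 := by unfold gs; simp

lemma gs_last (U : ℝ) {k : ℕ} (hk : 1 ≤ k) : gs U k k = U / 2 := by
  unfold gs
  rw [div_self (by exact_mod_cast (by omega : k ≠ 0)), Real.rpow_one]

lemma gs_mono {U : ℝ} (hU : 2 ≤ U) {k : ℕ} {i j : ℕ} (h : i ≤ j) : gs U k i ≤ gs U k j := by
  unfold gs
  apply Real.rpow_le_rpow_of_exponent_le (by linarith)
  apply div_le_div_of_nonneg_right _ (by positivity)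
  exact_mod_cast h

lemma gs_step {U : ℝ} (hU : 2 ≤ U) {k : ℕ} (i : ℕ) :
    Real.log (gs U k (i + 1) / gs U k i) = Real.log (U / 2) / k := by
  have hU0 : 0 < U / 2 := by linarith
  unfold gs
  rw [← Real.rpow_sub hU0, Real.log_rpow hU0]
  push_cast
  ring

lemma gs_one_le {U : ℝ} (hU : 2 ≤ U) (k i : ℕ) : 1 ≤ gs U k i := by
  rw [← gs_zero U k]
  exact gs_mono hU (Nat.zero_le _)

lemma gs_le_last {U : ℝ} (hU : 2 ≤ U) {k i : ℕ} (hk : 1 ≤ k) (hi : i ≤ k) : gs U k i ≤ U / 2 := by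
  rw [← gs_last U hk]
  exact gs_mono hU hi

lemma log_anti {U s t : ℝ} (hs : 1 ≤ s) (hst : s ≤ t) (ht : t ≤ U / 2) :
    Real.log ((U - t) / t) ≤ Real.log ((U - s) / s) := by
  apply Real.log_le_log (div_pos (by linarith) (by linarith))
  rw [div_le_div_iff₀ (by linarith) (by linarith)]
  nlinarith

lemma log_nn {U s : ℝ} (hs : 1 ≤ s) (ht : s ≤ U / 2) : 0 ≤ Real.log ((U - s) / s) := by
  apply Real.log_nonneg
  rw [_root_.one_le_div (by linarith)]
  linarith

lemma h_cont {U a b : ℝ} (ha : 1 ≤ a) (hab : a ≤ b) (hb : b ≤ U / 2) :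
    IntervalIntegrable (fun s => Real.log ((U - s) / s) / s) MeasureTheory.volume a b := by
  apply ContinuousOn.intervalIntegrable
  rw [Set.uIcc_of_le hab]
  intro s hs
  have h1 : s ≠ 0 := by have := hs.1; linarith
  have h2 : (U - s) / s ≠ 0 := (div_pos (by linarith [hs.1, hs.2]) (by linarith [hs.1])).ne'
  apply ContinuousAt.continuousWithinAt
  have h3 : ContinuousAt (fun s : ℝ => (U - s) / s) s :=
    ContinuousAt.div (by fun_prop) continuousAt_id h1
  exact ContinuousAt.div (h3.log h2) continuousAt_id h1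

/-- the Riemann sum -/
lemma riemann {U : ℝ} (hU : 2 ≤ U) {k : ℕ} (hk : 1 ≤ k) :
    ∑ i ∈ range k, Real.log (U / 2) / k * Real.log ((U - gs U k i) / gs U k i) ≤
      (∫ s in (1 : ℝ)..max 1 (U / 2), Real.log ((U - s) / s) / s) + Real.log (U / 2) / k * Real.log (U - 1) := by
  obtain ⟨c, hc⟩ : ∃ c, c = Real.log (U / 2) / k := ⟨_, rfl⟩
  have hc0 : 0 ≤ c := by
    rw [hc]
    exact div_nonneg (Real.log_nonneg (by linarith)) (by positivity)
  obtain ⟨h, hh⟩ : ∃ h : ℝ → ℝ, h = fun s => Real.log ((U - s) / s) := ⟨_, rfl⟩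
  rw [← hc, max_eq_right (by linarith)]
  have key : ∀ n ≤ k, ∑ i ∈ range n, c * h (gs U k i) ≤
      (∫ s in (gs U k 0)..(gs U k n), h s / s) + c * (h (gs U k 0) - h (gs U k n)) := by
    intro n
    induction n with
    | zero =>
      intro _
      simp
    | succ n ih =>
      intro hn
      have h1 := ih (by omega)
      rw [sum_range_succ]
      have b0 := gs_one_le hU k n
      have b1 := gs_mono hU (k := k) (Nat.le_succ n)
      have b2 := gs_le_last hU hk hn
      have hint1 : IntervalIntegrable (fun s => h s / s) MeasureTheory.volume (gs U k 0) (gs U k n) := by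
        rw [hh]
        exact h_cont (gs_one_le hU k 0) (gs_mono hU (Nat.zero_le _)) (b1.trans b2)
      have hint2 : IntervalIntegrable (fun s => h s / s) MeasureTheory.volume (gs U k n) (gs U k (n + 1)) := by
        rw [hh]
        exact h_cont b0 b1 b2
      rw [← intervalIntegral.integral_add_adjacent_intervals hint1 hint2]
      have h2 : c * h (gs U k (n + 1)) ≤ ∫ s in (gs U k n)..(gs U k (n + 1)), h s / s := by
        have e1 : ∫ s in (gs U k n)..(gs U k (n + 1)), h (gs U k (n + 1)) * (1 / s) = c * h (gs U k (n + 1)) := by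
          rw [intervalIntegral.integral_const_mul, integral_one_div_of_pos (by linarith) (by linarith [b1]),
            gs_step hU, ← hc]
          ring
        rw [← e1]
        apply intervalIntegral.integral_mono_on b1 _ hint2
        · intro s hs
          have hs0 : 0 < s := by linarith [hs.1]
          rw [mul_one_div]
          apply div_le_div_of_nonneg_right _ hs0.le
          rw [hh]
          exact log_anti (by linarith [hs.1]) hs.2 b2
        · apply ContinuousOn.intervalIntegrable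
          rw [Set.uIcc_of_le b1]
          intro s hs
          have hs0 : s ≠ 0 := by linarith [hs.1]
          apply ContinuousAt.continuousWithinAt
          exact ContinuousAt.mul continuousAt_const (ContinuousAt.div continuousAt_const continuousAt_id hs0)
      have e2 : c * (h (gs U k 0) - h (gs U k (n + 1))) =
          c * (h (gs U k 0) - h (gs U k n)) + c * h (gs U k n) - c * h (gs U k (n + 1)) := by ring
      rw [e2]
      linarith
  have h1 := key k le_rfl
  rw [gs_zero, gs_last U hk] at h1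
  have h2 : h 1 = Real.log (U - 1) := by rw [hh]; simp
  have h3 : h (U / 2) = 0 := by
    rw [hh]
    have : (U - U / 2) / (U / 2) = 1 := by
      have : U ≠ 0 := by linarith
      field_simp
      ring
    simp only [this, Real.log_one]
  rw [h2, h3, sub_zero] at h1
  rw [hh] at h1
  exact h1

/-- the Riemann sum with errors -/
lemma riemann' {U : ℝ} (hU : 2 ≤ U) (hU3 : U < 3) {ε : ℝ} (hε : 0 < ε) : ∃ k : ℕ, 1 ≤ k ∧ ∃ e : ℝ, 0 < e ∧
    ∑ i ∈ range k, (Real.log (U / 2) / k + e) * (Real.log ((U - gs U k i) / gs U k i) + e) ≤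
      (∫ s in (1 : ℝ)..max 1 (U / 2), Real.log ((U - s) / s) / s) + ε := by
  have hl0 : 0 ≤ Real.log (U / 2) := Real.log_nonneg (by linarith)
  have hl1 : Real.log (U / 2) ≤ 1 := by
    have := Real.log_le_sub_one_of_pos (show 0 < U / 2 by linarith)
    linarith
  have hm0 : 0 ≤ Real.log (U - 1) := Real.log_nonneg (by linarith)
  have hm1 : Real.log (U - 1) ≤ 1 := by
    have := Real.log_le_sub_one_of_pos (show 0 < U - 1 by linarith)
    linarith
  obtain ⟨k, hk⟩ := exists_nat_gt (2 / ε)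
  have hk0 : (0 : ℝ) < k := lt_trans (by positivity) hk
  have hk1 : 1 ≤ k := by
    have : 0 < k := by exact_mod_cast hk0
    omega
  have hk1r : (1 : ℝ) ≤ k := by exact_mod_cast hk1
  obtain ⟨e, he⟩ : ∃ e, e = min 1 (ε / (6 * k)) := ⟨_, rfl⟩
  have he0 : 0 < e := by rw [he]; exact lt_min one_pos (by positivity)
  have he1 : e ≤ 1 := by rw [he]; exact min_le_left _ _
  have he2 : e * (6 * k) ≤ ε := by
    rw [← le_div_iff₀ (by positivity)]
    rw [he]
    exact min_le_right _ _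
  refine ⟨k, hk1, e, he0, ?_⟩
  have h1 := riemann hU hk1
  have h2 : Real.log (U / 2) / k * Real.log (U - 1) ≤ ε / 2 := by
    have e1 : Real.log (U / 2) / k ≤ 1 / k := div_le_div_of_nonneg_right hl1 hk0.le
    have e2 : (1 : ℝ) / k ≤ ε / 2 := by
      rw [div_lt_iff₀ hε] at hk
      rw [div_le_div_iff₀ hk0 (by norm_num)]
      linarith
    calc Real.log (U / 2) / k * Real.log (U - 1) ≤ (1 / k) * 1 := mul_le_mul e1 hm1 hm0 (by positivity)
      _ ≤ ε / 2 := by linarith
  have h3 : ∑ i ∈ range k, (Real.log (U / 2) / k + e) * (Real.log ((U - gs U k i) / gs U k i) + e) ≤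
      ∑ i ∈ range k, (Real.log (U / 2) / k * Real.log ((U - gs U k i) / gs U k i) + 3 * e) := by
    refine sum_le_sum fun i hi => ?_
    rw [mem_range] at hi
    have a1 := gs_one_le hU k i
    have a2 := gs_le_last hU hk1 hi.le
    have a3 := log_nn a1 a2
    have a4 : Real.log ((U - gs U k i) / gs U k i) ≤ Real.log (U - 1) := by
      have := log_anti (U := U) le_rfl a1 a2
      rw [div_one] at this
      exact this
    have a5 : Real.log (U / 2) / k ≤ 1 := by
      rw [div_le_one hk0]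
      linarith
    nlinarith
  rw [sum_add_distrib, sum_const, card_range, nsmul_eq_mul] at h3
  have h4 : (k : ℝ) * (3 * e) ≤ ε / 2 := by linarith
  linarith

/-- the cell of the smaller prime -/
lemma cell {U x : ℝ} {k : ℕ} (hk : 1 ≤ k) (y : ℝ → ℝ) (h0 : y (gs U k 0) < x) (h1 : x ≤ y (gs U k k)) :
    ∃ i < k, y (gs U k i) < x ∧ x ≤ y (gs U k (i + 1)) := by
  classical
  have hex : ∃ i, x ≤ y (gs U k (i + 1)) := ⟨k - 1, by rw [Nat.sub_add_cancel hk]; exact h1⟩
  refine ⟨Nat.find hex, ?_, ?_, Nat.find_spec hex⟩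
  · have : Nat.find hex ≤ k - 1 := Nat.find_min' hex (by rw [Nat.sub_add_cancel hk]; exact h1)
    omega
  · by_cases h : Nat.find hex = 0
    · rw [h]; exact h0
    · have := Nat.find_min hex (m := Nat.find hex - 1) (by omega)
      rw [not_le, Nat.sub_add_cancel (by omega)] at this
      exact this

/-- the density for `4 / 5 ≤ θ ≤ 5 / 6` -/
lemma up_F {θ θ' : ℝ} (h0 : 1 / 2 ≤ θ') (h1 : θ' < θ) (h2 : 4 / 5 ≤ θ) (h3 : θ ≤ 5 / 6) {ε : ℝ} (hε : 0 < ε) :
    ∃ N₀ : ℕ, ∀ N : ℕ, N₀ ≤ N → Wg θ' N N ≤ 1 + (FU (θ / (2 - 2 * θ)) + ε) := by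
  classical
  obtain ⟨a, ha⟩ : ∃ a, a = 1 - θ' := ⟨_, rfl⟩
  obtain ⟨U, hUd⟩ : ∃ U, U = θ / (2 - 2 * θ) := ⟨_, rfl⟩
  rw [← hUd]
  have ha0 : 0 < a := by rw [ha]; linarith
  have hU2 : 2 ≤ U := by
    rw [hUd, le_div_iff₀ (by linarith)]
    linarith
  have hU3 : U ≤ 5 / 2 := by
    rw [hUd, div_le_iff₀ (by linarith)]
    linarith
  have hη : 0 < a * U - θ' / 2 := by
    rw [ha, hUd]
    have e1 : (1 - θ') * (θ / (2 - 2 * θ)) - θ' / 2 = (θ - θ') / (2 - 2 * θ) := by
      have : 2 - 2 * θ ≠ 0 := by linarith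
      rw [eq_div_iff this, sub_mul, mul_assoc, div_mul_cancel₀ _ this]
      ring
    rw [e1]
    exact div_pos (by linarith) (by linarith)
  obtain ⟨k, hk1, e, he0, hR⟩ := riemann' hU2 (by linarith) (ε := ε / 2) (by linarith)
  obtain ⟨N₁, hN1⟩ := cof_small (θ := θ') (η := a * U - θ' / 2) (by linarith) (by linarith) hη
  have hexp : θ' / 2 + (a * U - θ' / 2) = a * U := by ring
  rw [hexp] at hN1
  obtain ⟨N₂, hN2⟩ := Filter.eventually_atTop.1 (sum_pow (α := a) (β := a * U) (ε := ε / 2) ha0 (by nlinarith)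
    (by linarith))
  have hev : ∀ᶠ N : ℕ in Filter.atTop, ∀ i ∈ range k,
      SQ (a * gs U k i) (a * gs U k (i + 1)) N ≤ Real.log (U / 2) / k + e ∧
      SQ (a * gs U k i) (a * (U - gs U k i)) N ≤ Real.log ((U - gs U k i) / gs U k i) + e := by
    rw [Filter.eventually_all_finset]
    intro i hi
    rw [mem_range] at hi
    have b0 := gs_one_le hU2 k i
    have b1 := gs_mono hU2 (k := k) (Nat.le_succ i)
    have b2 := gs_le_last hU2 hk1 hi
    have b3 : 0 < a * gs U k i := by positivity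
    have c1 := sum_pow (α := a * gs U k i) (β := a * gs U k (i + 1)) (ε := e) b3
      (mul_le_mul_of_nonneg_left b1 ha0.le) he0
    have c2 := sum_pow (α := a * gs U k i) (β := a * (U - gs U k i)) (ε := e) b3
      (mul_le_mul_of_nonneg_left (by linarith) ha0.le) he0
    filter_upwards [c1, c2] with N d1 d2
    rw [mul_div_mul_left _ _ ha0.ne'] at d1 d2
    rw [gs_step hU2] at d1
    exact ⟨d1, d2⟩
  obtain ⟨N₃, hN3⟩ := Filter.eventually_atTop.1 hev
  refine ⟨N₁ + N₂ + N₃ + 2, fun N hN => ?_⟩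
  have hNn : 1 ≤ N := by omega
  have hN0 : (0 : ℝ) < N := by exact_mod_cast (by omega : 0 < N)
  have hNr : (1 : ℝ) ≤ N := by exact_mod_cast (by omega : 1 ≤ N)
  have hsq := hN2 N (by omega)
  rw [mul_comm a U, mul_div_assoc, div_self ha0.ne', mul_one, mul_comm U a] at hsq
  have hcell := hN3 N (by omega)
  have hZ : ∀ p : ℕ, Ze θ' N < p → (N : ℝ) ^ a < p := by
    intro p hp
    have e : Ze θ' N = ⌊(N : ℝ) ^ a⌋₊ := by
      unfold Ze
      rw [ha]
    rw [e] at hp
    exact lt_floor hp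
  have pw : ∀ a b : ℝ, a ≤ b → (N : ℝ) ^ a ≤ (N : ℝ) ^ b := fun a b h =>
    Real.rpow_le_rpow_of_exponent_le hNr h
  unfold Wg WZ
  obtain ⟨R, hRd⟩ : ∃ R, R = (Icc 1 N).filter (fun m => (∀ p ∈ m.primeFactors, Ze θ' N < p) ∧
    m * Pe θ' N < N) := ⟨_, rfl⟩
  rw [← hRd]
  obtain ⟨Q, hQ⟩ : ∃ Q, Q = PrI a (a * U) N := ⟨_, rfl⟩
  obtain ⟨f, hf⟩ : ∃ f : ℕ → ℝ, f = fun p : ℕ => (1 : ℝ) / p := ⟨_, rfl⟩
  have hf0 : ∀ p, 0 ≤ f p := fun p => by rw [hf]; positivity
  obtain ⟨S, hS⟩ : ∃ S : Finset ((_ : ℕ) × (ℕ × ℕ)), S = (range k).sigma (fun i =>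
    PrI (a * gs U k i) (a * gs U k (i + 1)) N ×ˢ PrI (a * gs U k i) (a * (U - gs U k i)) N) := ⟨_, rfl⟩
  obtain ⟨I2, hI2⟩ : ∃ I2 : Finset ℕ, I2 = S.image (fun x => x.2.1 * x.2.2) := ⟨_, rfl⟩
  have hsub : R ⊆ insert 1 (Q ∪ I2) := by
    intro m hm
    rw [hRd, mem_filter, mem_Icc] at hm
    obtain ⟨⟨a1, a2⟩, a3, a4⟩ := hm
    have hms := hN1 N (by omega) m a4
    rw [hI2, mem_insert, mem_union, mem_image]
    by_cases hm1 : m = 1
    · exact Or.inl hm1
    · right
      obtain ⟨c1, c2, c3, c4, c5⟩ := rough_split a1 a3 hm1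
      have c2' := hZ _ c2
      by_cases hk : m / m.minFac = 1
      · left
        have hmp : m.minFac = m := by
          rw [hk, mul_one] at c3
          exact c3
        rw [hmp] at c1 c2'
        rw [hQ]
        exact mem_PrI c1 c2' hms
      · right
        obtain ⟨l, hld⟩ : ∃ l, l = m / m.minFac := ⟨_, rfl⟩
        obtain ⟨p, hpd⟩ : ∃ p, p = m.minFac := ⟨_, rfl⟩
        rw [← hld] at c3 c4 c5 hk
        rw [← hpd] at c1 c2' c3 c5
        obtain ⟨d1, d2, d3, d4, d5⟩ := rough_split (Z := Ze θ' N) c4 (fun p hp => (c5 p hp).1) hk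
        have d2' := hZ _ d2
        have hpk : p ≤ l.minFac := (c5 _ (Nat.mem_primeFactors.2 ⟨d1, Nat.minFac_dvd l, by omega⟩)).2
        have hp0 : (0 : ℝ) < p := by exact_mod_cast c1.pos
        have hmr : (m : ℝ) = p * l := by exact_mod_cast c3.symm
        have hkk : l / l.minFac = 1 := by
          by_contra hk2
          obtain ⟨s, hs⟩ := Nat.exists_prime_and_dvd hk2
          have hs2 := hZ s (d5 s (Nat.mem_primeFactors.2 ⟨hs.1, hs.2, by omega⟩)).1
          have hsk := Nat.le_of_dvd d4 hs.2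
          have g1 : (l.minFac : ℝ) * s ≤ l := by
            have : l.minFac * s ≤ l := by
              calc l.minFac * s ≤ l.minFac * (l / l.minFac) := Nat.mul_le_mul_left _ hsk
                _ = l := d3
            exact_mod_cast this
          have g2 : (N : ℝ) ^ a * (N : ℝ) ^ a < (l.minFac : ℝ) * s :=
            mul_lt_mul'' d2' hs2 (by positivity) (by positivity)
          have g3 : (N : ℝ) ^ a * ((N : ℝ) ^ a * (N : ℝ) ^ a) < p * l :=
            mul_lt_mul'' c2' (lt_of_lt_of_le g2 g1) (by positivity) (by positivity)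
          rw [← Real.rpow_add hN0, ← Real.rpow_add hN0, ← hmr] at g3
          have g4 := pw (a * U) (a + (a + a)) (by nlinarith)
          linarith
        have hkp : l.minFac = l := by
          rw [hkk, mul_one] at d3
          exact d3
        rw [hkp] at d1 d2' hpk
        have hpkr : (p : ℝ) ≤ l := by exact_mod_cast hpk
        have hk0 : (0 : ℝ) < l := by linarith
        have hpkN : (p : ℝ) * l ≤ (N : ℝ) ^ (a * U) := by
          rw [← hmr]
          exact hms
        have hps : (p : ℝ) ≤ (N : ℝ) ^ (a * (U / 2)) := by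
          by_contra hcon
          rw [not_le] at hcon
          have g1 : (N : ℝ) ^ (a * (U / 2)) * (N : ℝ) ^ (a * (U / 2)) < (p : ℝ) * l :=
            mul_lt_mul'' hcon (lt_of_lt_of_le hcon hpkr) (by positivity) (by positivity)
          rw [← Real.rpow_add hN0] at g1
          have g2 := pw (a * U) (a * (U / 2) + a * (U / 2)) (by linarith)
          linarith
        obtain ⟨i, hik, hi1, hi2⟩ := cell (U := U) (x := (p : ℝ)) hk1 (fun s => (N : ℝ) ^ (a * s))
          (by rw [gs_zero, mul_one]; exact c2') (by rw [gs_last U hk1]; exact hps)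
        refine ⟨⟨i, (p, l)⟩, ?_, c3⟩
        rw [hS, mem_sigma, mem_product]
        refine ⟨mem_range.2 hik, mem_PrI c1 hi1 hi2, mem_PrI d1 (lt_of_lt_of_le hi1 hpkr) ?_⟩
        have g1 : (N : ℝ) ^ (a * gs U k i) * l ≤ (N : ℝ) ^ (a * gs U k i) * (N : ℝ) ^ (a * (U - gs U k i)) := by
          rw [← Real.rpow_add hN0, show a * gs U k i + a * (U - gs U k i) = a * U by ring]
          refine le_trans ?_ hpkN
          exact mul_le_mul_of_nonneg_right hi1.le hk0.le
        exact le_of_mul_le_mul_left g1 (Real.rpow_pos_of_pos hN0 _)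
  have sQ : ∑ p ∈ Q, f p ≤ Real.log U + ε / 2 := by
    rw [hQ, hf]
    exact hsq
  have hSs : ∑ x ∈ S, f x.2.1 * f x.2.2 ≤
      (∫ s in (1 : ℝ)..max 1 (U / 2), Real.log ((U - s) / s) / s) + ε / 2 := by
    rw [hS, sum_sigma]
    refine le_trans (sum_le_sum fun i hi => ?_) hR
    obtain ⟨g1, g2⟩ := hcell i hi
    have g3 : ∑ x ∈ PrI (a * gs U k i) (a * gs U k (i + 1)) N ×ˢ PrI (a * gs U k i) (a * (U - gs U k i)) N,
        f x.1 * f x.2 = SQ (a * gs U k i) (a * gs U k (i + 1)) N * SQ (a * gs U k i) (a * (U - gs U k i)) N := by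
      rw [sum_product]
      simp only
      rw [← sum_mul_sum]
      rw [hf]
      rfl
    simp only
    rw [g3]
    refine mul_le_mul g1 g2 (SQ_nn _ _ _) ?_
    have := SQ_nn (a * gs U k i) (a * gs U k (i + 1)) N
    linarith
  have himg : ∑ m ∈ I2, 1 / (m : ℝ) ≤ ∑ x ∈ S, f x.2.1 * f x.2.2 := by
    rw [hI2]
    have h5 := sum_image_le_of_nonneg (s := S) (g := fun x : (_ : ℕ) × (ℕ × ℕ) => x.2.1 * x.2.2)
      (f := fun m : ℕ => 1 / (m : ℝ)) (fun m _ => by positivity)
    refine h5.trans (le_of_eq (sum_congr rfl fun x _ => ?_))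
    rw [hf]
    push_cast
    rw [div_mul_div_comm, one_mul]
  have h5 : ∑ m ∈ R, 1 / (m : ℝ) ≤ ∑ m ∈ insert 1 (Q ∪ I2), 1 / (m : ℝ) :=
    sum_le_sum_of_subset_of_nonneg hsub fun _ _ _ => by positivity
  have h6 : ∑ m ∈ insert 1 (Q ∪ I2), 1 / (m : ℝ) ≤
      1 + (∑ m ∈ Q, 1 / (m : ℝ) + ∑ m ∈ I2, 1 / (m : ℝ)) := by
    have g1 : ∑ m ∈ insert 1 (Q ∪ I2), 1 / (m : ℝ) ≤
        1 + ∑ m ∈ (Q ∪ I2), 1 / (m : ℝ) := by
      by_cases hh : (1 : ℕ) ∈ Q ∪ I2
      · rw [insert_eq_of_mem hh]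
        linarith
      · rw [sum_insert hh, Nat.cast_one, div_one]
    have g2 : ∑ m ∈ (Q ∪ I2), 1 / (m : ℝ) ≤
        ∑ m ∈ Q, 1 / (m : ℝ) + ∑ m ∈ I2, 1 / (m : ℝ) := by
      rw [← sum_union_inter]
      have : 0 ≤ ∑ m ∈ Q ∩ I2, 1 / (m : ℝ) := sum_nonneg fun x _ => by positivity
      linarith
    linarith
  have h7 : ∑ m ∈ Q, 1 / (m : ℝ) = ∑ p ∈ Q, f p := by
    rw [hf]
  rw [h7] at h6
  unfold FU
  linarith

/-- the numerical value -/
lemma FU_num : FU (5 / 2) ≤ 965 / 1000 := by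
  unfold FU
  have h1 : Real.log (5 / 2) ≤ 0.9163 := by
    have e1 : (5 / 2 : ℝ) = 2 * 1.25 := by norm_num
    rw [e1, Real.log_mul (by norm_num) (by norm_num)]
    have h2 := Real.log_two_lt_d9
    have h3 : Real.log 1.25 ≤ 0.22315 := log_num (by norm_num) (by norm_num) (by norm_num)
    linarith
  have h2 : (∫ s in (1 : ℝ)..max 1 (5 / 2 / 2), Real.log ((5 / 2 - s) / s) / s) ≤
      ∫ s in (1 : ℝ)..max 1 (5 / 2 / 2), (25 / 12 * (1 / s) - 5 / 3) := by
    rw [max_eq_right (by norm_num)]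
    apply intervalIntegral.integral_mono_on (by norm_num) (h_cont le_rfl (by norm_num) (by norm_num))
    · apply ContinuousOn.intervalIntegrable
      rw [Set.uIcc_of_le (by norm_num)]
      intro s hs
      have hs0 : s ≠ 0 := by linarith [hs.1]
      apply ContinuousAt.continuousWithinAt
      exact (ContinuousAt.mul continuousAt_const (ContinuousAt.div continuousAt_const continuousAt_id hs0)).sub
        continuousAt_const
    · intro s hs
      have hs1 := hs.1
      have hs2 := hs.2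
      have hs0 : 0 < s := by linarith
      have hy1 : 1 ≤ (5 / 2 - s) / s := by
        rw [_root_.one_le_div hs0]
        linarith
      -- `log y ≤ (y ^ 2 - 1) / (2 y)`
      have key : Real.log ((5 / 2 - s) / s) ≤ 5 / 3 * (5 / 4 - s) := by
        have hyp : 0 < (5 / 2 - s) / s := by linarith
        have e1 := Real.self_le_sinh_iff.2 (Real.log_nonneg hy1)
        rw [Real.sinh_log hyp] at e1
        refine e1.trans ?_
        have hs5 : 0 < 5 / 2 - s := by linarith
        have e2 : ((5 / 2 - s) / s - ((5 / 2 - s) / s)⁻¹) / 2 = 5 * (5 / 4 - s) / (2 * (s * (5 / 2 - s))) := by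
          field_simp
          ring
        rw [e2, div_le_iff₀ (by positivity)]
        have e3 : 3 / 2 ≤ s * (5 / 2 - s) := by nlinarith
        have e4 : 0 ≤ 5 / 4 - s := by linarith
        nlinarith
      rw [div_le_iff₀ hs0]
      have e1 : (25 / 12 * (1 / s) - 5 / 3) * s = 5 / 3 * (5 / 4 - s) := by
        field_simp
        ring
      rw [e1]
      exact key
  have h3 : ∫ s in (1 : ℝ)..max 1 (5 / 2 / 2), (25 / 12 * (1 / s) - 5 / 3) =
      25 / 12 * Real.log (5 / 4) - 5 / 12 := by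
    rw [max_eq_right (by norm_num), intervalIntegral.integral_sub, intervalIntegral.integral_const_mul,
      integral_one_div_of_pos (by norm_num) (by norm_num), intervalIntegral.integral_const]
    · norm_num
    · apply ContinuousOn.intervalIntegrable
      rw [Set.uIcc_of_le (by norm_num)]
      intro s hs
      have hs0 : s ≠ 0 := by linarith [hs.1]
      apply ContinuousAt.continuousWithinAt
      exact ContinuousAt.mul continuousAt_const (ContinuousAt.div continuousAt_const continuousAt_id hs0)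
    · exact intervalIntegrable_const
  have h4 : Real.log (5 / 4) ≤ 0.22315 := log_num (by norm_num) (by norm_num) (by norm_num)
  rw [h3] at h2
  linarith

lemma FU_low {U : ℝ} (hU : U ≤ 2) : FU U = Real.log U := by
  unfold FU
  rw [max_eq_left (by linarith), intervalIntegral.integral_same, add_zero]

lemma int_nn {U : ℝ} : 0 ≤ ∫ s in (1 : ℝ)..max 1 (U / 2), Real.log ((U - s) / s) / s := by
  rcases le_total (U / 2) 1 with h | h
  · rw [max_eq_left h, intervalIntegral.integral_same]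
  · rw [max_eq_right h]
    apply intervalIntegral.integral_nonneg h
    intro s hs
    exact div_nonneg (log_nn hs.1 hs.2) (by linarith [hs.1])

/-- `FU` is increasing -/
lemma FU_mono {U V : ℝ} (hU : 1 ≤ U) (hUV : U ≤ V) : FU U ≤ FU V := by
  unfold FU
  have h1 : Real.log U ≤ Real.log V := Real.log_le_log (by linarith) hUV
  have h2 : (∫ s in (1 : ℝ)..max 1 (U / 2), Real.log ((U - s) / s) / s) ≤
      ∫ s in (1 : ℝ)..max 1 (V / 2), Real.log ((V - s) / s) / s := by
    rcases le_total (U / 2) 1 with h | h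
    · rw [max_eq_left h, intervalIntegral.integral_same]
      exact int_nn
    · rw [max_eq_right h, max_eq_right (by linarith)]
      have hi1 := h_cont (U := V) le_rfl h (by linarith)
      have hi2 := h_cont (U := V) h (b := V / 2) (by linarith) le_rfl
      rw [← intervalIntegral.integral_add_adjacent_intervals hi1 hi2]
      have h3 : 0 ≤ ∫ s in (U / 2)..(V / 2), Real.log ((V - s) / s) / s := by
        apply intervalIntegral.integral_nonneg (by linarith)
        intro s hs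
        exact div_nonneg (log_nn (by linarith [hs.1]) hs.2) (by linarith [hs.1])
      have h4 : (∫ s in (1 : ℝ)..(U / 2), Real.log ((U - s) / s) / s) ≤
          ∫ s in (1 : ℝ)..(U / 2), Real.log ((V - s) / s) / s := by
        apply intervalIntegral.integral_mono_on h (h_cont le_rfl h le_rfl) hi1
        intro s hs
        have hs0 : 0 < s := by linarith [hs.1]
        apply div_le_div_of_nonneg_right _ hs0.le
        apply Real.log_le_log (div_pos (by linarith [hs.2]) hs0)
        apply div_le_div_of_nonneg_right (by linarith) hs0.le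
      linarith
  linarith

lemma FU_bd {θ : ℝ} (h1 : 2 / 3 ≤ θ) (h2 : θ ≤ 5 / 6) :
    0 ≤ FU (θ / (2 - 2 * θ)) ∧ FU (θ / (2 - 2 * θ)) ≤ 965 / 1000 := by
  have h3 : 0 < 2 - 2 * θ := by linarith
  have h4 : 1 ≤ θ / (2 - 2 * θ) := by
    rw [_root_.one_le_div h3]
    linarith
  have h5 : θ / (2 - 2 * θ) ≤ 5 / 2 := by
    rw [div_le_iff₀ h3]
    linarith
  refine ⟨?_, (FU_mono h4 h5).trans FU_num⟩
  unfold FU
  have := Real.log_nonneg h4
  have := int_nn (U := θ / (2 - 2 * θ))
  linarith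

/-- the density for `2 / 3 ≤ θ ≤ 5 / 6` -/
lemma up_all {θ θ' : ℝ} (h0 : 1 / 2 ≤ θ') (h1 : θ' < θ) (h2 : 2 / 3 ≤ θ) (h3 : θ ≤ 5 / 6) {ε : ℝ} (hε : 0 < ε) :
    ∃ N₀ : ℕ, ∀ N : ℕ, N₀ ≤ N → Wg θ' N N ≤ 1 + (FU (θ / (2 - 2 * θ)) + ε) := by
  rcases le_total (4 / 5) θ with h | h
  · exact up_F h0 h1 h h3 hε
  · obtain ⟨g1, g2⟩ := FU_bd h2 h3
    refine up_a (θ := θ') (δ := FU (θ / (2 - 2 * θ)) + ε) h0 (by linarith) (by linarith) ?_
    have h4 : θ / (2 - 2 * θ) ≤ 2 := by
      rw [div_le_iff₀ (by linarith)]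
      linarith
    rw [FU_low h4]
    have h5 : Real.log (θ' / (2 - 2 * θ')) ≤ Real.log (θ / (2 - 2 * θ)) := by
      apply Real.log_le_log (div_pos (by linarith) (by linarith))
      apply div_le_div₀ (by linarith) h1.le (by linarith) (by linarith)
    linarith

/-- `2 / 3 ≤ θ ≤ 5 / 6` -/
theorem gt_F (ε : ℝ) (hε : 0 < ε) {θ : ℝ} (hθ0 : 2 / 3 ≤ θ) (hθ1 : θ ≤ 5 / 6) (t : ℝ) (ht : t < θ) (A T : ℕ) :
    ∃ N₀ : ℕ, ∀ N : ℕ, N₀ ≤ N → ∀ q : ℕ, 1 ≤ q → (q : ℝ) ≤ (N : ℝ) ^ t → ∀ a : ℕ,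
      (Nat.gcd a q : ℝ) ≤ Real.log N ^ T →
        ((badc (fun m => 3 ≤ m → WinT A (1 - FU (θ / (2 - 2 * θ)) ^ 2 - ε) (1 + FU (θ / (2 - 2 * θ)) + ε) m)
          N q a).card : ℝ) ≤ (N : ℝ) / (q * Real.log N ^ A) := by
  obtain ⟨hl0, hl1⟩ := FU_bd hθ0 hθ1
  obtain ⟨F, hF⟩ : ∃ F, F = FU (θ / (2 - 2 * θ)) := ⟨_, rfl⟩
  obtain ⟨e, he⟩ : ∃ e, e = min ε (1 / 10) / 4 := ⟨_, rfl⟩
  have he0 : 0 < e := by rw [he]; have := lt_min hε (show (0 : ℝ) < 1 / 10 by norm_num); linarith
  have he1 : 4 * e ≤ ε := by rw [he]; have := min_le_left ε (1 / 10 : ℝ); linarith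
  have he2 : 4 * e ≤ 1 / 10 := by rw [he]; have := min_le_right ε (1 / 10 : ℝ); linarith
  obtain ⟨θ', hθ'⟩ : ∃ θ', θ' = max (1 / 2) ((t + θ) / 2) := ⟨_, rfl⟩
  have a1 : 1 / 2 ≤ θ' := by rw [hθ']; exact le_max_left _ _
  have a2 : θ' < θ := by rw [hθ']; exact max_lt (by linarith) (by linarith)
  have a3 : t < θ' := by rw [hθ']; exact lt_of_lt_of_le (by linarith) (le_max_right _ _)
  have hup := up_all a1 a2 hθ0 hθ1 he0
  rw [← hF] at hup hl0 hl1 ⊢
  obtain ⟨δ, hδ⟩ : ∃ δ, δ = F + e := ⟨_, rfl⟩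
  rw [← hδ] at hup
  obtain ⟨N₀, h⟩ := gt_gen (θ := θ') (δ := δ) a1 (by linarith) (by linarith) (by linarith) hup e he0 (by linarith) t a3
    A T
  refine ⟨N₀, fun N hN q hq1 hqN a ha => ?_⟩
  refine le_trans ?_ (h N hN q hq1 hqN a ha)
  have : badc (fun m => 3 ≤ m → WinT A (1 - F ^ 2 - ε) (1 + F + ε) m) N q a ⊆
      badc (WinT A (1 - δ ^ 2 - e) (1 + δ + e)) N q a := by
    refine badc_mono N q a fun m hw hm => WinT_mono le_rfl ?_ ?_ hm hw
    · rw [hδ]
      nlinarith
    · rw [hδ]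
      linarith
  exact_mod_cast Finset.card_le_card this

end Pool.Agent.T2h83.GT
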