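import Pool.Agent.T2h83.GT.Err
import Pool.Agent.R460.GS.Grid

set_option autoImplicit false

/-! The sums over a window, in terms of the error terms. -/

namespace Pool.Agent.T2h83.GT

open Finset
open Pool.Agent.R460.GS
open Pool.Agent.H807R2.Dav (ee)
open Pool.Agent.H373R2.T7 (lamz Vz pz lamI lamzI Vz_pos)
open Pool.Agent.Y883.T3 (lsh)
open Pool.Agent.Y883.GJ
open Pool.Agent.W93.PG (wn cnt lam_sub lamz_le lamz_nn)
open Pool.Agent.H560R3.GB (sing)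

/-- the weighted model -/
noncomputable def hT (W : ℕ → ℝ) (z r n : ℕ) : ℝ := W n * lsh z r n

/-- the difference -/
noncomputable def fT (g W : ℕ → ℝ) (z r n : ℕ) : ℝ := g n - hT W z r n

open Classical in
/-- the integers where `g` is smaller than the von Mangoldt function -/
noncomputable def bd (g : ℕ → ℝ) (b : ℕ) : ℝ := if g b < la b then 1 else 0

lemma bd_nn (g : ℕ → ℝ) (b : ℕ) : 0 ≤ bd g b := by
  unfold bd
  split_ifs <;> norm_num

lemma bd_cases (g : ℕ → ℝ) (b : ℕ) : (bd g b = 0 ∧ la b ≤ g b) ∨ bd g b = 1 := by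
  unfold bd
  by_cases h : g b < la b
  · right
    rw [if_pos h]
  · left
    rw [if_neg h]
    exact ⟨rfl, not_lt.1 h⟩

lemma la_le_log {N b : ℕ} (hb : b ∈ Icc 1 N) : la b ≤ Real.log N := vm_le hb

lemma pt_lower {N b c : ℕ} {g : ℕ → ℝ} {k : ℝ} (hb : b ∈ Icc 1 N) (hc : c ∈ Icc 1 N) (hk : 0 ≤ k)
    (hg : ∀ n ∈ Icc 1 N, 0 ≤ g n ∧ g n ≤ k * Real.log N) :
    la b * g c + g b * la c - g b * g c - 2 * k * Real.log N ^ 2 * (bd g b + bd g c) ≤ la b * la c := by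
  obtain ⟨h3, h5⟩ := hg b hb
  obtain ⟨h4, h6⟩ := hg c hc
  have h1 := la_nn b
  have h2 := la_nn c
  have h7 : la b ≤ Real.log N := la_le_log hb
  have h8 : la c ≤ Real.log N := la_le_log hc
  have h9 : 0 ≤ Real.log N := h1.trans h7
  have h10 : la b * g c ≤ k * Real.log N ^ 2 := by
    calc la b * g c ≤ Real.log N * (k * Real.log N) := mul_le_mul h7 h6 h4 h9
      _ = _ := by ring
  have h11 : g b * la c ≤ k * Real.log N ^ 2 := by
    calc g b * la c ≤ (k * Real.log N) * Real.log N := mul_le_mul h5 h8 h2 (by positivity)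
      _ = _ := by ring
  have h12 : 0 ≤ la b * la c := mul_nonneg h1 h2
  have h13 : 0 ≤ 2 * k * Real.log N ^ 2 * bd g c := mul_nonneg (by positivity) (bd_nn _ _)
  have h14 : 0 ≤ 2 * k * Real.log N ^ 2 * bd g b := mul_nonneg (by positivity) (bd_nn _ _)
  have h15 : 0 ≤ g b * g c := mul_nonneg h3 h4
  rcases bd_cases g b with ⟨k1, e1⟩ | k1
  · rcases bd_cases g c with ⟨k2, e2⟩ | k2
    · rw [k1, k2]
      nlinarith [mul_nonneg (sub_nonneg.2 e1) (sub_nonneg.2 e2)]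
    · rw [mul_add, k2, mul_one]
      linarith
  · rw [mul_add, k1, mul_one]
    linarith

lemma pt_upper {N b c : ℕ} {g : ℕ → ℝ} (hb : b ∈ Icc 1 N) (hc : c ∈ Icc 1 N) (hg : ∀ n ∈ Icc 1 N, 0 ≤ g n) :
    la b * la c ≤ la b * g c + Real.log N ^ 2 * bd g c := by
  have h1 := la_nn b
  have h2 := la_nn c
  have h7 : la b ≤ Real.log N := la_le_log hb
  have h8 : la c ≤ Real.log N := la_le_log hc
  have h9 : 0 ≤ Real.log N := h1.trans h7
  rcases bd_cases g c with ⟨k2, e2⟩ | k2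
  · rw [k2, mul_zero, add_zero]
    exact mul_le_mul_of_nonneg_left e2 h1
  · rw [k2, mul_one]
    have h10 : la b * la c ≤ Real.log N ^ 2 := by
      rw [sq]
      exact mul_le_mul h7 h8 h2 h9
    have h11 : 0 ≤ la b * g c := mul_nonneg h1 (hg c hc)
    linarith

lemma bd_window {N n y₁ y₂ : ℕ} (g : ℕ → ℝ) (h2 : y₂ < n) (hn : n ≤ N) :
    ∑ b ∈ Ioc y₁ y₂, bd g b ≤ ∑ b ∈ Icc 1 N, bd g b ∧ ∑ b ∈ Ioc y₁ y₂, bd g (n - b) ≤ ∑ b ∈ Icc 1 N, bd g b := by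
  constructor
  · refine sum_le_sum_of_subset_of_nonneg (fun b hb => ?_) fun _ _ _ => bd_nn _ _
    rw [mem_Ioc] at hb
    rw [mem_Icc]
    omega
  · calc ∑ b ∈ Ioc y₁ y₂, bd g (n - b) ≤ ∑ b ∈ Icc 1 y₂, bd g (n - b) := by
          refine sum_le_sum_of_subset_of_nonneg (fun b hb => ?_) fun _ _ _ => bd_nn _ _
          rw [mem_Ioc] at hb
          rw [mem_Icc]
          omega
      _ = ∑ b ∈ Ioc (n - y₂ - 1) (n - 1), bd g b := reflect_sum (bd g) h2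
      _ ≤ ∑ b ∈ Icc 1 N, bd g b := by
          refine sum_le_sum_of_subset_of_nonneg (fun b hb => ?_) fun _ _ _ => bd_nn _ _
          rw [mem_Ioc] at hb
          rw [mem_Icc]
          omega

/-- the vector sieve -/
lemma wn_lower {N n y₁ y₂ : ℕ} {g : ℕ → ℝ} {k X : ℝ} (h2 : y₂ < n) (hn : n ≤ N) (hk : 0 ≤ k)
    (hg : ∀ n ∈ Icc 1 N, 0 ≤ g n ∧ g n ≤ k * Real.log N) (hX : ∑ b ∈ Icc 1 N, bd g b ≤ X) :
    ∑ b ∈ Ioc y₁ y₂, (la b * g (n - b) + g b * la (n - b) - g b * g (n - b)) -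
      4 * k * Real.log N ^ 2 * X ≤ wn n y₁ y₂ := by
  have h1 : ∑ b ∈ Ioc y₁ y₂, (la b * g (n - b) + g b * la (n - b) - g b * g (n - b) -
      2 * k * Real.log N ^ 2 * (bd g b + bd g (n - b))) ≤ wn n y₁ y₂ := by
    unfold wn
    refine sum_le_sum fun b hb => ?_
    rw [mem_Ioc] at hb
    rw [lam_sub n b (by omega)]
    exact pt_lower (mem_Icc.2 ⟨by omega, by omega⟩) (mem_Icc.2 ⟨by omega, by omega⟩) hk hg
  rw [sum_sub_distrib, ← mul_sum, sum_add_distrib] at h1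
  obtain ⟨h3, h4⟩ := bd_window (y₁ := y₁) g h2 hn
  have h5 : 2 * k * Real.log N ^ 2 * (∑ b ∈ Ioc y₁ y₂, bd g b + ∑ b ∈ Ioc y₁ y₂, bd g (n - b)) ≤
      2 * k * Real.log N ^ 2 * (X + X) := by
    apply mul_le_mul_of_nonneg_left (by linarith) (by positivity)
  linarith

lemma wn_upper {N n y₁ y₂ : ℕ} {g : ℕ → ℝ} {X : ℝ} (h2 : y₂ < n) (hn : n ≤ N)
    (hg : ∀ n ∈ Icc 1 N, 0 ≤ g n) (hX : ∑ b ∈ Icc 1 N, bd g b ≤ X) :
    wn n y₁ y₂ ≤ ∑ b ∈ Ioc y₁ y₂, la b * g (n - b) + Real.log N ^ 2 * X := by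
  have h1 : wn n y₁ y₂ ≤ ∑ b ∈ Ioc y₁ y₂, (la b * g (n - b) + Real.log N ^ 2 * bd g (n - b)) := by
    unfold wn
    refine sum_le_sum fun b hb => ?_
    rw [mem_Ioc] at hb
    rw [lam_sub n b (by omega)]
    exact pt_upper (mem_Icc.2 ⟨by omega, by omega⟩) (mem_Icc.2 ⟨by omega, by omega⟩) hg
  rw [sum_add_distrib, ← mul_sum] at h1
  obtain ⟨h3, h4⟩ := bd_window (y₁ := y₁) g h2 hn
  have h5 : Real.log N ^ 2 * (∑ b ∈ Ioc y₁ y₂, bd g (n - b)) ≤ Real.log N ^ 2 * X :=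
    mul_le_mul_of_nonneg_left (by linarith) (by positivity)
  linarith

lemma fC_eq (g W : ℕ → ℝ) (z r n : ℕ) : fC g W z r n = ((fT g W z r n : ℝ) : ℂ) := by
  unfold fC fT hT gC hC
  push_cast
  ring

/-- the error terms up to `y` -/
lemma err_window {N n y z r : ℕ} (g W : ℕ → ℝ) (hy : y < n) (hn : n ≤ N) :
    |∑ b ∈ Icc 1 y, (la b * fT g W z r (n - b) + fT g W z r b * la (n - b) - fT g W z r b * g (n - b) -
      hT W z r b * fT g W z r (n - b))| ≤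
    ‖cv LA (fC g W z r) y N n‖ + ‖cv LA (fC g W z r) N y n‖ + ‖cv (gC g) (fC g W z r) N y n‖ +
      ‖cv (hC W z r) (fC g W z r) y N n‖ := by
  rw [cv_left hy hn, cv_right hy hn, cv_right hy hn, cv_left hy hn]
  rw [← real_sum (Icc 1 y) la (fun b => fT g W z r (n - b)) LA (fun b => fC g W z r (n - b)) (fun _ => rfl)
    (fun b => fC_eq _ _ _ _ _)]
  rw [← real_sum (Icc 1 y) (fun b => la (n - b)) (fT g W z r) (fun b => LA (n - b)) (fC g W z r) (fun _ => rfl)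
    (fun b => fC_eq _ _ _ _ _)]
  rw [← real_sum (Icc 1 y) (fun b => g (n - b)) (fT g W z r) (fun b => gC g (n - b)) (fC g W z r) (fun _ => rfl)
    (fun b => fC_eq _ _ _ _ _)]
  rw [← real_sum (Icc 1 y) (hT W z r) (fun b => fT g W z r (n - b)) (hC W z r) (fun b => fC g W z r (n - b))
    (fun _ => rfl) (fun b => fC_eq _ _ _ _ _)]
  have e : ∑ b ∈ Icc 1 y, (la b * fT g W z r (n - b) + fT g W z r b * la (n - b) - fT g W z r b * g (n - b) -
      hT W z r b * fT g W z r (n - b)) =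
      ∑ b ∈ Icc 1 y, la b * fT g W z r (n - b) + ∑ b ∈ Icc 1 y, la (n - b) * fT g W z r b -
      ∑ b ∈ Icc 1 y, g (n - b) * fT g W z r b - ∑ b ∈ Icc 1 y, hT W z r b * fT g W z r (n - b) := by
    rw [← sum_add_distrib, ← sum_sub_distrib, ← sum_sub_distrib]
    refine sum_congr rfl fun b _ => ?_
    ring
  rw [e]
  refine (abs_sub _ _).trans (add_le_add ?_ le_rfl)
  refine (abs_sub _ _).trans (add_le_add ?_ le_rfl)
  exact abs_add_le _ _

lemma err_window1 {N n y z r : ℕ} (g W : ℕ → ℝ) (hy : y < n) (hn : n ≤ N) :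
    |∑ b ∈ Icc 1 y, la b * fT g W z r (n - b)| ≤ ‖cv LA (fC g W z r) y N n‖ := by
  rw [cv_left hy hn]
  rw [← real_sum (Icc 1 y) la (fun b => fT g W z r (n - b)) LA (fun b => fC g W z r (n - b)) (fun _ => rfl)
    (fun b => fC_eq _ _ _ _ _)]

/-- from the truncated model to the exact model -/
lemma swap_model {N n y₁ y₂ z r U : ℕ} {W : ℕ → ℝ} {c X₁ X₂ : ℝ} (hW : WB W c N) (hP : Par U N z r) (h2 : y₂ < n)
    (hn : n ≤ N) (h1 : ∑ n ∈ Icc 1 N, |lamz z n - lsh z r n| ≤ X₁)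
    (hX₂ : ∑ n ∈ Icc 1 N, (lsh z r n - lamz z n) ^ 2 ≤ X₂) :
    |∑ b ∈ Ioc y₁ y₂, (la b * hT W z r (n - b) + hT W z r b * la (n - b) - hT W z r b * hT W z r (n - b)) -
      ∑ b ∈ Ioc y₁ y₂, (la b * (W (n - b) * lamz z (n - b)) + (W b * lamz z b) * la (n - b) -
        (W b * lamz z b) * (W (n - b) * lamz z (n - b)))| ≤
    2 * ((c + c ^ 2) * Real.log N * X₁) + 2 * (c ^ 2 * X₂) := by
  have hc := hW.nn
  obtain ⟨x, hx⟩ : ∃ x : ℕ → ℝ, x = fun n => lsh z r n - lamz z n := ⟨_, rfl⟩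
  have hL0 : 0 ≤ Real.log N := Real.log_natCast_nonneg N
  have hpt : ∀ b ∈ Ioc y₁ y₂, |(la b * hT W z r (n - b) + hT W z r b * la (n - b) - hT W z r b * hT W z r (n - b)) -
      (la b * (W (n - b) * lamz z (n - b)) + (W b * lamz z b) * la (n - b) -
        (W b * lamz z b) * (W (n - b) * lamz z (n - b)))| ≤
      ((c + c ^ 2) * Real.log N * |x b| + c ^ 2 * x b ^ 2) +
      ((c + c ^ 2) * Real.log N * |x (n - b)| + c ^ 2 * x (n - b) ^ 2) := by
    intro b hb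
    rw [mem_Ioc] at hb
    have hbN : b ∈ Icc 1 N := mem_Icc.2 ⟨by omega, by omega⟩
    have hcN : n - b ∈ Icc 1 N := mem_Icc.2 ⟨by omega, by omega⟩
    have a1 := hW.h0 b
    have a2 := hW.h0 (n - b)
    have a3 := hW.h1 b (mem_Icc.1 hbN).2
    have a4 := hW.h1 (n - b) (mem_Icc.1 hcN).2
    have a5 := la_nn b
    have a6 := la_nn (n - b)
    have a7 : la b ≤ Real.log N := vm_le hbN
    have a8 : la (n - b) ≤ Real.log N := vm_le hcN
    have a9 := lamz_nn z b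
    have a10 := lamz_nn z (n - b)
    have a11 : lamz z b ≤ Real.log N := (lamz_le z b).trans hP.hV
    have a12 : lamz z (n - b) ≤ Real.log N := (lamz_le z (n - b)).trans hP.hV
    have e1 : (la b * hT W z r (n - b) + hT W z r b * la (n - b) - hT W z r b * hT W z r (n - b)) -
      (la b * (W (n - b) * lamz z (n - b)) + (W b * lamz z b) * la (n - b) -
        (W b * lamz z b) * (W (n - b) * lamz z (n - b))) =
      la b * W (n - b) * x (n - b) + la (n - b) * W b * x b -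
      W b * W (n - b) * (x b * lamz z (n - b) + lamz z b * x (n - b) + x b * x (n - b)) := by
      rw [hx]
      unfold hT
      ring
    rw [e1]
    have b1 : |la b * W (n - b) * x (n - b)| ≤ c * Real.log N * |x (n - b)| := by
      rw [abs_mul, abs_of_nonneg (mul_nonneg a5 a2)]
      apply mul_le_mul_of_nonneg_right _ (abs_nonneg _)
      rw [mul_comm c]
      exact mul_le_mul a7 a4 a2 hL0
    have b2 : |la (n - b) * W b * x b| ≤ c * Real.log N * |x b| := by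
      rw [abs_mul, abs_of_nonneg (mul_nonneg a6 a1)]
      apply mul_le_mul_of_nonneg_right _ (abs_nonneg _)
      rw [mul_comm c]
      exact mul_le_mul a8 a3 a1 hL0
    have b4 : |x b * lamz z (n - b) + lamz z b * x (n - b) + x b * x (n - b)| ≤
        Real.log N * |x b| + Real.log N * |x (n - b)| + (x b ^ 2 + x (n - b) ^ 2) := by
      refine (abs_add_le _ _).trans (add_le_add ((abs_add_le _ _).trans (add_le_add ?_ ?_)) ?_)
      · rw [abs_mul, abs_of_nonneg a10, mul_comm]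
        exact mul_le_mul_of_nonneg_right a12 (abs_nonneg _)
      · rw [abs_mul, abs_of_nonneg a9]
        exact mul_le_mul_of_nonneg_right a11 (abs_nonneg _)
      · rw [abs_mul]
        have := sq_abs (x b)
        have := sq_abs (x (n - b))
        nlinarith [sq_nonneg (|x b| - |x (n - b)|), abs_nonneg (x b), abs_nonneg (x (n - b))]
    have b3 : |W b * W (n - b) * (x b * lamz z (n - b) + lamz z b * x (n - b) + x b * x (n - b))| ≤
        c ^ 2 * (Real.log N * |x b| + Real.log N * |x (n - b)| + (x b ^ 2 + x (n - b) ^ 2)) := by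
      rw [abs_mul, abs_of_nonneg (mul_nonneg a1 a2)]
      refine mul_le_mul ?_ b4 (abs_nonneg _) (sq_nonneg c)
      rw [sq]
      exact mul_le_mul a3 a4 a2 hc
    have k1 := abs_sub (la b * W (n - b) * x (n - b) + la (n - b) * W b * x b)
      (W b * W (n - b) * (x b * lamz z (n - b) + lamz z b * x (n - b) + x b * x (n - b)))
    have k2 := abs_add_le (la b * W (n - b) * x (n - b)) (la (n - b) * W b * x b)
    calc _ ≤ c * Real.log N * |x (n - b)| + c * Real.log N * |x b| +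
          c ^ 2 * (Real.log N * |x b| + Real.log N * |x (n - b)| + (x b ^ 2 + x (n - b) ^ 2)) := by linarith
      _ = _ := by ring
  rw [← sum_sub_distrib]
  refine (abs_sum_le_sum_abs _ _).trans ((sum_le_sum hpt).trans ?_)
  obtain ⟨F, hF⟩ : ∃ F : ℕ → ℝ, F = fun b => (c + c ^ 2) * Real.log N * |x b| + c ^ 2 * x b ^ 2 := ⟨_, rfl⟩
  have hF0 : ∀ b, 0 ≤ F b := fun b => by rw [hF]; positivity
  have hFs : ∑ b ∈ Icc 1 N, F b ≤ (c + c ^ 2) * Real.log N * X₁ + c ^ 2 * X₂ := by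
    rw [hF, sum_add_distrib, ← mul_sum, ← mul_sum]
    have h3 : ∑ b ∈ Icc 1 N, |x b| ≤ X₁ := by
      refine le_trans (le_of_eq (sum_congr rfl fun b _ => ?_)) h1
      rw [hx, abs_sub_comm]
    have h4 : ∑ b ∈ Icc 1 N, x b ^ 2 ≤ X₂ := by rw [hx]; exact hX₂
    have h5 : 0 ≤ (c + c ^ 2) * Real.log N := by positivity
    exact add_le_add (mul_le_mul_of_nonneg_left h3 h5) (mul_le_mul_of_nonneg_left h4 (sq_nonneg c))
  have e3 : ∑ b ∈ Ioc y₁ y₂, (((c + c ^ 2) * Real.log N * |x b| + c ^ 2 * x b ^ 2) +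
      ((c + c ^ 2) * Real.log N * |x (n - b)| + c ^ 2 * x (n - b) ^ 2)) =
      ∑ b ∈ Ioc y₁ y₂, F b + ∑ b ∈ Ioc y₁ y₂, F (n - b) := by
    rw [← sum_add_distrib, hF]
  rw [e3]
  have k1 : ∑ b ∈ Ioc y₁ y₂, F b ≤ ∑ b ∈ Icc 1 N, F b := by
    refine sum_le_sum_of_subset_of_nonneg (fun b hb => ?_) fun _ _ _ => hF0 _
    rw [mem_Ioc] at hb
    rw [mem_Icc]
    omega
  have k2 : ∑ b ∈ Ioc y₁ y₂, F (n - b) ≤ ∑ b ∈ Icc 1 N, F b := by
    calc ∑ b ∈ Ioc y₁ y₂, F (n - b) ≤ ∑ b ∈ Icc 1 y₂, F (n - b) := by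
          refine sum_le_sum_of_subset_of_nonneg (fun b hb => ?_) fun _ _ _ => hF0 _
          rw [mem_Ioc] at hb
          rw [mem_Icc]
          omega
      _ = ∑ b ∈ Ioc (n - y₂ - 1) (n - 1), F b := reflect_sum F h2
      _ ≤ ∑ b ∈ Icc 1 N, F b := by
          refine sum_le_sum_of_subset_of_nonneg (fun b hb => ?_) fun _ _ _ => hF0 _
          rw [mem_Ioc] at hb
          rw [mem_Icc]
          omega
  linarith


/-- the same for one function -/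
lemma swap_one {N n y₁ y₂ z r : ℕ} {W : ℕ → ℝ} {c X₁ : ℝ} (hW : WB W c N) (h2 : y₂ < n)
    (hn : n ≤ N) (h1 : ∑ n ∈ Icc 1 N, |lamz z n - lsh z r n| ≤ X₁) :
    |∑ b ∈ Ioc y₁ y₂, la b * hT W z r (n - b) - ∑ b ∈ Ioc y₁ y₂, la b * (W (n - b) * lamz z (n - b))| ≤
      c * Real.log N * X₁ := by
  have hc := hW.nn
  have hL0 : 0 ≤ Real.log N := Real.log_natCast_nonneg N
  rw [← sum_sub_distrib]
  have hpt : ∀ b ∈ Ioc y₁ y₂, |la b * hT W z r (n - b) - la b * (W (n - b) * lamz z (n - b))| ≤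
      c * Real.log N * |lamz z (n - b) - lsh z r (n - b)| := by
    intro b hb
    rw [mem_Ioc] at hb
    have e1 : la b * hT W z r (n - b) - la b * (W (n - b) * lamz z (n - b)) =
        (la b * W (n - b)) * -(lamz z (n - b) - lsh z r (n - b)) := by
      unfold hT
      ring
    rw [e1, abs_mul, abs_neg, abs_of_nonneg (mul_nonneg (la_nn b) (hW.h0 _))]
    apply mul_le_mul_of_nonneg_right _ (abs_nonneg _)
    rw [mul_comm c]
    exact mul_le_mul (la_le_log (mem_Icc.2 ⟨by omega, by omega⟩)) (hW.h1 _ (by omega)) (hW.h0 _) hL0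
  refine (abs_sum_le_sum_abs _ _).trans ((sum_le_sum hpt).trans ?_)
  rw [← mul_sum]
  apply mul_le_mul_of_nonneg_left _ (mul_nonneg hc hL0)
  refine le_trans ?_ h1
  obtain ⟨F, hF⟩ : ∃ F : ℕ → ℝ, F = fun b => |lamz z b - lsh z r b| := ⟨_, rfl⟩
  have hF0 : ∀ b, 0 ≤ F b := fun b => by rw [hF]; positivity
  calc ∑ b ∈ Ioc y₁ y₂, |lamz z (n - b) - lsh z r (n - b)| = ∑ b ∈ Ioc y₁ y₂, F (n - b) := by rw [hF]
    _ ≤ ∑ b ∈ Icc 1 y₂, F (n - b) := by
        refine sum_le_sum_of_subset_of_nonneg (fun b hb => ?_) fun _ _ _ => hF0 _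
        rw [mem_Ioc] at hb
        rw [mem_Icc]
        omega
    _ = ∑ b ∈ Ioc (n - y₂ - 1) (n - 1), F b := reflect_sum F h2
    _ ≤ ∑ b ∈ Icc 1 N, F b := by
        refine sum_le_sum_of_subset_of_nonneg (fun b hb => ?_) fun _ _ _ => hF0 _
        rw [mem_Ioc] at hb
        rw [mem_Icc]
        omega
    _ = _ := by rw [hF]

/-- the main term for one function -/
lemma det_one {N n y₁ y₂ : ℕ} {W lz : ℕ → ℝ} {c S ε : ℝ} (hW : WB W c N) (hn : n ≤ N) (h12 : y₁ ≤ y₂)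
    (h2 : y₂ < n) (hm1 : ∀ y < n, |∑ b ∈ Icc 1 y, la b * lz (n - b) - S * y| ≤ ε) :
    |∑ b ∈ Ioc y₁ y₂, la b * (W (n - b) * lz (n - b)) - S * ∑ b ∈ Ioc y₁ y₂, W (n - b)| ≤ 4 * c * ε := by
  have hc := hW.nn
  have cst : ∀ m : ℕ, ∑ _i ∈ Icc 1 m, S = S * m := by
    intro m
    rw [sum_const, Nat.card_Icc, nsmul_eq_mul, Nat.add_sub_cancel, mul_comm]
  have p1 : ∀ m ≤ y₂, |∑ i ∈ Icc 1 m, (la i * lz (n - i) - S)| ≤ ε := by
    intro m hm
    rw [sum_sub_distrib, cst]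
    exact hm1 m (by omega)
  have q1 := abelW (fun i => la i * lz (n - i) - S) (fun i => W (n - i)) ε c c y₁ y₂ h12 p1
    (fun i hi => by rw [abs_of_nonneg (hW.h0 _)]; exact hW.h1 _ (by omega)) (hW.refl hn h2) hc
  have e : ∑ b ∈ Ioc y₁ y₂, la b * (W (n - b) * lz (n - b)) - S * ∑ b ∈ Ioc y₁ y₂, W (n - b) =
      ∑ i ∈ Ioc y₁ y₂, W (n - i) * (la i * lz (n - i) - S) := by
    rw [mul_sum, ← sum_sub_distrib]
    refine sum_congr rfl fun b _ => ?_
    ring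
  rw [e]
  refine q1.trans (le_of_eq ?_)
  ring

lemma card_small {y₁ y₂ : ℕ} {X : ℝ} (hX : 0 ≤ X) :
    (((Ioc y₁ y₂).filter (fun b : ℕ => (b : ℝ) < X)).card : ℝ) ≤ X + 1 := by
  have e1 : (Ioc y₁ y₂).filter (fun b : ℕ => (b : ℝ) < X) ⊆ Icc 1 ⌊X⌋₊ := by
    intro b hb
    rw [mem_filter, mem_Ioc] at hb
    rw [mem_Icc]
    exact ⟨by omega, Nat.le_floor hb.2.le⟩
  have e2 := card_le_card e1
  rw [Nat.card_Icc, Nat.add_sub_cancel] at e2
  have e3 : ((⌊X⌋₊ : ℕ) : ℝ) ≤ X := Nat.floor_le hX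
  have e4 : (((Ioc y₁ y₂).filter (fun b : ℕ => (b : ℝ) < X)).card : ℝ) ≤ ((⌊X⌋₊ : ℕ) : ℝ) := by exact_mod_cast e2
  linarith

lemma card_small' {n y₁ y₂ : ℕ} {X : ℝ} (hX : 0 ≤ X) (h2 : y₂ < n) :
    (((Ioc y₁ y₂).filter (fun b : ℕ => ((n - b : ℕ) : ℝ) < X)).card : ℝ) ≤ X + 1 := by
  have e0 : ((Ioc y₁ y₂).filter (fun b : ℕ => ((n - b : ℕ) : ℝ) < X)).card ≤ (Icc 1 ⌊X⌋₊).card := by
    refine card_le_card_of_injOn (fun b => n - b) ?_ ?_
    · intro b hb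
      rw [mem_coe, mem_filter, mem_Ioc] at hb
      rw [mem_coe, mem_Icc]
      have h5 : 1 ≤ n - b := by omega
      exact ⟨h5, Nat.le_floor hb.2.le⟩
    · intro a ha b hb hab
      rw [mem_coe, mem_filter, mem_Ioc] at ha hb
      simp only at hab
      omega
  rw [Nat.card_Icc, Nat.add_sub_cancel] at e0
  have e3 : ((⌊X⌋₊ : ℕ) : ℝ) ≤ X := Nat.floor_le hX
  have e4 : (((Ioc y₁ y₂).filter (fun b : ℕ => ((n - b : ℕ) : ℝ) < X)).card : ℝ) ≤ ((⌊X⌋₊ : ℕ) : ℝ) := by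
    exact_mod_cast e0
  linarith

/-- the density of the lower bound -/
lemma dens_lower' {N n y₁ y₂ : ℕ} {W : ℕ → ℝ} {c X δ : ℝ} (hW : WB W c N) (hn : n ≤ N) (h12 : y₁ ≤ y₂)
    (h2 : y₂ < n) (hX : 0 ≤ X) (hδ0 : 0 ≤ δ) (hδ1 : δ ≤ 1) (hd : ∀ b : ℕ, b ≤ N → X ≤ b → 1 ≤ W b ∧ W b ≤ 1 + δ) :
    (1 - δ ^ 2) * ((y₂ : ℝ) - y₁) - (c ^ 2 + 1) * (2 * X + 2) ≤
      ∑ b ∈ Ioc y₁ y₂, (W (n - b) + W b - W b * W (n - b)) := by
  classical
  have hc := hW.nn
  have hδ2 : 0 ≤ δ ^ 2 := sq_nonneg δ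
  have h1 : ∀ b ∈ Ioc y₁ y₂, (1 - δ ^ 2) - (if (b : ℝ) < X then (c ^ 2 + 1) else 0) -
      (if ((n - b : ℕ) : ℝ) < X then (c ^ 2 + 1) else 0) ≤ W (n - b) + W b - W b * W (n - b) := by
    intro b hb
    rw [mem_Ioc] at hb
    have k1 := hW.h0 b
    have k2 := hW.h0 (n - b)
    have k3 := hW.h1 b (by omega)
    have k4 := hW.h1 (n - b) (by omega)
    have k5 : W b * W (n - b) ≤ c ^ 2 := by
      rw [sq]
      exact mul_le_mul k3 k4 k2 hc
    by_cases a1 : (b : ℝ) < X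
    · rw [if_pos a1]
      have : (0 : ℝ) ≤ (if ((n - b : ℕ) : ℝ) < X then (c ^ 2 + 1) else 0) := by
        split_ifs
        · positivity
        · exact le_rfl
      linarith
    · by_cases a2 : ((n - b : ℕ) : ℝ) < X
      · rw [if_neg a1, if_pos a2]
        linarith
      · rw [if_neg a1, if_neg a2]
        obtain ⟨d1, d2⟩ := hd b (by omega) (not_lt.1 a1)
        obtain ⟨d3, d4⟩ := hd (n - b) (by omega) (not_lt.1 a2)
        have d5 : (W b - 1) * (W (n - b) - 1) ≤ δ * δ :=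
          mul_le_mul (by linarith) (by linarith) (by linarith) hδ0
        nlinarith
  refine le_trans ?_ (sum_le_sum h1)
  rw [sum_sub_distrib, sum_sub_distrib, sum_const, Nat.card_Ioc, nsmul_eq_mul, ← sum_filter, ← sum_filter,
    sum_const, sum_const, nsmul_eq_mul, nsmul_eq_mul]
  have c1 := card_small (y₁ := y₁) (y₂ := y₂) hX
  have c2 := card_small' (y₁ := y₁) hX h2
  have c3 : ((y₂ - y₁ : ℕ) : ℝ) = (y₂ : ℝ) - y₁ := Nat.cast_sub h12
  rw [c3]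
  have hc1 : 0 ≤ c ^ 2 + 1 := by positivity
  nlinarith [mul_le_mul_of_nonneg_right c1 hc1, mul_le_mul_of_nonneg_right c2 hc1]

/-- the density of the upper bound -/
lemma dens_upper' {N n y₁ y₂ : ℕ} {W : ℕ → ℝ} {c X δ : ℝ} (hW : WB W c N) (hn : n ≤ N) (h12 : y₁ ≤ y₂)
    (h2 : y₂ < n) (hX : 0 ≤ X) (hδ0 : 0 ≤ δ) (hd : ∀ b : ℕ, b ≤ N → X ≤ b → 1 ≤ W b ∧ W b ≤ 1 + δ) :
    ∑ b ∈ Ioc y₁ y₂, W (n - b) ≤ (1 + δ) * ((y₂ : ℝ) - y₁) + c * (X + 1) := by
  classical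
  have hc := hW.nn
  have h1 : ∀ b ∈ Ioc y₁ y₂, W (n - b) ≤ (1 + δ) + (if ((n - b : ℕ) : ℝ) < X then c else 0) := by
    intro b hb
    rw [mem_Ioc] at hb
    by_cases a2 : ((n - b : ℕ) : ℝ) < X
    · rw [if_pos a2]
      have := hW.h1 (n - b) (by omega)
      linarith
    · rw [if_neg a2]
      obtain ⟨d3, d4⟩ := hd (n - b) (by omega) (not_lt.1 a2)
      linarith
  refine (sum_le_sum h1).trans ?_
  rw [sum_add_distrib, sum_const, Nat.card_Ioc, nsmul_eq_mul, ← sum_filter, sum_const, nsmul_eq_mul]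
  have c2 := card_small' (y₁ := y₁) hX h2
  have c3 : ((y₂ - y₁ : ℕ) : ℝ) = (y₂ : ℝ) - y₁ := Nat.cast_sub h12
  rw [c3]
  nlinarith [mul_le_mul_of_nonneg_right c2 hc]

end Pool.Agent.T2h83.GT
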