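import Pool.Agent.T2h83.GT.G
import Pool.Agent.T2h83.GT.Low
import Pool.Agent.R453.GS.Apg1
import Pool.Agent.H373R2.T7.LamMaj

set_option autoImplicit false

/-! The sieve function `gt` in arithmetic progressions with a small difference. -/

namespace Pool.Agent.T2h83.GT

open Finset
open Pool.Agent.R460.GS
open Pool.Agent.Y614.GJ.Core (ev_log)

/-- the local density of `gZ` -/
noncomputable def WZ (Z P N n : ℕ) : ℝ :=
  ∑ m ∈ (Icc 1 N).filter (fun m => (∀ p ∈ m.primeFactors, Z < p) ∧ m * P < n), 1 / (m : ℝ)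

/-- the local density of `gt` -/
noncomputable def Wg (θ : ℝ) (N n : ℕ) : ℝ := WZ (Ze θ N) (Pe θ N) N n

lemma WZ_nn (Z P N n : ℕ) : 0 ≤ WZ Z P N n := sum_nonneg fun _ _ => by positivity

lemma WZ_mono (Z P N : ℕ) {a b : ℕ} (h : a ≤ b) : WZ Z P N a ≤ WZ Z P N b := by
  unfold WZ
  refine sum_le_sum_of_subset_of_nonneg (fun m hm => ?_) fun _ _ _ => by positivity
  rw [mem_filter] at hm ⊢
  exact ⟨hm.1, hm.2.1, lt_of_lt_of_le hm.2.2 h⟩

lemma WZ_wb (Z P N : ℕ) : WB (WZ Z P N) (WZ Z P N N) N := by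
  refine ⟨WZ_nn Z P N, fun n hn => WZ_mono Z P N hn, ?_⟩
  have e1 : ∀ n ∈ range N, |WZ Z P N (n + 1) - WZ Z P N n| = WZ Z P N (n + 1) - WZ Z P N n := by
    intro n _
    exact abs_of_nonneg (sub_nonneg.2 (WZ_mono Z P N (Nat.le_succ n)))
  rw [sum_congr rfl e1, sum_range_sub (fun n => WZ Z P N n)]
  have := WZ_nn Z P N 0
  linarith

lemma wb_mono {W : ℕ → ℝ} {c c' : ℝ} {N : ℕ} (h : WB W c N) (hc : c ≤ c') : WB W c' N :=
  ⟨h.h0, fun n hn => (h.h1 n hn).trans hc, h.h2.trans hc⟩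

/-- the sum of the density -/
lemma WZ_sum {Z P N y : ℕ} : ∑ n ∈ Icc 1 y, WZ Z P N n =
    ∑ m ∈ (Icc 1 N).filter (fun m => (∀ p ∈ m.primeFactors, Z < p) ∧ m * P < y), ((y : ℝ) / m - P) := by
  classical
  have e1 : ∀ n ∈ Icc 1 y, WZ Z P N n =
      ∑ m ∈ (Icc 1 N).filter (fun m => (∀ p ∈ m.primeFactors, Z < p) ∧ m * P < y),
        if m * P < n then 1 / (m : ℝ) else 0 := by
    intro n hn
    rw [mem_Icc] at hn
    unfold WZ
    rw [← sum_filter, filter_filter]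
    refine sum_congr ?_ fun _ _ => rfl
    ext m
    simp only [mem_filter]
    constructor
    · rintro ⟨h1, h2, h3⟩
      exact ⟨h1, ⟨h2, lt_of_lt_of_le h3 hn.2⟩, h3⟩
    · rintro ⟨h1, ⟨h2, -⟩, h3⟩
      exact ⟨h1, h2, h3⟩
  rw [sum_congr rfl e1, sum_comm]
  refine sum_congr rfl fun m hm => ?_
  rw [mem_filter, mem_Icc] at hm
  obtain ⟨⟨hm1, hm2⟩, hm3, hm4⟩ := hm
  have hm0 : (0 : ℝ) < m := by exact_mod_cast hm1
  rw [← sum_filter, sum_const, nsmul_eq_mul]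
  have e2 : (Icc 1 y).filter (fun n => m * P < n) = Ioc (m * P) y := by
    ext n
    rw [mem_filter, mem_Icc, mem_Ioc]
    omega
  rw [e2, Nat.card_Ioc, Nat.cast_sub hm4.le]
  push_cast
  field_simp

/-- sums over the divisors -/
lemma swap_div (y : ℕ) (f : ℕ → ℕ → ℝ) : ∑ n ∈ Icc 1 y, ∑ d ∈ n.divisors, f n d =
    ∑ m ∈ Icc 1 y, ∑ d ∈ Icc 1 (y / m), f (m * d) d := by
  rw [sum_sigma', sum_sigma']
  refine sum_bij' (fun x _ => ⟨x.1 / x.2, x.2⟩) (fun x _ => ⟨x.1 * x.2, x.2⟩) ?_ ?_ ?_ ?_ ?_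
  · rintro ⟨n, d⟩ h
    simp only [mem_sigma, mem_Icc] at h ⊢
    obtain ⟨⟨h1, h2⟩, h3⟩ := h
    obtain ⟨k, hk⟩ := Nat.dvd_of_mem_divisors h3
    have hd : 1 ≤ d := Nat.pos_of_mem_divisors h3
    have e : n / d = k := by rw [hk]; exact Nat.mul_div_cancel_left k hd
    have hk1 : 1 ≤ k := by
      rcases Nat.eq_zero_or_pos k with h | h
      · rw [h, mul_zero] at hk
        omega
      · exact h
    rw [e]
    have hkn : k ≤ n := by
      rw [hk]
      exact Nat.le_mul_of_pos_left k hd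
    refine ⟨⟨hk1, by omega⟩, hd, ?_⟩
    rw [Nat.le_div_iff_mul_le hk1]
    calc d * k = n := hk.symm
      _ ≤ y := h2
  · rintro ⟨m, d⟩ h
    simp only [mem_sigma, mem_Icc] at h ⊢
    obtain ⟨⟨h1, h2⟩, h3, h4⟩ := h
    rw [Nat.le_div_iff_mul_le h1] at h4
    refine ⟨⟨Nat.mul_pos h1 h3, ?_⟩, ?_⟩
    · rw [mul_comm]
      exact h4
    · rw [Nat.mem_divisors]
      exact ⟨Dvd.intro_left m rfl, (Nat.mul_pos h1 h3).ne'⟩
  · rintro ⟨n, d⟩ h
    simp only [mem_sigma, mem_Icc] at h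
    obtain ⟨⟨h1, h2⟩, h3⟩ := h
    have := Nat.div_mul_cancel (Nat.dvd_of_mem_divisors h3)
    simp only [this]
  · rintro ⟨m, d⟩ h
    simp only [mem_sigma, mem_Icc] at h
    obtain ⟨⟨h1, h2⟩, h3, h4⟩ := h
    have := Nat.mul_div_cancel m h3
    simp only [this]
  · rintro ⟨n, d⟩ h
    simp only [mem_sigma, mem_Icc] at h
    obtain ⟨⟨h1, h2⟩, h3⟩ := h
    have := Nat.div_mul_cancel (Nat.dvd_of_mem_divisors h3)
    simp only [this]

lemma ro_iff {Z n : ℕ} : ro Z n = 1 ↔ ∀ p ∈ n.primeFactors, Z < p := by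
  unfold ro
  split_ifs with h
  · exact ⟨fun _ => h, fun _ => rfl⟩
  · exact ⟨fun h' => absurd h' (by norm_num), fun h' => absurd h' h⟩

/-- the roughness of a product -/
lemma ro_prod {Z m d : ℕ} (hm : 1 ≤ m) (hd : 1 ≤ d) : ro Z (m * d) = ro Z m * ro Z d := by
  have h := ro_mul (Z := Z) (n := m * d) (d := d) (Nat.mul_pos hm hd) (Dvd.intro_left m rfl)
  rw [Nat.mul_div_cancel m hd] at h
  rw [← ro_iff] at h
  rcases ro_01 Z m with h1 | h1
  · rcases ro_01 Z (m * d) with h2 | h2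
    · rw [h2, h1, zero_mul]
    · have := (h.1 h2).2
      rw [h1] at this
      norm_num at this
  · rcases ro_01 Z d with h3 | h3
    · rcases ro_01 Z (m * d) with h2 | h2
      · rw [h2, h3, mul_zero]
      · have := (h.1 h2).1
        rw [h3] at this
        norm_num at this
    · rw [h.2 ⟨h3, h1⟩, h1, h3, mul_one]

lemma ro_nn (Z n : ℕ) : 0 ≤ ro Z n := by
  rcases ro_01 Z n with h | h <;> rw [h] <;> norm_num

lemma ro_le1 (Z n : ℕ) : ro Z n ≤ 1 := by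
  rcases ro_01 Z n with h | h <;> rw [h] <;> norm_num

/-- the powers of the small primes -/
lemma small_pp {Z N : ℕ} : ∑ d ∈ Icc 1 N, (1 - ro Z d) * ArithmeticFunction.vonMangoldt d ≤
    (Z : ℝ) * ((Nat.log 2 N + 1 : ℕ) : ℝ) * Real.log N := by
  classical
  have h0 : ∀ d ∈ Icc 1 N, (1 - ro Z d) * ArithmeticFunction.vonMangoldt d ≤
      if (ArithmeticFunction.vonMangoldt d ≠ 0 ∧ ro Z d = 0) then Real.log N else 0 := by
    intro d hd
    have h1 : ArithmeticFunction.vonMangoldt d ≤ Real.log N := vm_le hd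
    rcases ro_01 Z d with h | h
    · by_cases h2 : ArithmeticFunction.vonMangoldt d = 0
      · rw [h2, mul_zero]
        split_ifs
        · exact Real.log_natCast_nonneg N
        · exact le_rfl
      · rw [if_pos ⟨h2, h⟩, h]
        linarith
    · rw [h, sub_self, zero_mul]
      split_ifs
      · exact Real.log_natCast_nonneg N
      · exact le_rfl
  refine (sum_le_sum h0).trans ?_
  rw [← sum_filter, sum_const, nsmul_eq_mul]
  apply mul_le_mul_of_nonneg_right _ (Real.log_natCast_nonneg N)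
  have h1 : (Icc 1 N).filter (fun b => ArithmeticFunction.vonMangoldt b ≠ 0 ∧ ro Z b = 0) ⊆
      (Icc 1 Z ×ˢ range (Nat.log 2 N + 1)).image (fun x => x.1 ^ x.2) := by
    intro b hb
    rw [mem_filter, mem_Icc] at hb
    obtain ⟨hb1, hb2, hb3⟩ := hb
    obtain ⟨p, k, hp, hk, rfl⟩ := (isPrimePow_nat_iff _).1 (ArithmeticFunction.vonMangoldt_ne_zero_iff.1 hb2)
    have h2 : ¬ ∀ p' ∈ (p ^ k).primeFactors, Z < p' := by
      intro h3
      rw [ro_iff.2 h3] at hb3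
      norm_num at hb3
    rw [Nat.primeFactors_prime_pow hk.ne' hp] at h2
    have h3 : p ≤ Z := by
      by_contra h4
      apply h2
      intro p' hp'
      rw [mem_singleton] at hp'
      omega
    rw [mem_image]
    refine ⟨(p, k), ?_, rfl⟩
    rw [mem_product, mem_Icc, mem_range, Nat.lt_succ_iff]
    refine ⟨⟨hp.one_le, h3⟩, ?_⟩
    apply Nat.le_log_of_pow_le (by norm_num)
    exact (Nat.pow_le_pow_left hp.two_le k).trans hb1.2
  have h2 := (card_le_card h1).trans card_image_le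
  rw [card_product, Nat.card_Icc, Nat.add_sub_cancel, card_range] at h2
  exact_mod_cast h2

lemma inv_class' {m r : ℕ} (hr : 1 ≤ r) (hm : m.Coprime r) (c : ℕ) :
    ∃ c' : ℕ, (c'.Coprime r ↔ c.Coprime r) ∧ ∀ p : ℕ, m * p ≡ c [MOD r] ↔ p ≡ c' [MOD r] := by
  haveI : NeZero r := ⟨by omega⟩
  obtain ⟨c', hc'⟩ : ∃ c' : ℕ, c' = ((m : ZMod r)⁻¹ * (c : ZMod r)).val := ⟨_, rfl⟩
  have h1 : m * c' ≡ c [MOD r] := by
    rw [← ZMod.natCast_eq_natCast_iff]
    push_cast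
    rw [hc', ZMod.natCast_zmod_val, ← mul_assoc, ZMod.coe_mul_inv_eq_one m hm, one_mul]
  refine ⟨c', ⟨fun h => ?_, fun h => ?_⟩, fun p => ⟨fun h => ?_, fun h => ?_⟩⟩
  · have h2 : (m * c').Coprime r := Nat.Coprime.mul_left hm h
    unfold Nat.Coprime at h2 ⊢
    rw [← h1.gcd_eq]
    exact h2
  · have h2 : (m * c').Coprime r := by
      unfold Nat.Coprime
      rw [h1.gcd_eq]
      exact h
    exact Nat.Coprime.coprime_mul_left h2
  · exact Nat.ModEq.cancel_left_of_coprime (by rw [Nat.gcd_comm]; exact hm) (h.trans h1.symm)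
  · exact (h.mul_left m).trans h1

/-- the part of one cofactor -/
noncomputable def TT (P r c y m : ℕ) : ℝ :=
  ∑ d ∈ Icc 1 (y / m), if (m * d ≡ c [MOD r] ∧ P < d) then ArithmeticFunction.vonMangoldt d else 0

lemma TT_zero {P r c y m : ℕ} (hm : 1 ≤ m) (h : ¬ m * P < y) : TT P r c y m = 0 := by
  unfold TT
  refine sum_eq_zero fun d hd => ?_
  rw [mem_Icc, Nat.le_div_iff_mul_le hm] at hd
  rw [if_neg]
  rintro ⟨-, h2⟩
  apply h
  calc m * P < m * d := Nat.mul_lt_mul_of_pos_left h2 hm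
    _ = d * m := Nat.mul_comm _ _
    _ ≤ y := hd.2

/-- the sum of `gZ` in terms of the cofactors -/
lemma sum_gZ {Z P N r c y : ℕ} (hy : y ≤ N) :
    |∑ n ∈ (Icc 1 y).filter (fun n => n ≡ c [MOD r]), gZ Z P n -
      ∑ m ∈ (Icc 1 N).filter (fun m => (∀ p ∈ m.primeFactors, Z < p) ∧ m * P < y), TT P r c y m| ≤
    ∑ m ∈ (Icc 1 N).filter (fun m => (∀ p ∈ m.primeFactors, Z < p) ∧ m * P < y),
      ∑ d ∈ Icc 1 N, (1 - ro Z d) * ArithmeticFunction.vonMangoldt d := by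
  classical
  have e1 : ∑ n ∈ (Icc 1 y).filter (fun n => n ≡ c [MOD r]), gZ Z P n =
      ∑ m ∈ Icc 1 y, ∑ d ∈ Icc 1 (y / m), (if (m * d ≡ c [MOD r] ∧ P < d) then
        ro Z (m * d) * ArithmeticFunction.vonMangoldt d else 0) := by
    rw [← swap_div y (fun n d => if (n ≡ c [MOD r] ∧ P < d) then ro Z n * ArithmeticFunction.vonMangoldt d else 0),
      sum_filter]
    refine sum_congr rfl fun n _ => ?_
    unfold gZ
    by_cases h : n ≡ c [MOD r]
    · rw [if_pos h, sum_filter, mul_sum]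
      refine sum_congr rfl fun d _ => ?_
      by_cases h2 : P < d
      · rw [if_pos h2, if_pos ⟨h, h2⟩]
      · rw [if_neg h2, if_neg (fun h3 => h2 h3.2), mul_zero]
    · rw [if_neg h]
      symm
      refine sum_eq_zero fun d _ => ?_
      rw [if_neg (fun h3 => h h3.1)]
  have e2 : ∑ m ∈ Icc 1 y, ∑ d ∈ Icc 1 (y / m), (if (m * d ≡ c [MOD r] ∧ P < d) then
        ro Z (m * d) * ArithmeticFunction.vonMangoldt d else 0) =
      ∑ m ∈ (Icc 1 N).filter (fun m => (∀ p ∈ m.primeFactors, Z < p) ∧ m * P < y),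
        ∑ d ∈ Icc 1 (y / m), (if (m * d ≡ c [MOD r] ∧ P < d) then
        ro Z d * ArithmeticFunction.vonMangoldt d else 0) := by
    rw [sum_filter]
    have hsub : Icc 1 y ⊆ Icc 1 N := Icc_subset_Icc le_rfl hy
    rw [sum_subset hsub (f := fun m => ∑ d ∈ Icc 1 (y / m), (if (m * d ≡ c [MOD r] ∧ P < d) then
        ro Z (m * d) * ArithmeticFunction.vonMangoldt d else 0))]
    · refine sum_congr rfl fun m hm => ?_
      rw [mem_Icc] at hm
      by_cases h1 : (∀ p ∈ m.primeFactors, Z < p) ∧ m * P < y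
      · rw [if_pos h1]
        refine sum_congr rfl fun d hd => ?_
        rw [mem_Icc] at hd
        rw [ro_prod hm.1 hd.1, ro_iff.2 h1.1, one_mul]
      · rw [if_neg h1]
        refine sum_eq_zero fun d hd => ?_
        rw [mem_Icc, Nat.le_div_iff_mul_le hm.1] at hd
        by_cases h2 : m * d ≡ c [MOD r] ∧ P < d
        · rw [if_pos h2]
          have h3 : ro Z m = 0 := by
            rcases ro_01 Z m with h | h
            · exact h
            · exfalso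
              apply h1
              refine ⟨ro_iff.1 h, ?_⟩
              calc m * P < m * d := Nat.mul_lt_mul_of_pos_left h2.2 hm.1
                _ = d * m := Nat.mul_comm _ _
                _ ≤ y := hd.2
          rw [ro_prod hm.1 hd.1, h3, zero_mul, zero_mul]
        · rw [if_neg h2]
    · intro m hm hm'
      rw [mem_Icc] at hm hm'
      have : y / m = 0 := Nat.div_eq_of_lt (by omega)
      rw [this]
      simp
  rw [e1, e2, ← sum_sub_distrib]
  refine (abs_sum_le_sum_abs _ _).trans (sum_le_sum fun m hm => ?_)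
  unfold TT
  rw [← sum_sub_distrib]
  refine (abs_sum_le_sum_abs _ _).trans ?_
  have hle : Icc 1 (y / m) ⊆ Icc 1 N := Icc_subset_Icc le_rfl ((Nat.div_le_self _ _).trans hy)
  refine le_trans (sum_le_sum fun d _ => ?_) (sum_le_sum_of_subset_of_nonneg hle fun d _ _ =>
    mul_nonneg (sub_nonneg.2 (ro_le1 Z d)) ArithmeticFunction.vonMangoldt_nonneg)
  have h0 : 0 ≤ (1 - ro Z d) * ArithmeticFunction.vonMangoldt d :=
    mul_nonneg (sub_nonneg.2 (ro_le1 Z d)) ArithmeticFunction.vonMangoldt_nonneg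
  by_cases h2 : m * d ≡ c [MOD r] ∧ P < d
  · rw [if_pos h2, if_pos h2]
    have e3 : ro Z d * ArithmeticFunction.vonMangoldt d - ArithmeticFunction.vonMangoldt d =
      -((1 - ro Z d) * ArithmeticFunction.vonMangoldt d) := by ring
    rw [e3, abs_neg, abs_of_nonneg h0]
  · rw [if_neg h2, if_neg h2, sub_zero, abs_zero]
    exact h0

/-- one cofactor -/
lemma TT_main {P r c y m N : ℕ} {X : ℝ} (hm : 1 ≤ m) (hr : 1 ≤ r) (hmr : m.Coprime r) (hP : m * P < y) (hy : y ≤ N)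
    (h : ∀ c' y' : ℕ, y' ≤ N / m → |∑ n ∈ (Icc 1 y').filter (fun n => n ≡ c' [MOD r]),
      ArithmeticFunction.vonMangoldt n - (if c'.Coprime r then (y' : ℝ) / (Nat.totient r : ℝ) else 0)| ≤ X) :
    |TT P r c y m - (if c.Coprime r then ((y : ℝ) / m - P) / (Nat.totient r : ℝ) else 0)| ≤ 2 * X + 1 := by
  classical
  obtain ⟨c', hc1, hc2⟩ := inv_class' hr hmr c
  have hPy : P ≤ y / m := by
    rw [Nat.le_div_iff_mul_le hm, mul_comm]
    exact hP.le
  have hφ : (1 : ℝ) ≤ (Nat.totient r : ℝ) := by exact_mod_cast Nat.totient_pos.2 hr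
  have e1 : TT P r c y m = ∑ n ∈ (Icc 1 (y / m)).filter (fun n => n ≡ c' [MOD r]), ArithmeticFunction.vonMangoldt n -
      ∑ n ∈ (Icc 1 P).filter (fun n => n ≡ c' [MOD r]), ArithmeticFunction.vonMangoldt n := by
    unfold TT
    rw [sum_filter, sum_filter]
    have hs : Icc 1 (y / m) = Icc 1 P ∪ Ioc P (y / m) := by
      ext x
      simp only [mem_union, mem_Icc, mem_Ioc]
      omega
    have hdj : Disjoint (Icc 1 P) (Ioc P (y / m)) := by
      rw [disjoint_left]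
      intro x hx1 hx2
      rw [mem_Icc] at hx1
      rw [mem_Ioc] at hx2
      omega
    rw [hs, sum_union hdj, sum_union hdj, add_sub_cancel_left]
    rw [sum_eq_zero, zero_add]
    · refine sum_congr rfl fun d hd => ?_
      rw [mem_Ioc] at hd
      by_cases h1 : d ≡ c' [MOD r]
      · rw [if_pos h1, if_pos ⟨(hc2 d).2 h1, hd.1⟩]
      · rw [if_neg h1, if_neg (fun h2 => h1 ((hc2 d).1 h2.1))]
    · intro d hd
      rw [mem_Icc] at hd
      rw [if_neg]
      rintro ⟨-, h2⟩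
      omega
  have k1 := h c' (y / m) (Nat.div_le_div_right hy)
  have k2 := h c' P (hPy.trans (Nat.div_le_div_right hy))
  rw [e1]
  have hm0 : (0 : ℝ) < m := by exact_mod_cast hm
  have f1 : ((y / m : ℕ) : ℝ) ≤ (y : ℝ) / m := Nat.cast_div_le
  have f2 : (y : ℝ) / m < ((y / m : ℕ) : ℝ) + 1 := by
    rw [div_lt_iff₀ hm0]
    have := Nat.lt_mul_div_succ y hm
    have h3 : (y : ℝ) < (m : ℝ) * ((y / m : ℕ) + 1 : ℕ) := by exact_mod_cast this
    push_cast at h3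
    linarith
  by_cases hcop : c.Coprime r
  · rw [if_pos hcop]
    rw [if_pos (hc1.2 hcop)] at k1 k2
    rw [abs_le] at k1 k2 ⊢
    have g1 : ((y : ℝ) / m - P) / (Nat.totient r : ℝ) = ((y / m : ℕ) : ℝ) / (Nat.totient r : ℝ) -
      (P : ℝ) / (Nat.totient r : ℝ) + ((y : ℝ) / m - ((y / m : ℕ) : ℝ)) / (Nat.totient r : ℝ) := by
      field_simp
      ring
    have g2 : ((y : ℝ) / m - ((y / m : ℕ) : ℝ)) / (Nat.totient r : ℝ) ≤ 1 :=
      (div_le_self (by linarith) hφ).trans (by linarith)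
    have g3 : 0 ≤ ((y : ℝ) / m - ((y / m : ℕ) : ℝ)) / (Nat.totient r : ℝ) :=
      div_nonneg (by linarith) (by linarith)
    rw [g1]
    constructor <;> linarith [k1.1, k1.2, k2.1, k2.2]
  · rw [if_neg hcop]
    have hcop' : ¬ c'.Coprime r := fun h => hcop (hc1.1 h)
    rw [if_neg hcop'] at k1 k2
    rw [abs_le] at k1 k2 ⊢
    constructor <;> linarith [k1.1, k1.2, k2.1, k2.2]

lemma harm (N : ℕ) (hN : 1 ≤ N) : ∑ m ∈ Icc 1 N, 1 / (m : ℝ) ≤ 1 + Real.log N := by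
  have h := harmonic_le_one_add_log N
  have e : (harmonic N : ℝ) = ∑ m ∈ Icc 1 N, 1 / (m : ℝ) := by
    rw [harmonic_eq_sum_Icc]
    push_cast
    exact sum_congr rfl fun m _ => by rw [one_div]
  rw [← e]
  exact h

/-- `gt` in arithmetic progressions -/
theorem apG {θ : ℝ} (hθ0 : 1 / 2 ≤ θ) (hθ1 : θ < 1) (K U : ℕ) : ∃ N₀ : ℕ, ∀ N : ℕ, N₀ ≤ N →
    ApgAt N K U (gt θ N) (Wg θ N) := by
  classical
  obtain ⟨M₀, hM₀⟩ := Pool.Agent.H373R2.T7.lam_ap (K + 1) (U + 3)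
  obtain ⟨N₁, h1⟩ := Filter.eventually_atTop.1 (ev_log (U + 4) (s := 1 / 4) (by norm_num)
    (2 ^ (U + 7) + 2 ^ (K + 1) + 100))
  obtain ⟨N₂, h2⟩ := Filter.eventually_atTop.1 (ev_log (K + 1) (s := 1 - θ) (by linarith) (2 / (1 - θ) + 4))
  refine ⟨N₁ + N₂ + M₀ ^ 2 + 2, fun N hN r hr hrK c y hy => ?_⟩
  have hN2 : 2 ≤ N := by omega
  have hN1 : 1 ≤ N := by omega
  have hN0 : (0 : ℝ) < N := by exact_mod_cast hN1
  have hNr : (1 : ℝ) ≤ N := by exact_mod_cast hN1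
  obtain ⟨hL1a, hL1b⟩ := h1 N (by omega)
  obtain ⟨hL2a, hL2b⟩ := h2 N (by omega)
  obtain ⟨Z, hZ⟩ : ∃ Z, Z = Ze θ N := ⟨_, rfl⟩
  obtain ⟨P, hP⟩ : ∃ P, P = Pe θ N := ⟨_, rfl⟩
  have hlogP := (Pool.Agent.R453.GS.log_floor (γ := 1 - θ / 2) (by linarith) hN2)
  have hPd : Pe θ N = ⌊(N : ℝ) ^ (1 - θ / 2)⌋₊ := rfl
  rw [← hPd, ← hP] at hlogP
  obtain ⟨hP1, -, hPlog⟩ := hlogP
  have hlog2N : ((Nat.log 2 N + 1 : ℕ) : ℝ) ≤ 2 * Real.log N + 1 := by
    have := Pool.Agent.H373R2.T7.natlog_le N hN1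
    push_cast
    linarith
  obtain ⟨L, hLd⟩ : ∃ L, L = Real.log (N : ℝ) := ⟨_, rfl⟩
  have hharm := harm N hN1
  have hsp := small_pp (Z := Z) (N := N)
  rw [← hLd] at hL1a hL1b hL2a hL2b hPlog hrK hlog2N hharm hsp ⊢
  have hp2 : (0 : ℝ) < 2 ^ (U + 7) := by positivity
  have hp3 : (0 : ℝ) < 2 ^ (K + 1) := by positivity
  have hθ' : 0 < 1 - θ := by linarith
  have hθ2 : 0 < 2 / (1 - θ) := by positivity
  have hL100 : 100 ≤ L := by linarith
  have hL0 : 0 < L := by linarith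
  have hL1 : 1 ≤ L := by linarith
  -- `log P ≥ L / 2`
  have hPL : L / 2 ≤ Real.log P := by
    have e1 : 2 ≤ L * (1 - θ) := by
      have : 2 / (1 - θ) ≤ L := by linarith
      rwa [div_le_iff₀ hθ'] at this
    have e2 : (1 - θ / 2) * L - 1 = L / 2 + (L * (1 - θ) - 2) / 2 := by ring
    linarith
  have hP0 : (0 : ℝ) < P := by exact_mod_cast hP1
  have hPsq : √(N : ℝ) ≤ P := by
    rw [← Real.exp_log hP0]
    have e1 : √(N : ℝ) = Real.exp (L / 2) := by
      rw [hLd, ← Real.log_sqrt hN0.le, Real.exp_log (Real.sqrt_pos.2 hN0)]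
    rw [e1]
    exact Real.exp_le_exp.2 hPL
  have hPM : M₀ ≤ P := by
    have e1 : (M₀ : ℝ) ≤ √(N : ℝ) := by
      apply Real.le_sqrt_of_sq_le
      exact_mod_cast (by omega : M₀ ^ 2 ≤ N)
    exact_mod_cast e1.trans hPsq
  have hZr : (Z : ℝ) ≤ (N : ℝ) ^ (1 - θ) := by rw [hZ]; exact Ze_real
  have hrZ : r ≤ Z := by
    have e1 : (r : ℝ) ≤ (N : ℝ) ^ (1 - θ) := by
      refine hrK.trans (le_trans ?_ hL2b)
      exact pow_le_pow_right₀ hL1 (by omega)
    rw [hZ]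
    exact Nat.le_floor e1
  -- the set of the cofactors
  obtain ⟨R, hR⟩ : ∃ R, R = (Icc 1 N).filter (fun m => (∀ p ∈ m.primeFactors, Z < p) ∧ m * P < y) := ⟨_, rfl⟩
  have hRm : ∀ m ∈ R, 1 ≤ m ∧ m ≤ N ∧ (∀ p ∈ m.primeFactors, Z < p) ∧ m * P < y := by
    intro m hm
    rw [hR, mem_filter, mem_Icc] at hm
    exact ⟨hm.1.1, hm.1.2, hm.2.1, hm.2.2⟩
  have hRc : (R.card : ℝ) ≤ N / P := by
    have e1 : R ⊆ Icc 1 (N / P) := by
      intro m hm
      obtain ⟨a1, a2, a3, a4⟩ := hRm m hm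
      rw [mem_Icc, Nat.le_div_iff_mul_le hP1]
      exact ⟨a1, (by omega : m * P ≤ N)⟩
    have e2 := card_le_card e1
    rw [Nat.card_Icc, Nat.add_sub_cancel] at e2
    have e3 : (R.card : ℝ) ≤ ((N / P : ℕ) : ℝ) := by exact_mod_cast e2
    exact e3.trans Nat.cast_div_le
  have hE : ∀ m ∈ R, |TT P r c y m - (if c.Coprime r then ((y : ℝ) / m - P) / (Nat.totient r : ℝ) else 0)| ≤
      2 * (2 ^ (U + 3) * N / L ^ (U + 3) * (1 / m)) + 1 := by
    intro m hm
    obtain ⟨a1, a2, a3, a4⟩ := hRm m hm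
    have hm0 : (0 : ℝ) < m := by exact_mod_cast a1
    have hPN : P ≤ N / m := by
      rw [Nat.le_div_iff_mul_le a1, mul_comm]
      omega
    have hPNr : (P : ℝ) ≤ ((N / m : ℕ) : ℝ) := by exact_mod_cast hPN
    have hlogM : L / 2 ≤ Real.log ((N / m : ℕ) : ℝ) := hPL.trans (Real.log_le_log hP0 hPNr)
    have hmr : m.Coprime r := by
      by_contra hcon
      obtain ⟨l, hl, hlm, hlr⟩ := Nat.Prime.not_coprime_iff_dvd.1 hcon
      have h6 := a3 l (Nat.mem_primeFactors.2 ⟨hl, hlm, by omega⟩)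
      have h7 := Nat.le_of_dvd (by omega) hlr
      omega
    have hrM : (r : ℝ) ≤ Real.log ((N / m : ℕ) : ℝ) ^ (K + 1) := by
      refine le_trans ?_ (pow_le_pow_left₀ (by positivity) hlogM (K + 1))
      rw [div_pow, le_div_iff₀ (by positivity)]
      calc (r : ℝ) * 2 ^ (K + 1) ≤ L ^ K * L := by
            apply mul_le_mul hrK (by linarith) (by positivity) (by positivity)
        _ = L ^ (K + 1) := by ring
    have h := TT_main (P := P) (c := c) (N := N) a1 hr hmr a4 hy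
      (fun c' y' hy' => hM₀ (N / m) (hPM.trans hPN) r hr hrM c' y' hy')
    refine h.trans ?_
    have e1 : ((N / m : ℕ) : ℝ) / Real.log ((N / m : ℕ) : ℝ) ^ (U + 3) ≤
        2 ^ (U + 3) * N / L ^ (U + 3) * (1 / m) := by
      calc ((N / m : ℕ) : ℝ) / Real.log ((N / m : ℕ) : ℝ) ^ (U + 3) ≤ ((N : ℝ) / m) / (L / 2) ^ (U + 3) := by
            apply div_le_div₀ (by positivity) Nat.cast_div_le (by positivity)
            exact pow_le_pow_left₀ (by positivity) hlogM _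
        _ = _ := by
            rw [div_pow]
            field_simp
    linarith
  have hsum := sum_gZ (Z := Z) (P := P) (r := r) (c := c) hy
  have hWs : ∑ n ∈ Icc 1 y, Wg θ N n = ∑ m ∈ R, ((y : ℝ) / m - P) := by
    rw [hR]
    unfold Wg
    rw [← hZ, ← hP]
    exact WZ_sum
  rw [← hR] at hsum
  have hgt : ∑ n ∈ (Icc 1 y).filter (fun n => n ≡ c [MOD r]), gt θ N n =
      ∑ n ∈ (Icc 1 y).filter (fun n => n ≡ c [MOD r]), gZ Z P n := by
    rw [hZ, hP]
    rfl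
  rw [hgt, hWs]
  have e1 : (if c.Coprime r then (∑ m ∈ R, ((y : ℝ) / m - P)) / (Nat.totient r : ℝ) else 0) =
      ∑ m ∈ R, (if c.Coprime r then ((y : ℝ) / m - P) / (Nat.totient r : ℝ) else 0) := by
    by_cases hcop : c.Coprime r
    · simp only [if_pos hcop]
      rw [sum_div]
    · simp only [if_neg hcop]
      rw [sum_const_zero]
  rw [e1]
  have k1 : |∑ m ∈ R, TT P r c y m -
      ∑ m ∈ R, (if c.Coprime r then ((y : ℝ) / m - P) / (Nat.totient r : ℝ) else 0)| ≤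
      ∑ m ∈ R, (2 * (2 ^ (U + 3) * N / L ^ (U + 3) * (1 / m)) + 1) := by
    rw [← sum_sub_distrib]
    exact (abs_sum_le_sum_abs _ _).trans (sum_le_sum hE)
  have k2 : ∑ m ∈ R, (2 * (2 ^ (U + 3) * N / L ^ (U + 3) * (1 / (m : ℝ))) + 1) ≤
      2 * (2 ^ (U + 3) * N / L ^ (U + 3) * (1 + L)) + N / P := by
    rw [sum_add_distrib, ← mul_sum, ← mul_sum, sum_const, nsmul_eq_mul, mul_one]
    refine add_le_add ?_ hRc
    have : ∑ m ∈ R, 1 / (m : ℝ) ≤ 1 + L := by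
      refine le_trans (sum_le_sum_of_subset_of_nonneg ?_ fun _ _ _ => by positivity) hharm
      rw [hR]
      exact filter_subset _ _
    gcongr
  have k3 : ∑ m ∈ R, ∑ d ∈ Icc 1 N, (1 - ro Z d) * ArithmeticFunction.vonMangoldt d ≤
      N / P * ((N : ℝ) ^ (1 - θ) * (2 * L + 1) * L) := by
    rw [sum_const, nsmul_eq_mul]
    have h0 : 0 ≤ ∑ d ∈ Icc 1 N, (1 - ro Z d) * ArithmeticFunction.vonMangoldt d :=
      sum_nonneg fun d _ => mul_nonneg (sub_nonneg.2 (ro_le1 Z d)) ArithmeticFunction.vonMangoldt_nonneg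
    apply mul_le_mul hRc _ h0 (by positivity)
    refine hsp.trans ?_
    gcongr
  -- the size of `N / P`
  have hNP : (N : ℝ) / P ≤ 3 * (N : ℝ) ^ (θ / 2) := by
    rw [div_le_iff₀ hP0]
    have g1 : Real.exp (Real.log P) = P := Real.exp_log hP0
    have g2 : (N : ℝ) ^ (1 - θ / 2) * Real.exp (-1) ≤ P := by
      rw [← g1, Real.rpow_def_of_pos hN0, ← Real.exp_add]
      apply Real.exp_le_exp.2
      rw [← hLd]
      linarith
    have g3 : 1 / 3 ≤ Real.exp (-1) := by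
      rw [Real.exp_neg, one_div]
      apply inv_anti₀ (Real.exp_pos 1)
      have := Real.exp_one_lt_d9
      linarith
    have g4 : (N : ℝ) ^ (1 - θ / 2) * (1 / 3) ≤ P := by
      refine le_trans ?_ g2
      gcongr
    calc (N : ℝ) = 3 * (N : ℝ) ^ (θ / 2) * ((N : ℝ) ^ (1 - θ / 2) * (1 / 3)) := by
          have : (N : ℝ) ^ (θ / 2) * (N : ℝ) ^ (1 - θ / 2) = N := by
            rw [← Real.rpow_add hN0]
            rw [show θ / 2 + (1 - θ / 2) = (1 : ℝ) by ring, Real.rpow_one]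
          linarith
      _ ≤ 3 * (N : ℝ) ^ (θ / 2) * P := by gcongr
  have hfin1 : N / P * ((N : ℝ) ^ (1 - θ) * (2 * L + 1) * L) ≤ N / L ^ (U + 1) / 4 := by
    have g1 : (N : ℝ) / P * ((N : ℝ) ^ (1 - θ) * (2 * L + 1) * L) ≤
        3 * (N : ℝ) ^ (θ / 2) * ((N : ℝ) ^ (1 - θ) * (2 * L + 1) * L) := by gcongr
    refine g1.trans ?_
    have g2 : (N : ℝ) ^ (θ / 2) * (N : ℝ) ^ (1 - θ) = (N : ℝ) ^ (1 - θ / 2) := by
      rw [← Real.rpow_add hN0]
      congr 1
      ring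
    have g3 : (N : ℝ) ^ (1 - θ / 2) ≤ (N : ℝ) ^ (3 / 4 : ℝ) :=
      Real.rpow_le_rpow_of_exponent_le hNr (by linarith)
    have g4 : (N : ℝ) ^ (3 / 4 : ℝ) * (N : ℝ) ^ (1 / 4 : ℝ) = N := by
      rw [← Real.rpow_add hN0]
      norm_num
    rw [le_div_iff₀ (by norm_num), le_div_iff₀ (by positivity)]
    calc 3 * (N : ℝ) ^ (θ / 2) * ((N : ℝ) ^ (1 - θ) * (2 * L + 1) * L) * 4 * L ^ (U + 1)
        = ((N : ℝ) ^ (θ / 2) * (N : ℝ) ^ (1 - θ)) * (12 * (2 * L + 1) * L * L ^ (U + 1)) := by ring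
      _ ≤ (N : ℝ) ^ (3 / 4 : ℝ) * (L * L * L * L ^ (U + 1)) := by
          rw [g2]
          have : 12 * (2 * L + 1) ≤ L * L := by nlinarith
          gcongr
      _ = (N : ℝ) ^ (3 / 4 : ℝ) * L ^ (U + 4) := by ring
      _ ≤ (N : ℝ) ^ (3 / 4 : ℝ) * (N : ℝ) ^ (1 / 4 : ℝ) := by gcongr
      _ = N := g4
  have hfin2 : (N : ℝ) / P ≤ N / L ^ (U + 1) / 4 := by
    refine le_trans ?_ hfin1
    have g1 : 1 ≤ (N : ℝ) ^ (1 - θ) := Real.one_le_rpow hNr hθ'.le
    have g2 : 1 ≤ (N : ℝ) ^ (1 - θ) * (2 * L + 1) * L := by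
      have : (1 : ℝ) * 1 * 1 ≤ (N : ℝ) ^ (1 - θ) * (2 * L + 1) * L := by
        gcongr
        linarith
      linarith
    exact le_mul_of_one_le_right (by positivity) g2
  have hfin3 : 2 * (2 ^ (U + 3) * N / L ^ (U + 3) * (1 + L)) ≤ N / L ^ (U + 1) / 4 := by
    have g1 : 2 * (2 ^ (U + 3) * N / L ^ (U + 3) * (1 + L)) ≤ 2 * (2 ^ (U + 3) * N / L ^ (U + 3) * (2 * L)) := by
      have : 1 + L ≤ 2 * L := by linarith
      gcongr
    refine g1.trans ?_
    have g2 : 2 * (2 ^ (U + 3) * N / L ^ (U + 3) * (2 * L)) = (2 ^ (U + 7) / L) * (N / L ^ (U + 1) / 4) := by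
      rw [pow_add L U 3, pow_add L U 1, pow_add (2 : ℝ) U 7, pow_add (2 : ℝ) U 3]
      field_simp
      ring
    rw [g2]
    have g3 : 2 ^ (U + 7) / L ≤ 1 := by
      rw [div_le_one hL0]
      linarith
    have g4 : 0 ≤ (N : ℝ) / L ^ (U + 1) / 4 := by positivity
    nlinarith
  have hfin4 : (N : ℝ) / L ^ (U + 1) ≤ N / L ^ U := by
    apply div_le_div_of_nonneg_left hN0.le (by positivity)
    exact pow_le_pow_right₀ hL1 (by omega)
  have k4 := abs_sub_le (∑ n ∈ (Icc 1 y).filter (fun n => n ≡ c [MOD r]), gZ Z P n) (∑ m ∈ R, TT P r c y m)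
    (∑ m ∈ R, (if c.Coprime r then ((y : ℝ) / m - P) / (Nat.totient r : ℝ) else 0))
  linarith

end Pool.Agent.T2h83.GT
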