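import Pool.Agent.T2h83.GT.Mj
import Pool.Agent.T2h83.GT.Main
import Pool.Agent.R460.GH.Asm

/-!
Project GT (helper83), the assembly: two-sided bounds for the numbers of the Goldbach pairs in all windows, for
all but few of the even numbers in the residue classes of every modulus up to `N ^ t`, `t < 5 / 6`.
-/

set_option autoImplicit false

namespace Pool.Agent.T2h83.GT

open Pool.Agent.Y883.GJ
open Pool.Agent.R460.GS
open Pool.Agent.R460.GH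
open Pool.Agent.Y883.T4 (badc)

theorem apx_all {θ δ : ℝ} (hθ0 : 1 / 2 ≤ θ) (hθ1 : θ < 1) (hδ : 0 ≤ δ)
    (hup : ∃ N₀ : ℕ, ∀ N : ℕ, N₀ ≤ N → Wg θ N N ≤ 1 + δ) : Apx θ (gt θ) (Wg θ) ∧ Mjt δ (gt θ) (Wg θ) :=
  apx_gt hθ0 hθ1 hδ hup Pool.Agent.Y812.GJ.l2
    (bilMaj3 Pool.Agent.Y812.GJ.l2 (countK Pool.Agent.Y812.GJ.l2)) Pool.Agent.Y909.GJ.bilMin

theorem err_all' {θ : ℝ} {g W : ℕ → ℕ → ℝ} (hθ : θ ≤ 9 / 10) (hG : Apx θ g W) : ErrT θ g W :=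
  err_T hθ hG
    (core4 Pool.Agent.Y708.GJ.lift Pool.Agent.Y872.GJ.pars Pool.Agent.Y297.GJ.orth Pool.Agent.Y812.GJ.nonU)
    (shm4 Pool.Agent.Y297.GJ.orth Pool.Agent.Y662.GJ.jac)
    (shl4 Pool.Agent.Y235.GJ.vau Pool.Agent.Y662.GJ.jac Pool.Agent.Y812.GJ.l2)
    (tiMaj2 Pool.Agent.Y812.GJ.l2) Pool.Agent.Y412.GJ.tiMin Pool.Agent.Y812.GJ.lsh_le Pool.Agent.Y883.GJ.model_all

/-- the general theorem -/
theorem gt_gen {θ δ : ℝ} (hθ0 : 1 / 2 ≤ θ) (hθ9 : θ ≤ 9 / 10) (hδ : 0 ≤ δ) (hδ1 : δ ≤ 1)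
    (hup : ∃ N₀ : ℕ, ∀ N : ℕ, N₀ ≤ N → Wg θ N N ≤ 1 + δ) (ε : ℝ) (hε : 0 < ε) (hε1 : ε ≤ 1 / 2) (t : ℝ)
    (ht : t < θ) (A T : ℕ) :
    ∃ N₀ : ℕ, ∀ N : ℕ, N₀ ≤ N → ∀ q : ℕ, 1 ≤ q → (q : ℝ) ≤ (N : ℝ) ^ t → ∀ a : ℕ,
      (Nat.gcd a q : ℝ) ≤ Real.log N ^ T →
        ((badc (WinT A (1 - δ ^ 2 - ε) (1 + δ + ε)) N q a).card : ℝ) ≤ (N : ℝ) / (q * Real.log N ^ A) := by
  obtain ⟨h1, h2⟩ := apx_all hθ0 (by linarith) hδ hup
  exact main_T hθ9 hδ hδ1 h1 h2 (err_all' hθ9 h1) ε hε hε1 t ht A T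

lemma WinT_mono {A A' : ℕ} {lo lo' hi hi' : ℝ} {m : ℕ} (hA : A' ≤ A) (hlo : lo' ≤ lo) (hhi : hi ≤ hi') (hm : 3 ≤ m)
    (h : WinT A lo hi m) : WinT A' lo' hi' m := by
  intro y₁ y₂ h1 h2 h3
  have hm3 : (3 : ℝ) ≤ m := by exact_mod_cast hm
  have hlog : 1 ≤ Real.log m := by
    rw [Real.le_log_iff_exp_le (by positivity)]
    have := Real.exp_one_lt_d9
    linarith
  have h4 : (m : ℝ) / Real.log m ^ A ≤ (y₂ : ℝ) - y₁ := by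
    refine le_trans ?_ h3
    apply div_le_div_of_nonneg_left (by positivity) (by positivity)
    exact pow_le_pow_right₀ hlog hA
  obtain ⟨k1, k2⟩ := h y₁ y₂ h1 h2 h4
  have h5 : (0 : ℝ) ≤ (y₂ : ℝ) - y₁ := by
    have : (y₁ : ℝ) ≤ y₂ := by exact_mod_cast h1.le
    linarith
  have h6 := one_le_sing m
  have h7 : 0 ≤ Pool.Agent.H560R3.GB.sing m * ((y₂ : ℝ) - y₁) / Real.log m ^ 2 := by positivity
  exact ⟨(mul_le_mul_of_nonneg_right hlo h7).trans k1, k2.trans (mul_le_mul_of_nonneg_right hhi h7)⟩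

lemma badc_mono {P Q : ℕ → Prop} (N q a : ℕ) (h : ∀ n, Q n → P n) : badc P N q a ⊆ badc Q N q a := by
  classical
  intro n hn
  unfold badc at hn ⊢
  rw [Finset.mem_filter] at hn ⊢
  obtain ⟨c1, c2, c3, c4⟩ := hn
  exact ⟨c1, c2, c3, fun hw => c4 (h n hw)⟩

/-- the constant -/
noncomputable def lam (θ : ℝ) : ℝ := Real.log (θ / (2 - 2 * θ))

lemma lam_nn {θ : ℝ} (h1 : 2 / 3 ≤ θ) (h2 : θ ≤ 4 / 5) : 0 ≤ lam θ ∧ lam θ ≤ 7 / 10 := by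
  unfold lam
  have h3 : 0 < 2 - 2 * θ := by linarith
  constructor
  · apply Real.log_nonneg
    rw [_root_.one_le_div h3]
    linarith
  · have h4 : θ / (2 - 2 * θ) ≤ 2 := by
      rw [div_le_iff₀ h3]
      linarith
    have h5 : 0 < θ / (2 - 2 * θ) := div_pos (by linarith) h3
    have := Real.log_le_log h5 h4
    have := Real.log_two_lt_d9
    linarith

/-- `2 / 3 ≤ θ ≤ 4 / 5` -/
theorem gt_a (ε : ℝ) (hε : 0 < ε) {θ : ℝ} (hθ0 : 2 / 3 ≤ θ) (hθ1 : θ ≤ 4 / 5) (t : ℝ) (ht : t < θ) (A T : ℕ) :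
    ∃ N₀ : ℕ, ∀ N : ℕ, N₀ ≤ N → ∀ q : ℕ, 1 ≤ q → (q : ℝ) ≤ (N : ℝ) ^ t → ∀ a : ℕ,
      (Nat.gcd a q : ℝ) ≤ Real.log N ^ T →
        ((badc (fun m => 3 ≤ m → WinT A (1 - lam θ ^ 2 - ε) (1 + lam θ + ε) m) N q a).card : ℝ) ≤
          (N : ℝ) / (q * Real.log N ^ A) := by
  obtain ⟨hl0, hl1⟩ := lam_nn hθ0 hθ1
  obtain ⟨e, he⟩ : ∃ e, e = min ε (1 / 2) / 4 := ⟨_, rfl⟩
  have he0 : 0 < e := by rw [he]; have := lt_min hε (show (0 : ℝ) < 1 / 2 by norm_num); linarith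
  have he1 : 4 * e ≤ ε := by rw [he]; have := min_le_left ε (1 / 2 : ℝ); linarith
  have he2 : 4 * e ≤ 1 / 2 := by rw [he]; have := min_le_right ε (1 / 2 : ℝ); linarith
  obtain ⟨θ', hθ'⟩ : ∃ θ', θ' = max (1 / 2) ((t + θ) / 2) := ⟨_, rfl⟩
  have a1 : 1 / 2 ≤ θ' := by rw [hθ']; exact le_max_left _ _
  have a2 : θ' < θ := by rw [hθ']; exact max_lt (by linarith) (by linarith)
  have a3 : t < θ' := by rw [hθ']; exact lt_of_lt_of_le (by linarith) (le_max_right _ _)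
  have hlog : Real.log (θ' / (2 - 2 * θ')) ≤ lam θ := by
    unfold lam
    have b1 : 0 < 2 - 2 * θ := by linarith
    apply Real.log_le_log (div_pos (by linarith) (by linarith))
    apply div_le_div₀ (by linarith) a2.le b1 (by linarith)
  obtain ⟨δ, hδ⟩ : ∃ δ, δ = lam θ + e := ⟨_, rfl⟩
  have hup := up_a (θ := θ') (δ := δ) a1 (by linarith) (by linarith) (by linarith)
  obtain ⟨N₀, h⟩ := gt_gen (θ := θ') (δ := δ) a1 (by linarith) (by linarith) (by linarith) hup e he0 (by linarith) t a3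
    A T
  refine ⟨N₀, fun N hN q hq1 hqN a ha => ?_⟩
  refine le_trans ?_ (h N hN q hq1 hqN a ha)
  have : badc (fun m => 3 ≤ m → WinT A (1 - lam θ ^ 2 - ε) (1 + lam θ + ε) m) N q a ⊆
      badc (WinT A (1 - δ ^ 2 - e) (1 + δ + e)) N q a := by
    refine badc_mono N q a fun m hw hm => WinT_mono le_rfl ?_ ?_ hm hw
    · rw [hδ]
      nlinarith
    · rw [hδ]
      linarith
  exact_mod_cast Finset.card_le_card this

/-- `θ = 5 / 6` -/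
theorem gt_b (t : ℝ) (ht : t < 5 / 6) (A T : ℕ) :
    ∃ N₀ : ℕ, ∀ N : ℕ, N₀ ≤ N → ∀ q : ℕ, 1 ≤ q → (q : ℝ) ≤ (N : ℝ) ^ t → ∀ a : ℕ,
      (Nat.gcd a q : ℝ) ≤ Real.log N ^ T →
        ((badc (fun m => 3 ≤ m → WinT A (1 / 20) 2 m) N q a).card : ℝ) ≤ (N : ℝ) / (q * Real.log N ^ A) := by
  obtain ⟨N₀, h⟩ := gt_gen (θ := 5 / 6) (δ := 974 / 1000) (by norm_num) (by norm_num) (by norm_num) (by norm_num)
    up_b (1 / 1000) (by norm_num) (by norm_num) t ht A T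
  refine ⟨N₀, fun N hN q hq1 hqN a ha => ?_⟩
  refine le_trans ?_ (h N hN q hq1 hqN a ha)
  have : badc (fun m => 3 ≤ m → WinT A (1 / 20) 2 m) N q a ⊆
      badc (WinT A (1 - (974 / 1000) ^ 2 - 1 / 1000) (1 + 974 / 1000 + 1 / 1000)) N q a := by
    exact badc_mono N q a fun m hw hm => WinT_mono le_rfl (by norm_num) (by norm_num) hm hw
  exact_mod_cast Finset.card_le_card this

end Pool.Agent.T2h83.GT
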