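import Pool.Agent.R460.GS.Shm

set_option autoImplicit false

/-! Few bad characters on the major arcs imply small correlations with the shifted characters (adapted from
`R460/GS/Shm`, all exponents up to `1`). -/

namespace Pool.Agent.T2h83.GT

open Finset
open Pool.Agent.R460.GS
open Pool.Agent.Y883.GJ
open Pool.Agent.H807R2.Dav (ee)
open Pool.Agent.Y614.GJ.Core (q_le_phi ev_log)

/-- few bad characters on the major arcs imply small correlations with the shifted characters -/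
def Shm4Stm : Prop := ∀ (B C T : ℕ) (ρ : ℝ), -(3 / 10) ≤ ρ → ∃ A₂ : ℕ, ∀ C₃ : ℕ, ∃ K N₀ : ℕ, ∀ N : ℕ, N₀ ≤ N →
  ∀ F : ℕ → ℂ, BdAt N F → NcAt N (B + 1) F → MajAt N ρ A₂ C C₃ F → ShAt N ρ B C T K F

theorem shm4 (h5 : OrthStm) (hJ : JacStm) : Shm4Stm := by
  classical
  intro B C T ρ hρ
  refine ⟨2 * B + 2, fun C₃ => ⟨T + 2 * (C₃ + B + 10), ?_⟩⟩
  obtain ⟨N₀, hN₀⟩ := Filter.eventually_atTop.1 (ev_log 1 (s := 1) one_pos 8)
  refine ⟨max N₀ 1, fun N hN F hF hNc hM q _ hq χ hχ a ha η hη y hy => ?_⟩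
  have hN1 : 1 ≤ N := le_trans (le_max_right _ _) hN
  obtain ⟨hL8, -⟩ := hN₀ N (le_trans (le_max_left _ _) hN)
  have hl1 := bd_l1 hF hL8
  obtain ⟨S, -, hSc, hS⟩ := hM q hq
  have hN0 : (0 : ℝ) < N := by exact_mod_cast hN1
  have hNr1 : (1 : ℝ) ≤ N := by exact_mod_cast hN1
  have hq0 : (0 : ℝ) < q := by exact_mod_cast NeZero.pos q
  have hqN : (q : ℝ) ≤ N := by
    calc (q : ℝ) ≤ (N : ℝ) ^ (7 / 10 - ρ) := hq
      _ ≤ (N : ℝ) ^ (1 : ℝ) := Real.rpow_le_rpow_of_exponent_le hNr1 (by linarith)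
      _ = N := Real.rpow_one _
  have hlq : Real.log q ≤ Real.log N := Real.log_le_log hq0 hqN
  have hlq0 : 0 ≤ Real.log q := Real.log_natCast_nonneg q
  have hnc := hNc q (NeZero.pos q) (by exact_mod_cast hqN)
  have hSS := hS η hη y hy (univ.filter (fun χ => χ ∉ S)) (by
    rw [disjoint_left]
    intro χ k1 k2
    exact (mem_filter.1 k1).2 k2)
  obtain ⟨L, hL⟩ : ∃ L, L = Real.log (N : ℝ) := ⟨_, rfl⟩
  rw [← hL] at hL8 hl1 hSc hlq hnc hSS hχ ha ⊢
  have hL0 : 0 < L := by linarith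
  have hL1 : 1 ≤ L := by linarith
  have h := shm_aux h5 hJ F η χ a S (X1 := N / L ^ (B + 1)) (X2 := N / L ^ (B + 1)) (X3 := N * L ^ 5)
    (by positivity)
    (by
      refine hSS.trans (le_of_eq ?_)
      rw [div_pow, ← pow_mul]
      congr 2
      ring)
    (by
      refine le_trans ?_ hnc
      exact sum_le_sum_of_subset_of_nonneg (filter_subset_filter _ (Icc_subset_Icc le_rfl hy))
        fun _ _ _ => norm_nonneg _)
    (by
      refine le_trans ?_ hl1
      exact sum_le_sum_of_subset_of_nonneg (Icc_subset_Icc le_rfl hy) fun _ _ _ => norm_nonneg _)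
  refine h.trans ?_
  have hcond : (0 : ℝ) < χ.conductor := lt_of_le_of_lt (by positivity) hχ
  have e1 : Real.sqrt ((Nat.gcd a.val q : ℝ) / χ.conductor) ≤ 1 / L ^ (C₃ + B + 10) := by
    apply Real.sqrt_le_iff.2
    refine ⟨by positivity, ?_⟩
    rw [div_le_iff₀ hcond]
    calc (Nat.gcd a.val q : ℝ) ≤ L ^ T := ha
      _ = (1 / L ^ (C₃ + B + 10)) ^ 2 * L ^ (T + 2 * (C₃ + B + 10)) := by
          have e0 : L ^ (T + 2 * (C₃ + B + 10)) = L ^ T * (L ^ (C₃ + B + 10)) ^ 2 := by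
            rw [← pow_mul, ← pow_add]
            congr 1
            ring
          rw [e0]
          have e1 : L ^ (C₃ + B + 10) ≠ 0 := by positivity
          generalize L ^ (C₃ + B + 10) = X at e1 ⊢
          field_simp
      _ ≤ (1 / L ^ (C₃ + B + 10)) ^ 2 * χ.conductor := by gcongr
  have e2 : (S.card : ℝ) * (N * L ^ 5 * ((1 + 2 * Real.log q) *
      ((1 + Real.log q) * Real.sqrt ((Nat.gcd a.val q : ℝ) / χ.conductor)))) ≤ N / L ^ (B + 1) := by
    calc (S.card : ℝ) * (N * L ^ 5 * ((1 + 2 * Real.log q) *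
        ((1 + Real.log q) * Real.sqrt ((Nat.gcd a.val q : ℝ) / χ.conductor))))
        ≤ L ^ C₃ * (N * L ^ 5 * (L ^ 2 * (L ^ 2 * (1 / L ^ (C₃ + B + 10))))) := by
          have k1 : 1 + 2 * Real.log q ≤ L ^ 2 := by nlinarith
          have k2 : 1 + Real.log q ≤ L ^ 2 := by nlinarith
          gcongr
      _ = N / L ^ (B + 1) := by
          rw [show C₃ + B + 10 = C₃ + (B + 1) + 9 by ring, pow_add, pow_add L C₃ (B + 1)]
          field_simp
  have e3 : N / L ^ B = L * (N / L ^ (B + 1)) := by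
    rw [pow_succ]
    field_simp
  rw [e3]
  have e4 : 0 ≤ N / L ^ (B + 1) := by positivity
  nlinarith

end Pool.Agent.T2h83.GT
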