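import Pool.Agent.T2h83.GT.Grid
import Pool.Agent.R460.GS.Fin

set_option autoImplicit false

/-! From the grid to all windows, and from the weighted numbers to the numbers of the pairs. -/

namespace Pool.Agent.T2h83.GT

open Finset
open Pool.Agent.R460.GS
open Pool.Agent.H373R2.T7
open Pool.Agent.W93.PG (wn cnt lam_sub wn_le cnt_le num1)
open Pool.Agent.H560R3.GB (sing)
open Pool.Agent.Y614.GJ.Core (ev_log)

/-- bounds for the number of the Goldbach pairs in all windows -/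
def WinT (W : ℕ) (lo hi : ℝ) (m : ℕ) : Prop :=
  ∀ y₁ y₂ : ℕ, y₁ < y₂ → y₂ ≤ m → (m : ℝ) / Real.log m ^ W ≤ (y₂ : ℝ) - y₁ →
    lo * (sing m * ((y₂ : ℝ) - y₁) / Real.log m ^ 2) ≤ (cnt m y₁ y₂ : ℝ) ∧
    (cnt m y₁ y₂ : ℝ) ≤ hi * (sing m * ((y₂ : ℝ) - y₁) / Real.log m ^ 2)

lemma cnt_of (ε : ℝ) (hε : 0 < ε) (hε1 : ε ≤ 1 / 2) (A : ℕ) : ∃ X0 : ℕ, ∀ m : ℕ, X0 ≤ m →
    ∀ y₁ y₂ : ℕ, y₁ < y₂ → y₂ ≤ m → (m : ℝ) / Real.log m ^ A ≤ (y₂ : ℝ) - y₁ →
    ∀ lo hi : ℝ, hi ≤ 2 → 0 ≤ hi → (lo - ε / 8) * (sing m * ((y₂ : ℝ) - y₁)) ≤ wn m y₁ y₂ →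
      wn m y₁ y₂ ≤ (hi + ε / 8) * (sing m * ((y₂ : ℝ) - y₁)) →
      (lo - ε) * (sing m * ((y₂ : ℝ) - y₁) / Real.log m ^ 2) ≤ (cnt m y₁ y₂ : ℝ) ∧
      (cnt m y₁ y₂ : ℝ) ≤ (hi + ε) * (sing m * ((y₂ : ℝ) - y₁) / Real.log m ^ 2) := by
  obtain ⟨ε', hε'⟩ : ∃ ε', ε' = ε / 4 := ⟨_, rfl⟩
  have hε'0 : 0 < ε' := by linarith
  have hε'1 : ε' ≤ 1 / 2 := by linarith
  obtain ⟨n1, h1⟩ := ev_L' ((2 * (A + 3) / (ε' / 8)) ^ 2 + 24 / ε + 24)
  obtain ⟨n2, h2⟩ := ev_log' (A + 6) 1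
  refine ⟨n1 + n2 + 4, fun m hmn y₁ y₂ h12 hy2 hΔ lo hi hhi hhi0 hlow hupp => ?_⟩
  have hm1 : 1 ≤ m := by omega
  have hm4 : (4 : ℝ) ≤ m := by exact_mod_cast (by omega : 4 ≤ m)
  have hm0 : (0 : ℝ) < m := by linarith
  have b1 := h1 m (by omega)
  have b2 := h2 m (by omega)
  rw [one_mul] at b2
  obtain ⟨M, hM⟩ : ∃ M, M = Real.log (m : ℝ) := ⟨_, rfl⟩
  obtain ⟨S, hS⟩ : ∃ S, S = sing m := ⟨_, rfl⟩
  obtain ⟨Δ, hΔd⟩ : ∃ Δ, Δ = (y₂ : ℝ) - y₁ := ⟨_, rfl⟩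
  have hcl := wn_le m y₁ y₂ hy2 hm1
  rw [← hM] at b1 b2 hΔ hcl ⊢
  rw [← hΔd] at hΔ hlow hupp ⊢
  have hS1 : 1 ≤ S := by rw [hS]; exact one_le_sing m
  rw [← hS] at hlow hupp ⊢
  have hp1 : 0 < (2 * ((A : ℝ) + 3) / (ε' / 8)) ^ 2 := by positivity
  have hp2 : 0 < 24 / ε := by positivity
  have hM24 : 24 ≤ M := by linarith
  have hM1 : 1 ≤ M := by linarith
  have hM0 : 0 < M := by linarith
  have hMε : 24 ≤ M * ε := by
    have : 24 / ε ≤ M := by linarith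
    rwa [div_le_iff₀ hε] at this
  have hmm : √(m : ℝ) * √(m : ℝ) = m := Real.mul_self_sqrt hm0.le
  have hsm0 : 0 < √(m : ℝ) := Real.sqrt_pos.2 hm0
  have hΔ0 : 0 < Δ := lt_of_lt_of_le (by positivity) hΔ
  have hmΔ : (m : ℝ) ≤ Δ * M ^ A := by rwa [div_le_iff₀ (by positivity)] at hΔ
  have hΔM : M ^ 6 * √m ≤ Δ := by
    have h5 : M ^ 6 * √(m : ℝ) * M ^ A ≤ Δ * M ^ A := by
      refine le_trans ?_ hmΔ
      calc M ^ 6 * √(m : ℝ) * M ^ A = √(m : ℝ) * M ^ (A + 6) := by rw [pow_add]; ring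
        _ ≤ √(m : ℝ) * √(m : ℝ) := mul_le_mul_of_nonneg_left b2 hsm0.le
        _ = m := hmm
    exact le_of_mul_le_mul_right h5 (by positivity)
  have hSΔ : 0 < S * Δ := mul_pos (by linarith) hΔ0
  have e5 : 1 / M ≤ ε / 24 := by
    rw [div_le_iff₀ hM0]
    linarith
  have e6 : S * Δ / M ≤ S * Δ * (ε / 24) := by
    rw [div_eq_mul_one_div]
    exact mul_le_mul_of_nonneg_left e5 hSΔ.le
  constructor
  · -- lower bound
    have c1 : 4 * √(m : ℝ) * M ^ 2 ≤ S * Δ / M := by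
      rw [le_div_iff₀ hM0]
      calc 4 * √(m : ℝ) * M ^ 2 * M = 4 * M ^ 3 * √m := by ring
        _ ≤ M * M ^ 3 * √m := by gcongr; linarith
        _ = M ^ 4 * √m := by ring
        _ ≤ M ^ 6 * √m := by
            apply mul_le_mul_of_nonneg_right _ hsm0.le
            exact pow_le_pow_right₀ hM1 (by norm_num)
        _ ≤ Δ := hΔM
        _ ≤ S * Δ := le_mul_of_one_le_left hΔ0.le hS1
    have hSε : 0 ≤ S * Δ * ε := by positivity
    have c2 : (lo - ε) * (S * Δ) ≤ cnt m y₁ y₂ * M ^ 2 := by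
      have d0 : (lo - ε) * (S * Δ) = (lo - ε / 8) * (S * Δ) - 7 / 8 * (S * Δ * ε) := by ring
      rw [d0]
      linarith
    have c4 : (lo - ε) * (S * Δ / M ^ 2) = (lo - ε) * (S * Δ) / M ^ 2 := by ring
    rw [c4, div_le_iff₀ (by positivity)]
    exact c2
  · -- upper bound
    obtain ⟨y, hy⟩ : ∃ y, y = ⌈(m : ℝ) / M ^ (A + 3)⌉₊ := ⟨_, rfl⟩
    have hq : √(m : ℝ) ≤ (m : ℝ) / M ^ (A + 3) := by
      rw [le_div_iff₀ (by positivity)]
      calc √(m : ℝ) * M ^ (A + 3) ≤ √(m : ℝ) * M ^ (A + 6) :=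
            mul_le_mul_of_nonneg_left (pow_le_pow_right₀ hM1 (by omega)) hsm0.le
        _ ≤ √(m : ℝ) * √(m : ℝ) := mul_le_mul_of_nonneg_left b2 hsm0.le
        _ = m := hmm
    have hsm2 : 2 ≤ √(m : ℝ) := by
      apply Real.le_sqrt_of_sq_le
      linarith
    have hy1 : (m : ℝ) / M ^ (A + 3) ≤ y := by rw [hy]; exact Nat.le_ceil _
    have hy2' : (y : ℝ) ≤ (m : ℝ) / M ^ (A + 3) + 1 := by rw [hy]; exact (Nat.ceil_lt_add_one (by positivity)).le
    have hy2n : 2 ≤ y := by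
      have : (2 : ℝ) ≤ y := by linarith
      exact_mod_cast this
    have c0 := cnt_le m y₁ y₂ y hy2 hy2n
    have c1 : 2 * (y : ℝ) + 1 ≤ 4 * (S * Δ / M ^ 3) := by
      have d1 : (m : ℝ) / M ^ (A + 3) ≤ Δ / M ^ 3 := by
        rw [div_le_div_iff₀ (by positivity) (by positivity)]
        calc (m : ℝ) * M ^ 3 ≤ (Δ * M ^ A) * M ^ 3 := mul_le_mul_of_nonneg_right hmΔ (by positivity)
          _ = Δ * M ^ (A + 3) := by rw [pow_add]; ring
      have d2 : Δ / M ^ 3 ≤ S * Δ / M ^ 3 := by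
        apply div_le_div_of_nonneg_right _ (by positivity)
        exact le_mul_of_one_le_left hΔ0.le hS1
      have d3 : 2 ≤ Δ / M ^ 3 := by linarith
      linarith
    -- the logarithm of `y`
    have hlogy : (1 - ε' / 8) * M ≤ Real.log y := by
      have d1 : Real.log ((m : ℝ) / M ^ (A + 3)) ≤ Real.log y := Real.log_le_log (by positivity) hy1
      rw [Real.log_div hm0.ne' (by positivity), Real.log_pow, ← hM] at d1
      have d2 : Real.log M ≤ 2 * √M := by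
        have d3 := Real.log_le_sub_one_of_pos (Real.sqrt_pos.2 hM0)
        rw [Real.log_sqrt hM0.le] at d3
        linarith [Real.sqrt_nonneg M]
      have d4 : 2 * ((A : ℝ) + 3) / (ε' / 8) ≤ √M := by
        apply Real.le_sqrt_of_sq_le
        linarith
      have d5 : 2 * ((A : ℝ) + 3) ≤ √M * (ε' / 8) := by rwa [div_le_iff₀ (by positivity)] at d4
      have d6 : √M * √M = M := Real.mul_self_sqrt hM0.le
      have d7 : ((A + 3 : ℕ) : ℝ) * Real.log M ≤ ε' / 8 * M := by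
        push_cast
        calc ((A : ℝ) + 3) * Real.log M ≤ ((A : ℝ) + 3) * (2 * √M) := mul_le_mul_of_nonneg_left d2 (by positivity)
          _ = (2 * ((A : ℝ) + 3)) * √M := by ring
          _ ≤ (√M * (ε' / 8)) * √M := mul_le_mul_of_nonneg_right d5 (Real.sqrt_nonneg _)
          _ = ε' / 8 * (√M * √M) := by ring
          _ = ε' / 8 * M := by rw [d6]
      linarith
    have hεM : 0 < (1 - ε' / 8) * M := mul_pos (by linarith) hM0
    have hly0 : 0 < Real.log y := lt_of_lt_of_le hεM hlogy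
    have hX : 0 ≤ (hi + ε / 8) * (S * Δ) := by positivity
    have c2 : wn m y₁ y₂ / Real.log y ^ 2 ≤ (hi + ε / 8) * (1 + ε' / 2) * (S * Δ) / M ^ 2 := by
      have d2 : ((1 - ε' / 8) * M) ^ 2 ≤ Real.log y ^ 2 := pow_le_pow_left₀ hεM.le hlogy 2
      have d3 := (num1 ε' hε'0 hε'1).1
      rw [div_le_div_iff₀ (by positivity) (by positivity)]
      calc wn m y₁ y₂ * M ^ 2 ≤ ((hi + ε / 8) * (S * Δ)) * M ^ 2 := mul_le_mul_of_nonneg_right hupp (by positivity)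
        _ ≤ ((hi + ε / 8) * (S * Δ)) * (((1 + ε' / 2) * (1 - ε' / 8) ^ 2) * M ^ 2) := by
            apply mul_le_mul_of_nonneg_left _ hX
            exact le_mul_of_one_le_left (sq_nonneg M) d3
        _ = (hi + ε / 8) * (1 + ε' / 2) * (S * Δ) * ((1 - ε' / 8) * M) ^ 2 := by ring
        _ ≤ (hi + ε / 8) * (1 + ε' / 2) * (S * Δ) * Real.log y ^ 2 := mul_le_mul_of_nonneg_left d2 (by positivity)
    have c3 : 4 * (S * Δ / M ^ 3) ≤ ε / 6 * (S * Δ / M ^ 2) := by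
      have : S * Δ / M ^ 3 = S * Δ / M ^ 2 * (1 / M) := by rw [pow_succ M 2]; field_simp
      rw [this]
      have d1 : 0 ≤ S * Δ / M ^ 2 := by positivity
      have d2 := mul_le_mul_of_nonneg_left e5 d1
      linarith
    have c4 : (hi + ε / 8) * (1 + ε' / 2) * (S * Δ) / M ^ 2 = (hi + ε / 8) * (1 + ε' / 2) * (S * Δ / M ^ 2) := by ring
    rw [c4] at c2
    have c6 : 0 ≤ S * Δ / M ^ 2 := by positivity
    have c7 : (hi + ε / 8) * (1 + ε' / 2) + ε / 6 ≤ hi + ε := by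
      rw [hε']
      nlinarith
    have c5 := mul_le_mul_of_nonneg_right c7 c6
    linarith

/-- the trivial bound for a short window -/
lemma wn_triv {N n a b : ℕ} (hab : a ≤ b) (hb : b ≤ n) (hn : n ≤ N) :
    wn n a b ≤ ((b : ℝ) - a) * Real.log N ^ 2 := by
  have h1 : wn n a b ≤ ∑ _x ∈ Ioc a b, Real.log N ^ 2 := by
    unfold wn
    refine sum_le_sum fun x hx => ?_
    rw [mem_Ioc] at hx
    rw [lam_sub n x (by omega)]
    have h2 : ArithmeticFunction.vonMangoldt x ≤ Real.log N := vm_le (mem_Icc.2 ⟨by omega, by omega⟩)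
    have h3 : ArithmeticFunction.vonMangoldt (n - x) ≤ Real.log N := by
      rcases Nat.eq_zero_or_pos (n - x) with h | h
      · rw [h]
        simp only [ArithmeticFunction.map_zero]
        exact Real.log_natCast_nonneg N
      · exact vm_le (mem_Icc.2 ⟨h, by omega⟩)
    rw [sq]
    exact mul_le_mul h2 h3 ArithmeticFunction.vonMangoldt_nonneg (Real.log_natCast_nonneg N)
  rw [sum_const, Nat.card_Ioc, nsmul_eq_mul, Nat.cast_sub hab] at h1
  exact h1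

lemma wn_split (n : ℕ) {a b c : ℕ} (h1 : a ≤ b) (h2 : b ≤ c) : wn n a c = wn n a b + wn n b c := by
  unfold wn
  rw [← sum_Ioc_consecutive _ h1 h2]

/-- from the grid to all windows -/
lemma windows_of_grid' (ε : ℝ) (hε : 0 < ε) (hε1 : ε ≤ 1 / 2) (A : ℕ) : ∃ N₀ : ℕ, ∀ N : ℕ, N₀ ≤ N →
    ∀ H : ℕ, 1 ≤ H → (H : ℝ) ≤ 2 * (N / Real.log N ^ (2 * A + 4)) → ∀ n : ℕ, n ≤ N →
    (N : ℝ) / Real.log N ^ (A + 1) ≤ n → sing n ≤ 2 * Real.log N → ∀ lo hi : ℝ, 0 ≤ lo → lo ≤ 1 → 0 ≤ hi → hi ≤ 2 →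
    (∀ i j : ℕ, i ≤ j → j * H < n →
      lo * (sing n * (((j * H : ℕ) : ℝ) - ((i * H : ℕ) : ℝ))) - N / Real.log N ^ (2 * A + 4) ≤
        wn n (i * H) (j * H) ∧
      wn n (i * H) (j * H) ≤ hi * (sing n * (((j * H : ℕ) : ℝ) - ((i * H : ℕ) : ℝ))) +
        N / Real.log N ^ (2 * A + 4)) → WinT A (lo - ε) (hi + ε) n := by
  obtain ⟨N₁, h1⟩ := Filter.eventually_atTop.1 (ev_log (3 * A + 10) (s := 1 / 4) (by norm_num) (10000 + 100 / ε))
  obtain ⟨X0, hX0⟩ := cnt_of ε hε hε1 A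
  refine ⟨N₁ + X0 ^ 2 + 2, fun N hN H hH1 hH n hn hnN hS2 lo hi hlo0 hlo1 hhi0 hhi1 hgrid y₁ y₂ h12 h2 hlen => ?_⟩
  have hN1 : 1 ≤ N := by omega
  have hN0 : (0 : ℝ) < N := by exact_mod_cast hN1
  obtain ⟨hL, hLp⟩ := h1 N (by omega)
  have hnX : X0 ≤ n := by
    obtain ⟨L, hLd⟩ : ∃ L, L = Real.log (N : ℝ) := ⟨_, rfl⟩
    rw [← hLd] at hL hLp hnN
    have h100 : 0 < 100 / ε := by positivity
    have hL0 : 0 < L := by linarith
    have hL1 : 1 ≤ L := by linarith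
    have e1 : (N : ℝ) ^ (1 / 2 : ℝ) ≤ n := by
      refine le_trans ?_ hnN
      rw [le_div_iff₀ (by positivity)]
      calc (N : ℝ) ^ (1 / 2 : ℝ) * L ^ (A + 1) ≤ (N : ℝ) ^ (1 / 2 : ℝ) * (N : ℝ) ^ (1 / 4 : ℝ) := by
            have : L ^ (A + 1) ≤ (N : ℝ) ^ (1 / 4 : ℝ) := (pow_le_pow_right₀ hL1 (by omega)).trans hLp
            gcongr
        _ = (N : ℝ) ^ (3 / 4 : ℝ) := by
            rw [← Real.rpow_add hN0]
            norm_num
        _ ≤ (N : ℝ) ^ (1 : ℝ) := Real.rpow_le_rpow_of_exponent_le (by exact_mod_cast hN1) (by norm_num)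
        _ = N := Real.rpow_one _
    rw [← Real.sqrt_eq_rpow] at e1
    have e2 : (X0 : ℝ) ≤ √(N : ℝ) := by
      apply Real.le_sqrt_of_sq_le
      exact_mod_cast (by omega : X0 ^ 2 ≤ N)
    exact_mod_cast e2.trans e1
  refine hX0 n hnX y₁ y₂ h12 h2 hlen lo hi hhi1 hhi0 ?_ ?_
  all_goals
    obtain ⟨L, hLd⟩ : ∃ L, L = Real.log (N : ℝ) := ⟨_, rfl⟩
    rw [← hLd] at hL hLp hH hnN hS2 hgrid
    have h100 : 0 < 100 / ε := by positivity
    have hL0 : 0 < L := by linarith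
    have hL1 : 1 ≤ L := by linarith
    have hLε : 100 ≤ L * ε := by
      have : 100 / ε ≤ L := by linarith
      rwa [div_le_iff₀ hε] at this
    have hn0 : (0 : ℝ) < n := lt_of_lt_of_le (by positivity) hnN
    have hn1 : 1 ≤ n := by exact_mod_cast hn0
    have hnr : (n : ℝ) ≤ N := by exact_mod_cast hn
    have hlogn : Real.log n ≤ L := by
      rw [hLd]
      exact Real.log_le_log hn0 hnr
    have hlogn0 : 0 ≤ Real.log n := Real.log_natCast_nonneg n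
    have hlogn1 : 0 < Real.log n := by
      rcases hlogn0.lt_or_eq with h | h
      · exact h
      · exfalso
        have e1 : (N : ℝ) ^ (3 / 4 : ℝ) ≤ n := by
          refine le_trans ?_ hnN
          rw [le_div_iff₀ (by positivity)]
          calc (N : ℝ) ^ (3 / 4 : ℝ) * L ^ (A + 1) ≤ (N : ℝ) ^ (3 / 4 : ℝ) * (N : ℝ) ^ (1 / 4 : ℝ) := by
                have : L ^ (A + 1) ≤ (N : ℝ) ^ (1 / 4 : ℝ) := (pow_le_pow_right₀ hL1 (by omega)).trans hLp
                gcongr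
            _ = N := by
                rw [← Real.rpow_add hN0]
                norm_num
        have e2 : 3 / 4 * L ≤ Real.log n := by
          rw [hLd, ← Real.log_rpow hN0]
          exact Real.log_le_log (by positivity) e1
        linarith
    obtain ⟨Δ, hΔ⟩ : ∃ Δ : ℝ, Δ = (y₂ : ℝ) - y₁ := ⟨_, rfl⟩
    obtain ⟨S, hSd⟩ : ∃ S : ℝ, S = sing n := ⟨_, rfl⟩
    have hS1 : 1 ≤ S := by rw [hSd]; exact one_le_sing n
    rw [← hΔ] at hlen ⊢
    rw [← hSd] at hS2 hgrid ⊢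
    have hΔ1 : (n : ℝ) / L ^ A ≤ Δ := by
      refine le_trans ?_ hlen
      apply div_le_div_of_nonneg_left hn0.le (by positivity)
      exact pow_le_pow_left₀ hlogn0 hlogn A
    have hΔ2 : (N : ℝ) / L ^ (2 * A + 1) ≤ Δ := by
      refine le_trans ?_ hΔ1
      rw [show 2 * A + 1 = (A + 1) + A by ring, pow_add, ← div_div]
      exact div_le_div_of_nonneg_right hnN (by positivity)
    have hΔ0 : 0 < Δ := lt_of_lt_of_le (by positivity) hΔ2
    have hV : (N : ℝ) / L ^ (2 * A + 4) ≤ Δ / L ^ 3 := by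
      rw [show 2 * A + 4 = (2 * A + 1) + 3 by ring, pow_add, ← div_div]
      exact div_le_div_of_nonneg_right hΔ2 (by positivity)
    have hH3 : (H : ℝ) ≤ 2 * (Δ / L ^ 3) := by linarith
    have hH0 : (1 : ℝ) ≤ H := by exact_mod_cast hH1
    have hSH : S * H ≤ 4 * (Δ / L ^ 2) := by
      calc S * H ≤ (2 * L) * (2 * (Δ / L ^ 3)) := by gcongr
        _ = 4 * (Δ / L ^ 2) := by
            field_simp
            ring
    have hL23 : Δ / L ^ 3 ≤ Δ / L := by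
      apply div_le_div_of_nonneg_left hΔ0.le hL0
      calc L = L ^ 1 := (pow_one L).symm
        _ ≤ L ^ 3 := pow_le_pow_right₀ hL1 (by norm_num)
    have hL22 : Δ / L ^ 2 ≤ Δ / L := by
      apply div_le_div_of_nonneg_left hΔ0.le hL0
      calc L = L ^ 1 := (pow_one L).symm
        _ ≤ L ^ 2 := pow_le_pow_right₀ hL1 (by norm_num)
    have hΔL : Δ / L ≤ ε / 100 * Δ := by
      rw [div_le_iff₀ hL0]
      nlinarith
    have hL10 : Δ / L ^ 2 ≤ Δ / L / 10 := by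
      rw [div_div]
      apply div_le_div_of_nonneg_left hΔ0.le (by positivity)
      nlinarith
    have hSΔ : Δ ≤ S * Δ := by nlinarith
    have hεΔ : ε * Δ ≤ ε * (S * Δ) := mul_le_mul_of_nonneg_left hSΔ hε.le
  · -- the lower bound
    obtain ⟨i, hi'⟩ : ∃ i, i = (y₁ + H - 1) / H := ⟨_, rfl⟩
    obtain ⟨j, hj⟩ : ∃ j, j = (y₂ - 1) / H := ⟨_, rfl⟩
    have hi1 : y₁ ≤ i * H := by
      have h3 := Nat.lt_div_mul_add (a := y₁ + H - 1) (b := H) (by omega)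
      rw [← hi'] at h3
      omega
    have hi2 : i * H ≤ y₁ + H := by
      have h3 := Nat.div_mul_le_self (y₁ + H - 1) H
      rw [← hi'] at h3
      omega
    have hj1 : j * H ≤ y₂ - 1 := by
      rw [hj]
      exact Nat.div_mul_le_self _ _
    have hj2 : y₂ ≤ j * H + H := by
      have h3 := Nat.lt_div_mul_add (a := y₂ - 1) (b := H) (by omega)
      rw [← hj] at h3
      omega
    have hi2r : ((i * H : ℕ) : ℝ) ≤ y₁ + H := by exact_mod_cast hi2
    have hj2r : (y₂ : ℝ) ≤ ((j * H : ℕ) : ℝ) + H := by exact_mod_cast hj2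
    have hε2 : ε / 100 * Δ ≤ Δ / 100 := by
      have : ε * Δ ≤ 1 * Δ := mul_le_mul_of_nonneg_right (by linarith) hΔ0.le
      linarith
    have hij : i ≤ j := by
      by_contra hcon
      have h3 : j * H ≤ i * H := Nat.mul_le_mul_right _ (by omega)
      have h4 : ((j * H : ℕ) : ℝ) ≤ ((i * H : ℕ) : ℝ) := by exact_mod_cast h3
      linarith
    have h3 := (hgrid i j hij (by omega)).1
    have h4 := wn_nn_mono n hi1 (show j * H ≤ y₂ by omega)
    have hgap : Δ - 2 * H ≤ ((j * H : ℕ) : ℝ) - ((i * H : ℕ) : ℝ) := by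
      rw [hΔ]
      linarith
    have h6 : lo * (S * (Δ - 2 * H)) ≤ lo * (S * (((j * H : ℕ) : ℝ) - ((i * H : ℕ) : ℝ))) := by
      gcongr
    have h7 : lo * (S * (Δ - 2 * H)) = lo * (S * Δ) - 2 * (lo * (S * H)) := by ring
    have h8 : lo * (S * H) ≤ S * H := mul_le_of_le_one_left (by positivity) hlo1
    rw [h7] at h6
    have h9 : (lo - ε / 8) * (S * Δ) = lo * (S * Δ) - ε / 8 * (S * Δ) := by ring
    rw [h9]
    have h10 : ε / 8 * (S * Δ) = ε * (S * Δ) / 8 := by ring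
    rw [h10]
    have h11 : ε / 100 * Δ = ε * Δ / 100 := by ring
    rw [h11] at hΔL
    linarith
  · -- the upper bound
    obtain ⟨i, hi'⟩ : ∃ i, i = y₁ / H := ⟨_, rfl⟩
    obtain ⟨j, hj⟩ : ∃ j, j = (y₂ - 1) / H := ⟨_, rfl⟩
    have hi1 : i * H ≤ y₁ := by
      rw [hi']
      exact Nat.div_mul_le_self _ _
    have hi2 : y₁ ≤ i * H + H := by
      have h3 := Nat.lt_div_mul_add (a := y₁) (b := H) (by omega)
      rw [← hi'] at h3
      omega
    have hj1 : j * H ≤ y₂ - 1 := by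
      rw [hj]
      exact Nat.div_mul_le_self _ _
    have hj2 : y₂ ≤ j * H + H := by
      have h3 := Nat.lt_div_mul_add (a := y₂ - 1) (b := H) (by omega)
      rw [← hj] at h3
      omega
    have hij : i ≤ j := by
      rw [hi', hj]
      exact Nat.div_le_div_right (by omega)
    have hijH : i * H ≤ j * H := Nat.mul_le_mul_right _ hij
    have h3 := (hgrid i j hij (by omega)).2
    have h4 := wn_nn_mono n hi1 (show y₂ ≤ y₂ by omega)
    rw [wn_split n hijH (by omega)] at h4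
    have h5 := wn_triv (N := N) (n := n) (a := j * H) (b := y₂) (by omega) h2 hn
    rw [← hLd] at h5
    have hi2r : (y₁ : ℝ) ≤ ((i * H : ℕ) : ℝ) + H := by exact_mod_cast hi2
    have hj2r : (y₂ : ℝ) ≤ ((j * H : ℕ) : ℝ) + H := by exact_mod_cast hj2
    have hj1r : ((j * H : ℕ) : ℝ) ≤ y₂ := by exact_mod_cast (by omega : j * H ≤ y₂)
    have hgap : ((j * H : ℕ) : ℝ) - ((i * H : ℕ) : ℝ) ≤ Δ + H := by
      rw [hΔ]
      linarith
    have h6 : hi * (S * (((j * H : ℕ) : ℝ) - ((i * H : ℕ) : ℝ))) ≤ hi * (S * (Δ + H)) := by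
      gcongr
    have h7 : hi * (S * (Δ + H)) = hi * (S * Δ) + hi * (S * H) := by ring
    have h8 : hi * (S * H) ≤ 2 * (S * H) := mul_le_mul_of_nonneg_right hhi1 (by positivity)
    have h12 : ((y₂ : ℝ) - ((j * H : ℕ) : ℝ)) * L ^ 2 ≤ 2 * (Δ / L) := by
      calc ((y₂ : ℝ) - ((j * H : ℕ) : ℝ)) * L ^ 2 ≤ (2 * (Δ / L ^ 3)) * L ^ 2 := by
            apply mul_le_mul_of_nonneg_right _ (by positivity)
            linarith
        _ = 2 * (Δ / L) := by field_simp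
    rw [h7] at h6
    have h9 : (hi + ε / 8) * (S * Δ) = hi * (S * Δ) + ε * (S * Δ) / 8 := by ring
    rw [h9]
    have h11 : ε / 100 * Δ = ε * Δ / 100 := by ring
    rw [h11] at hΔL
    linarith

end Pool.Agent.T2h83.GT
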