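import Pool.Agent.T2h83.GT.Low

set_option autoImplicit false

/-! The number of the pairs in a window between two points of the grid. -/

namespace Pool.Agent.T2h83.GT

open Finset
open Pool.Agent.R460.GS
open Pool.Agent.H807R2.Dav (ee)
open Pool.Agent.H373R2.T7 (lamz Vz pz lamI lamzI Vz_pos)
open Pool.Agent.Y883.T3 (lsh)
open Pool.Agent.Y883.GJ
open Pool.Agent.W93.PG (wn cnt lam_sub lamz_le lamz_nn win_main)
open Pool.Agent.H560R3.GB (sing)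
open Pool.Agent.Y614.GJ.Core (ev_log)

/-- `g` is a majorant of the von Mangoldt function with a density between `1` and `1 + δ` -/
structure Mjt (δ : ℝ) (g W : ℕ → ℕ → ℝ) : Prop where
  nn : ∀ N n : ℕ, 0 ≤ g N n
  few : ∀ V : ℕ, ∃ N₀ : ℕ, ∀ N : ℕ, N₀ ≤ N → ∑ b ∈ Icc 1 N, bd (g N) b ≤ N / Real.log N ^ V
  dens : ∀ B : ℕ, ∃ N₀ : ℕ, ∀ N : ℕ, N₀ ≤ N → ∀ n : ℕ, n ≤ N → (N : ℝ) / Real.log N ^ B ≤ n →
    1 ≤ W N n ∧ W N n ≤ 1 + δ

/-- the error terms at `y` are small -/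
def SmallT (g W : ℕ → ℝ) (N z r n y V : ℕ) : Prop :=
  ‖cv LA (fC g W z r) y N n‖ ≤ N / Real.log N ^ V ∧ ‖cv LA (fC g W z r) N y n‖ ≤ N / Real.log N ^ V ∧
  ‖cv (gC g) (fC g W z r) N y n‖ ≤ N / Real.log N ^ V ∧ ‖cv (hC W z r) (fC g W z r) y N n‖ ≤ N / Real.log N ^ V

/-- the bounds between two points of the grid -/
lemma grid_two {δ : ℝ} (hδ0 : 0 ≤ δ) (hδ1 : δ ≤ 1) {g W : ℕ → ℕ → ℝ}
    (hwb : ∃ (c : ℝ) (N₀ : ℕ), ∀ N : ℕ, N₀ ≤ N → WB (W N) c N ∧ ∀ n ∈ Icc 1 N, |g N n| ≤ c * Real.log N)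
    (hM : Mjt δ g W) (V E1 : ℕ) (hE1 : V + 8 ≤ E1) : ∃ N₀ : ℕ, ∀ N : ℕ, N₀ ≤ N →
    ∀ z r : ℕ, Real.log N ^ E1 ≤ z → (z : ℝ) ≤ Real.log N ^ (E1 + 1) → Par (2 * V + 26) N z r →
    ∑ n ∈ Icc 1 N, |lamz z n - lsh z r n| ≤ N / Real.log N ^ (2 * V + 26) →
    ∀ n : ℕ, n ≤ N → 2 ∣ n → n ≠ 0 → ∀ y₁ y₂ : ℕ, y₁ ≤ y₂ → y₂ < n → SmallT (g N) (W N) N z r n y₁ (V + 2) →
      SmallT (g N) (W N) N z r n y₂ (V + 2) →
      (1 - δ ^ 2) * (sing n * ((y₂ : ℝ) - y₁)) - N / Real.log N ^ V ≤ wn n y₁ y₂ ∧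
      wn n y₁ y₂ ≤ (1 + δ) * (sing n * ((y₂ : ℝ) - y₁)) + N / Real.log N ^ V ∧ sing n ≤ 2 * Real.log N := by
  obtain ⟨c, Nw, hWB⟩ := hwb
  obtain ⟨Nd, hd⟩ := hM.dens (V + 4)
  obtain ⟨Nf, hf⟩ := hM.few (V + 5)
  obtain ⟨X0, hX0⟩ := win_main' (V + 2) E1 (by omega)
  obtain ⟨Ne, hNe⟩ := Filter.eventually_atTop.1 (ev_log (V + 6) (s := 7 / 10) (by norm_num)
    (100 * (1 + |c| + c ^ 2)))
  refine ⟨Nw + Nd + Nf + X0 + Ne + 1, fun N hN z r hz1 hz2 hP hsum n hn h2n hn0 y₁ y₂ h12 h2 hs1 hs2 => ?_⟩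
  have hN1 : 1 ≤ N := by omega
  have hN0 : (0 : ℝ) < N := by exact_mod_cast hN1
  obtain ⟨hLe, hLp⟩ := hNe N (by omega)
  obtain ⟨hW, hgb⟩ := hWB N (by omega)
  have hc := hW.nn
  rw [abs_of_nonneg hc] at hLe
  have hc2 : 0 ≤ c ^ 2 := sq_nonneg c
  have hL100 : 100 ≤ Real.log N := aux2 hc hLe
  obtain ⟨hwin, hS0, hS2⟩ := hX0 N (by omega) n hn h2n hn0 z hz1 hz2
  have hx2 := x_sq (V := V + 3) hP (by linarith) (by
    rw [show 2 * (V + 3) + 20 = 2 * V + 26 by ring]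
    exact hsum)
  have hgn : ∀ n ∈ Icc 1 N, 0 ≤ g N n ∧ g N n ≤ c * Real.log N := fun n hn =>
    ⟨hM.nn N n, (le_abs_self _).trans (hgb n hn)⟩
  have k1 := wn_lower (y₁ := y₁) h2 hn hc hgn (hf N (by omega))
  have k1' := wn_upper (y₁ := y₁) h2 hn (fun n hn => (hgn n hn).1) (hf N (by omega))
  have k2 := swap_model (y₁ := y₁) hW hP h2 hn hsum hx2
  have k2' := swap_one (y₁ := y₁) hW h2 hn hsum
  have k3 := det_main (la := la) (lz := lamz z) (S := sing n) hW hn h12 h2 (fun y hy => (hwin y hy).1)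
    (fun y hy => (hwin y hy).2)
  have k3' := det_one (lz := lamz z) (S := sing n) hW hn h12 h2 (fun y hy => (hwin y hy).1)
  have hX : (0 : ℝ) ≤ N / Real.log N ^ (V + 4) := by positivity
  have k4 := dens_lower' (X := N / Real.log N ^ (V + 4)) hW hn h12 h2 hX hδ0 hδ1
    (fun b hb hb' => hd N (by omega) b hb hb')
  have k4' := dens_upper' (X := N / Real.log N ^ (V + 4)) hW hn h12 h2 hX hδ0
    (fun b hb hb' => hd N (by omega) b hb hb')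
  have e1 := err_window (z := z) (r := r) (g N) (W N) (lt_of_le_of_lt h12 h2) hn
  have e2 := err_window (z := z) (r := r) (g N) (W N) h2 hn
  have e1' := err_window1 (z := z) (r := r) (g N) (W N) (lt_of_le_of_lt h12 h2) hn
  have e2' := err_window1 (z := z) (r := r) (g N) (W N) h2 hn
  obtain ⟨s11, s12, s13, s14⟩ := hs1
  obtain ⟨s21, s22, s23, s24⟩ := hs2
  have hsplit : ∑ b ∈ Ioc y₁ y₂, (la b * g N (n - b) + g N b * la (n - b) - g N b * g N (n - b)) =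
      ∑ b ∈ Ioc y₁ y₂, (la b * hT (W N) z r (n - b) + hT (W N) z r b * la (n - b) -
        hT (W N) z r b * hT (W N) z r (n - b)) +
      (∑ b ∈ Icc 1 y₂, (la b * fT (g N) (W N) z r (n - b) + fT (g N) (W N) z r b * la (n - b) -
        fT (g N) (W N) z r b * g N (n - b) - hT (W N) z r b * fT (g N) (W N) z r (n - b)) -
      ∑ b ∈ Icc 1 y₁, (la b * fT (g N) (W N) z r (n - b) + fT (g N) (W N) z r b * la (n - b) -
        fT (g N) (W N) z r b * g N (n - b) - hT (W N) z r b * fT (g N) (W N) z r (n - b))) := by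
    rw [← sum_window _ h12, ← sum_add_distrib]
    refine sum_congr rfl fun b _ => ?_
    unfold fT
    ring
  have hsplit' : ∑ b ∈ Ioc y₁ y₂, la b * g N (n - b) = ∑ b ∈ Ioc y₁ y₂, la b * hT (W N) z r (n - b) +
      (∑ b ∈ Icc 1 y₂, la b * fT (g N) (W N) z r (n - b) - ∑ b ∈ Icc 1 y₁, la b * fT (g N) (W N) z r (n - b)) := by
    rw [← sum_window _ h12, ← sum_add_distrib]
    refine sum_congr rfl fun b _ => ?_
    unfold fT
    ring
  rw [hsplit] at k1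
  rw [hsplit'] at k1'
  obtain ⟨L, hLd⟩ : ∃ L, L = Real.log (N : ℝ) := ⟨_, rfl⟩
  obtain ⟨S, hSd⟩ : ∃ S, S = sing n := ⟨_, rfl⟩
  rw [← hLd] at s11 s12 s13 s14 s21 s22 s23 s24 hLe hLp hL100 k1 k1' k2 k2' k3 k3' k4 k4' hS2 hX ⊢
  rw [← hSd] at k3 k3' hS0 hS2 ⊢
  have hL0 : 0 < L := by linarith
  have hL1 : 1 ≤ L := by linarith
  obtain ⟨D, hD⟩ : ∃ D : ℝ, D = N / L ^ (V + 1) := ⟨_, rfl⟩
  have hD0 : 0 < D := by rw [hD]; positivity
  -- sizes of the error terms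
  have hmono : ∀ j : ℕ, (N : ℝ) / L ^ (V + 1 + j) = D / L ^ j := by
    intro j
    rw [hD, pow_add, div_div]
  have z1 : (N : ℝ) / L ^ (V + 2) = D / L := by
    have := hmono 1
    rwa [pow_one] at this
  have z3 : (N : ℝ) / L ^ (V + 3) = D / L ^ 2 := hmono 2
  have z4 : (N : ℝ) / L ^ (V + 4) = D / L ^ 3 := hmono 3
  have z6 : (N : ℝ) / L ^ (V + 5) = D / L ^ 4 := hmono 4
  have z5 : (N : ℝ) / L ^ (2 * V + 26) ≤ D / L ^ 3 := by
    rw [← z4]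
    exact div_le_div_of_nonneg_left hN0.le (by positivity) (pow_le_pow_right₀ hL1 (by omega))
  have z0 : (N : ℝ) / L ^ V = L * D := by
    rw [hD, pow_succ]
    field_simp
  have hinv : D / L ≤ D / 100 := div_le_div_of_nonneg_left hD0.le (by norm_num) hL100
  have hinv2 : D / L ^ 2 ≤ D / L := by
    apply div_le_div_of_nonneg_left hD0.le hL0
    calc L = L ^ 1 := (pow_one L).symm
      _ ≤ L ^ 2 := pow_le_pow_right₀ hL1 (by norm_num)
  have hinv3 : D / L ^ 3 ≤ D / L := by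
    apply div_le_div_of_nonneg_left hD0.le hL0
    calc L = L ^ 1 := (pow_one L).symm
      _ ≤ L ^ 3 := pow_le_pow_right₀ hL1 (by norm_num)
  have hDL : 0 ≤ D / L := by positivity
  obtain ⟨hcD1, hcD2, -⟩ := aux1 hc hD0 hL0 hLe
  -- (a) the exceptions of the majorant
  have ea0 : L ^ 2 * (N / L ^ (V + 5)) = D / L ^ 2 := by
    rw [z6]
    field_simp
  have ea : 4 * c * L ^ 2 * (N / L ^ (V + 5)) ≤ D := by
    calc 4 * c * L ^ 2 * (N / L ^ (V + 5)) = 4 * (c * (D / L ^ 2)) := by rw [← ea0]; ring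
      _ ≤ 4 * (c * (D / L)) := by gcongr
      _ ≤ D := by linarith only [hcD1, hD0]
  have ea' : L ^ 2 * (N / L ^ (V + 5)) ≤ D := by
    rw [ea0]
    linarith only [hinv, hinv2, hD0]
  -- (c) the swap of the models
  have g1 : L * (D / L ^ 3) = D / L ^ 2 := by field_simp
  have ec : 2 * ((c + c ^ 2) * L * (N / L ^ (2 * V + 26))) + 2 * (c ^ 2 * (N / L ^ (V + 3))) ≤ D := by
    have g2 : (c + c ^ 2) * L * (N / L ^ (2 * V + 26)) ≤ (c + c ^ 2) * (D / L) := by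
      calc (c + c ^ 2) * L * (N / L ^ (2 * V + 26)) ≤ (c + c ^ 2) * L * (D / L ^ 3) := by gcongr
        _ = (c + c ^ 2) * (D / L ^ 2) := by rw [mul_assoc, g1]
        _ ≤ _ := by gcongr
    have g3 : c ^ 2 * (N / L ^ (V + 3)) ≤ c ^ 2 * (D / L) := by
      rw [z3]
      gcongr
    have g4 : (c + c ^ 2) * (D / L) = c * (D / L) + c ^ 2 * (D / L) := by ring
    rw [g4] at g2
    linarith only [g2, g3, hcD1, hcD2, hD0]
  have ec' : c * L * (N / L ^ (2 * V + 26)) ≤ D := by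
    calc c * L * (N / L ^ (2 * V + 26)) ≤ c * L * (D / L ^ 3) := by gcongr
      _ = c * (D / L ^ 2) := by rw [mul_assoc, g1]
      _ ≤ c * (D / L) := by gcongr
      _ ≤ D := by linarith only [hcD1, hD0]
  -- (d) the main term
  have ed : (12 * c + 6 * c ^ 2) * (2 * (N / L ^ (V + 2 + 2))) ≤ D := by
    rw [show V + 2 + 2 = V + 4 by ring, z4]
    have g2 : (12 * c + 6 * c ^ 2) * (2 * (D / L ^ 3)) ≤ (12 * c + 6 * c ^ 2) * (2 * (D / L)) := by gcongr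
    have g4 : (12 * c + 6 * c ^ 2) * (2 * (D / L)) = 24 * (c * (D / L)) + 12 * (c ^ 2 * (D / L)) := by ring
    rw [g4] at g2
    linarith only [g2, hcD1, hcD2, hD0]
  have ed' : 4 * c * (2 * (N / L ^ (V + 2 + 2))) ≤ D := by
    rw [show V + 2 + 2 = V + 4 by ring, z4]
    calc 4 * c * (2 * (D / L ^ 3)) = 8 * (c * (D / L ^ 3)) := by ring
      _ ≤ 8 * (c * (D / L)) := by gcongr
      _ ≤ D := by linarith only [hcD1, hD0]
  -- (e) the density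
  have eone : 1 ≤ (N : ℝ) / L ^ (V + 4) := by
    rw [le_div_iff₀ (by positivity), one_mul]
    calc L ^ (V + 4) ≤ L ^ (V + 6) := pow_le_pow_right₀ hL1 (by omega)
      _ ≤ (N : ℝ) ^ (7 / 10 : ℝ) := hLp
      _ ≤ (N : ℝ) ^ (1 : ℝ) := Real.rpow_le_rpow_of_exponent_le (by exact_mod_cast hN1) (by norm_num)
      _ = N := Real.rpow_one _
  have ee1 : S * ((c ^ 2 + 1) * (2 * (N / L ^ (V + 4)) + 2)) ≤ D := by
    have g1 : 2 * (N / L ^ (V + 4)) + 2 ≤ 4 * (N / L ^ (V + 4)) := by linarith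
    calc S * ((c ^ 2 + 1) * (2 * (N / L ^ (V + 4)) + 2)) ≤ (2 * L) * ((c ^ 2 + 1) * (4 * (N / L ^ (V + 4)))) := by
          gcongr
      _ = 8 * (c ^ 2 + 1) * (D / L ^ 2) := by
          rw [z4]
          field_simp
          ring
      _ ≤ 8 * (c ^ 2 + 1) * (D / L) := by gcongr
      _ = 8 * (c ^ 2 * (D / L)) + 8 * (D / L) := by ring
      _ ≤ D := by linarith only [hcD2, hinv, hD0]
  have ee1' : S * (c * (N / L ^ (V + 4) + 1)) ≤ D := by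
    have g1 : N / L ^ (V + 4) + 1 ≤ 2 * (N / L ^ (V + 4)) := by linarith
    calc S * (c * (N / L ^ (V + 4) + 1)) ≤ (2 * L) * (c * (2 * (N / L ^ (V + 4)))) := by
          gcongr
      _ = 4 * (c * (D / L ^ 2)) := by
          rw [z4]
          field_simp
          ring
      _ ≤ 4 * (c * (D / L)) := by gcongr
      _ ≤ D := by linarith only [hcD1, hinv, hD0]
  rw [z0]
  have m7 : 12 * D ≤ L * D := mul_le_mul_of_nonneg_right (by linarith only [hL100]) hD0.le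
  refine ⟨?_, ?_, hS2⟩
  · obtain ⟨M1, hM1⟩ : ∃ M1, M1 = ∑ b ∈ Ioc y₁ y₂, (la b * hT (W N) z r (n - b) + hT (W N) z r b * la (n - b) -
      hT (W N) z r b * hT (W N) z r (n - b)) := ⟨_, rfl⟩
    obtain ⟨M2, hM2⟩ : ∃ M2, M2 = ∑ b ∈ Ioc y₁ y₂, (la b * (W N (n - b) * lamz z (n - b)) +
      (W N b * lamz z b) * la (n - b) - (W N b * lamz z b) * (W N (n - b) * lamz z (n - b))) := ⟨_, rfl⟩
    obtain ⟨M3, hM3⟩ : ∃ M3, M3 = ∑ b ∈ Ioc y₁ y₂, (W N (n - b) + W N b - W N b * W N (n - b)) := ⟨_, rfl⟩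
    rw [← hM1] at k1
    rw [← hM1, ← hM2] at k2
    rw [← hM2, ← hM3] at k3
    rw [← hM3] at k4
    have m1 := (abs_le.1 k2).1
    have m2 := (abs_le.1 k3).1
    have m3 := (abs_le.1 e1).2
    have m4 := (abs_le.1 e2).1
    have m5 := mul_le_mul_of_nonneg_left k4 hS0
    have m6 : S * ((1 - δ ^ 2) * ((y₂ : ℝ) - y₁) - (c ^ 2 + 1) * (2 * (N / L ^ (V + 4)) + 2)) =
      (1 - δ ^ 2) * (S * ((y₂ : ℝ) - y₁)) - S * ((c ^ 2 + 1) * (2 * (N / L ^ (V + 4)) + 2)) := by ring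
    rw [m6] at m5
    linarith only [m7, m5, m4, m3, m2, m1, k1, ea, ec, ed, ee1, s11, s12, s13, s14, s21, s22, s23, s24, z1, hinv, hD0]
  · obtain ⟨M1, hM1⟩ : ∃ M1, M1 = ∑ b ∈ Ioc y₁ y₂, la b * hT (W N) z r (n - b) := ⟨_, rfl⟩
    obtain ⟨M2, hM2⟩ : ∃ M2, M2 = ∑ b ∈ Ioc y₁ y₂, la b * (W N (n - b) * lamz z (n - b)) := ⟨_, rfl⟩
    obtain ⟨M3, hM3⟩ : ∃ M3, M3 = ∑ b ∈ Ioc y₁ y₂, W N (n - b) := ⟨_, rfl⟩
    rw [← hM1] at k1'
    rw [← hM1, ← hM2] at k2'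
    rw [← hM2, ← hM3] at k3'
    rw [← hM3] at k4'
    have m1 := (abs_le.1 k2').2
    have m2 := (abs_le.1 k3').2
    have m3 := (abs_le.1 e1').1
    have m4 := (abs_le.1 e2').2
    have m5 := mul_le_mul_of_nonneg_left k4' hS0
    have m6 : S * ((1 + δ) * ((y₂ : ℝ) - y₁) + c * (N / L ^ (V + 4) + 1)) =
      (1 + δ) * (S * ((y₂ : ℝ) - y₁)) + S * (c * (N / L ^ (V + 4) + 1)) := by ring
    rw [m6] at m5
    linarith only [m7, m5, m4, m3, m2, m1, k1', ea', ec', ed', ee1', s11, s21, z1, hinv, hD0]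

end Pool.Agent.T2h83.GT
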