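import Pool.Agent.T2h83.GT.Wt
import Pool.Agent.T2h83.GT.Err

set_option autoImplicit false

/-! The sieve function `gt` is a well distributed majorant. -/

namespace Pool.Agent.T2h83.GT

open Finset
open Pool.Agent.R460.GS
open Pool.Agent.R460.GH
open Pool.Agent.Y883.GJ
open Pool.Agent.Y614.GJ.Core (ev_log)

lemma gZ_nn (Z P n : ℕ) : 0 ≤ gZ Z P n :=
  mul_nonneg (ro_nn Z n) (sum_nonneg fun _ _ => ArithmeticFunction.vonMangoldt_nonneg)

lemma gZ_le (Z P n : ℕ) : gZ Z P n ≤ Real.log n := by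
  unfold gZ
  have h1 : ∑ d ∈ n.divisors.filter (fun d => P < d), ArithmeticFunction.vonMangoldt d ≤ Real.log n := by
    rw [← ArithmeticFunction.vonMangoldt_sum (n := n)]
    exact sum_le_sum_of_subset_of_nonneg (filter_subset _ _) fun _ _ _ => ArithmeticFunction.vonMangoldt_nonneg
  have h2 : 0 ≤ ∑ d ∈ n.divisors.filter (fun d => P < d), ArithmeticFunction.vonMangoldt d :=
    sum_nonneg fun _ _ => ArithmeticFunction.vonMangoldt_nonneg
  calc _ ≤ 1 * ∑ d ∈ n.divisors.filter (fun d => P < d), ArithmeticFunction.vonMangoldt d :=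
        mul_le_mul_of_nonneg_right (ro_le1 Z n) h2
    _ ≤ _ := by rw [one_mul]; exact h1

lemma gt_nn (θ : ℝ) (N n : ℕ) : 0 ≤ gt θ N n := gZ_nn _ _ _

lemma gt_le {θ : ℝ} {N n : ℕ} (hn : n ∈ Icc 1 N) : gt θ N n ≤ Real.log N := by
  rw [mem_Icc] at hn
  exact (gZ_le _ _ _).trans (Real.log_le_log (by exact_mod_cast hn.1) (by exact_mod_cast hn.2))

lemma gZ_ro {Z P n : ℕ} (h : gZ Z P n ≠ 0) : ∀ p ∈ n.primeFactors, Z < p := by
  rw [← ro_iff]
  rcases ro_01 Z n with h1 | h1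
  · exfalso
    apply h
    unfold gZ
    rw [h1, zero_mul]
  · exact h1

lemma la_le_gZ {Z P n : ℕ} (hn : P < n) (hr : ro Z n = 1) : la n ≤ gZ Z P n := by
  unfold gZ la
  rw [hr, one_mul]
  exact single_le_sum (f := fun d => ArithmeticFunction.vonMangoldt d) (fun _ _ => ArithmeticFunction.vonMangoldt_nonneg)
    (mem_filter.2 ⟨Nat.mem_divisors_self n (by omega), hn⟩)

/-- the number of the exceptions of the majorant -/
lemma bd_gt {Z P N : ℕ} : ∑ b ∈ Icc 1 N, bd (gZ Z P) b ≤ (P : ℝ) + (Z : ℝ) * ((Nat.log 2 N + 1 : ℕ) : ℝ) := by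
  classical
  have e1 : ∑ b ∈ Icc 1 N, bd (gZ Z P) b = (((Icc 1 N).filter (fun b => gZ Z P b < la b)).card : ℝ) := by
    rw [card_eq_sum_ones, Nat.cast_sum, sum_filter]
    refine sum_congr rfl fun b _ => ?_
    unfold bd
    by_cases h : gZ Z P b < la b
    · rw [if_pos h, if_pos h, Nat.cast_one]
    · rw [if_neg h, if_neg h]
  rw [e1]
  have h1 : (Icc 1 N).filter (fun b => gZ Z P b < la b) ⊆
      Icc 1 P ∪ (Icc 1 Z ×ˢ range (Nat.log 2 N + 1)).image (fun x => x.1 ^ x.2) := by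
    intro b hb
    rw [mem_filter, mem_Icc] at hb
    obtain ⟨hb1, hb2⟩ := hb
    rw [mem_union, mem_Icc]
    rcases le_or_gt b P with h | h
    · exact Or.inl ⟨hb1.1, h⟩
    · right
      have h3 : ro Z b = 0 := by
        rcases ro_01 Z b with h4 | h4
        · exact h4
        · have := la_le_gZ h h4
          linarith
      have h5 : ArithmeticFunction.vonMangoldt b ≠ 0 := by
        intro h6
        have h7 : la b = 0 := h6
        rw [h7] at hb2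
        have := gZ_nn Z P b
        linarith
      obtain ⟨p, k, hp, hk, rfl⟩ := (isPrimePow_nat_iff _).1 (ArithmeticFunction.vonMangoldt_ne_zero_iff.1 h5)
      have h2 : ¬ ∀ p' ∈ (p ^ k).primeFactors, Z < p' := by
        intro h8
        rw [ro_iff.2 h8] at h3
        norm_num at h3
      rw [Nat.primeFactors_prime_pow hk.ne' hp] at h2
      have h9 : p ≤ Z := by
        by_contra h4
        apply h2
        intro p' hp'
        rw [mem_singleton] at hp'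
        omega
      rw [mem_image]
      refine ⟨(p, k), ?_, rfl⟩
      rw [mem_product, mem_Icc, mem_range, Nat.lt_succ_iff]
      refine ⟨⟨hp.one_le, h9⟩, ?_⟩
      apply Nat.le_log_of_pow_le (by norm_num)
      exact (Nat.pow_le_pow_left hp.two_le k).trans hb1.2
  have h2 := (card_le_card h1).trans ((card_union_le _ _).trans (Nat.add_le_add_left card_image_le _))
  rw [card_product, Nat.card_Icc, Nat.card_Icc, Nat.add_sub_cancel, Nat.add_sub_cancel, card_range] at h2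
  exact_mod_cast h2

theorem few_gt {θ : ℝ} (hθ0 : 1 / 2 ≤ θ) (hθ1 : θ < 1) (V : ℕ) : ∃ N₀ : ℕ, ∀ N : ℕ, N₀ ≤ N →
    ∑ b ∈ Icc 1 N, bd (gt θ N) b ≤ N / Real.log N ^ V := by
  obtain ⟨N₁, h1⟩ := Filter.eventually_atTop.1 (ev_log (V + 2) (s := 1 / 4) (by norm_num) 8)
  refine ⟨N₁ + 1, fun N hN => ?_⟩
  have hN1 : 1 ≤ N := by omega
  have hN0 : (0 : ℝ) < N := by exact_mod_cast hN1
  have hNr : (1 : ℝ) ≤ N := by exact_mod_cast hN1
  obtain ⟨hL8, hLp⟩ := h1 N (by omega)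
  have h2 := bd_gt (Z := Ze θ N) (P := Pe θ N) (N := N)
  have h3 : ∑ b ∈ Icc 1 N, bd (gt θ N) b = ∑ b ∈ Icc 1 N, bd (gZ (Ze θ N) (Pe θ N)) b := rfl
  rw [h3]
  refine h2.trans ?_
  have hlog2N : ((Nat.log 2 N + 1 : ℕ) : ℝ) ≤ 2 * Real.log N + 1 := by
    have := Pool.Agent.H373R2.T7.natlog_le N hN1
    push_cast
    linarith
  obtain ⟨L, hLd⟩ : ∃ L, L = Real.log (N : ℝ) := ⟨_, rfl⟩
  rw [← hLd] at hL8 hLp hlog2N ⊢
  have hL1 : 1 ≤ L := by linarith
  have hL0 : 0 < L := by linarith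
  have hZ : (Ze θ N : ℝ) ≤ (N : ℝ) ^ (3 / 4 : ℝ) :=
    Ze_real.trans (Real.rpow_le_rpow_of_exponent_le hNr (by linarith))
  have hP : (Pe θ N : ℝ) ≤ (N : ℝ) ^ (3 / 4 : ℝ) :=
    Pe_real.trans (Real.rpow_le_rpow_of_exponent_le hNr (by linarith))
  rw [le_div_iff₀ (by positivity)]
  calc ((Pe θ N : ℝ) + (Ze θ N : ℝ) * ((Nat.log 2 N + 1 : ℕ) : ℝ)) * L ^ V
      ≤ ((N : ℝ) ^ (3 / 4 : ℝ) + (N : ℝ) ^ (3 / 4 : ℝ) * (2 * L + 1)) * L ^ V := by gcongr
    _ = (N : ℝ) ^ (3 / 4 : ℝ) * ((2 * L + 2) * L ^ V) := by ring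
    _ ≤ (N : ℝ) ^ (3 / 4 : ℝ) * (L * L * L ^ V) := by
        have : 2 * L + 2 ≤ L * L := by nlinarith
        gcongr
    _ = (N : ℝ) ^ (3 / 4 : ℝ) * L ^ (V + 2) := by ring
    _ ≤ (N : ℝ) ^ (3 / 4 : ℝ) * (N : ℝ) ^ (1 / 4 : ℝ) := by gcongr
    _ = N := by
        rw [← Real.rpow_add hN0]
        norm_num

theorem nc_gt {θ : ℝ} (hθ1 : θ < 1) (U : ℕ) : ∃ N₀ : ℕ, ∀ N : ℕ, N₀ ≤ N → NcAt N U (gC (gt θ N)) := by
  classical
  obtain ⟨N₁, h1⟩ := Filter.eventually_atTop.1 (ev_log (U + 3) (s := 1 - θ) (by linarith) 2)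
  refine ⟨N₁ + 1, fun N hN' => ?_⟩
  have hN : 1 ≤ N := by omega
  obtain ⟨hL, hp⟩ := h1 N (by omega)
  intro q hq hqN
  have hN0 : (0 : ℝ) < N := by exact_mod_cast hN
  have hL0 : 0 < Real.log N := by linarith
  have hsub : (((Icc 1 N).filter (fun n => ¬ n.Coprime q)).filter (fun n => gt θ N n ≠ 0)) ⊆
      (q.primeFactors.filter (fun p => Ze θ N < p)).biUnion (fun p => (Icc 1 N).filter (fun n => p ∣ n)) := by
    intro n hn
    rw [mem_filter, mem_filter] at hn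
    obtain ⟨⟨h1, h2⟩, h3⟩ := hn
    obtain ⟨p, hp, hpn, hpq⟩ := Nat.Prime.not_coprime_iff_dvd.1 h2
    have hn0 : n ≠ 0 := by
      rw [mem_Icc] at h1
      omega
    have h4 : ∀ p ∈ n.primeFactors, Ze θ N < p := gZ_ro h3
    rw [mem_biUnion]
    refine ⟨p, ?_, ?_⟩
    · rw [mem_filter, Nat.mem_primeFactors]
      exact ⟨⟨hp, hpq, by omega⟩, h4 p (Nat.mem_primeFactors.2 ⟨hp, hpn, hn0⟩)⟩
    · rw [mem_filter]
      exact ⟨h1, hpn⟩
  have hcard : ((((Icc 1 N).filter (fun n => ¬ n.Coprime q)).filter (fun n => gt θ N n ≠ 0)).card : ℝ) ≤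
      2 * Real.log N * (N / (N : ℝ) ^ (1 - θ)) := by
    have h1 := (card_le_card hsub).trans card_biUnion_le
    have h2 : ((((Icc 1 N).filter (fun n => ¬ n.Coprime q)).filter (fun n => gt θ N n ≠ 0)).card : ℝ) ≤
        ∑ p ∈ q.primeFactors.filter (fun p => Ze θ N < p), (((Icc 1 N).filter (fun n => p ∣ n)).card : ℝ) := by
      exact_mod_cast h1
    refine h2.trans ?_
    have h3 : ∀ p ∈ q.primeFactors.filter (fun p => Ze θ N < p),
        (((Icc 1 N).filter (fun n => p ∣ n)).card : ℝ) ≤ N / (N : ℝ) ^ (1 - θ) := by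
      intro p hp
      rw [mem_filter] at hp
      have h4 : ((Icc 1 N).filter (fun n => p ∣ n)).card = N / p := by
        have e1 : Icc 1 N = Ioc 0 N := by
          ext b
          simp only [mem_Icc, mem_Ioc]
          omega
        rw [e1]
        exact Nat.Ioc_filter_dvd_card_eq_div N p
      rw [h4]
      have h5 : (N : ℝ) ^ (1 - θ) ≤ p := (lt_floor hp.2).le
      calc ((N / p : ℕ) : ℝ) ≤ (N : ℝ) / p := Nat.cast_div_le
        _ ≤ N / (N : ℝ) ^ (1 - θ) := div_le_div_of_nonneg_left hN0.le (by positivity) h5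
    refine (sum_le_sum h3).trans ?_
    rw [sum_const, nsmul_eq_mul]
    apply mul_le_mul_of_nonneg_right _ (by positivity)
    refine le_trans ?_ (card_pf_le hq hqN)
    exact_mod_cast card_filter_le _ _
  calc ∑ n ∈ (Icc 1 N).filter (fun n => ¬ n.Coprime q), ‖gC (gt θ N) n‖
      = ∑ n ∈ ((Icc 1 N).filter (fun n => ¬ n.Coprime q)).filter (fun n => gt θ N n ≠ 0), gt θ N n := by
        rw [sum_filter_ne_zero]
        exact sum_congr rfl fun n _ => by rw [norm_gC, abs_of_nonneg (gt_nn θ N n)]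
    _ ≤ ∑ n ∈ ((Icc 1 N).filter (fun n => ¬ n.Coprime q)).filter (fun n => gt θ N n ≠ 0), Real.log N :=
        sum_le_sum fun n hn => by
          rw [mem_filter, mem_filter] at hn
          exact gt_le hn.1.1
    _ = ((((Icc 1 N).filter (fun n => ¬ n.Coprime q)).filter (fun n => gt θ N n ≠ 0)).card : ℝ) * Real.log N := by
        rw [sum_const, nsmul_eq_mul]
    _ ≤ (2 * Real.log N * (N / (N : ℝ) ^ (1 - θ))) * Real.log N := by gcongr
    _ ≤ N / Real.log N ^ U := by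
        obtain ⟨L, hLd⟩ : ∃ L, L = Real.log (N : ℝ) := ⟨_, rfl⟩
        rw [← hLd] at hL hL0 hp ⊢
        rw [le_div_iff₀ (by positivity)]
        have h6 : 0 < (N : ℝ) ^ (1 - θ) := by positivity
        calc 2 * L * (N / (N : ℝ) ^ (1 - θ)) * L * L ^ U = N * ((2 * L ^ (U + 2)) / (N : ℝ) ^ (1 - θ)) := by
              rw [pow_add]
              ring
          _ ≤ N * 1 := by
              have : (2 * L ^ (U + 2)) / (N : ℝ) ^ (1 - θ) ≤ 1 := by
                rw [div_le_one h6]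
                refine le_trans ?_ hp
                calc 2 * L ^ (U + 2) ≤ L * L ^ (U + 2) := by gcongr
                  _ = L ^ (U + 3) := by ring
              gcongr
          _ = N := mul_one _

/-- the density is at least `1` -/
theorem dens_one {θ : ℝ} (hθ0 : 1 / 2 ≤ θ) (B : ℕ) : ∃ N₀ : ℕ, ∀ N : ℕ, N₀ ≤ N → ∀ n : ℕ, n ≤ N →
    (N : ℝ) / Real.log N ^ B ≤ n → 1 ≤ Wg θ N n := by
  obtain ⟨N₁, h1⟩ := Filter.eventually_atTop.1 (ev_log (B + 1) (s := 1 / 4) (by norm_num) 2)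
  refine ⟨N₁ + 1, fun N hN n hn hnN => ?_⟩
  have hN1 : 1 ≤ N := by omega
  have hN0 : (0 : ℝ) < N := by exact_mod_cast hN1
  have hNr : (1 : ℝ) ≤ N := by exact_mod_cast hN1
  obtain ⟨hL2, hLp⟩ := h1 N (by omega)
  obtain ⟨L, hLd⟩ : ∃ L, L = Real.log (N : ℝ) := ⟨_, rfl⟩
  rw [← hLd] at hL2 hLp hnN
  have hL0 : 0 < L := by linarith
  have hP : (Pe θ N : ℝ) ≤ (N : ℝ) ^ (3 / 4 : ℝ) :=
    Pe_real.trans (Real.rpow_le_rpow_of_exponent_le hNr (by linarith))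
  have h3 : (N : ℝ) ^ (3 / 4 : ℝ) < N / L ^ B := by
    rw [lt_div_iff₀ (by positivity)]
    have h4 : L ^ B < (N : ℝ) ^ (1 / 4 : ℝ) := by
      refine lt_of_lt_of_le ?_ hLp
      rw [pow_succ]
      have : 0 < L ^ B := by positivity
      nlinarith
    calc (N : ℝ) ^ (3 / 4 : ℝ) * L ^ B < (N : ℝ) ^ (3 / 4 : ℝ) * (N : ℝ) ^ (1 / 4 : ℝ) := by
          apply mul_lt_mul_of_pos_left h4 (by positivity)
      _ = N := by
          rw [← Real.rpow_add hN0]
          norm_num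
  have h5 : Pe θ N < n := by
    have : (Pe θ N : ℝ) < n := by linarith
    exact_mod_cast this
  unfold Wg WZ
  have h6 : (1 : ℕ) ∈ (Icc 1 N).filter (fun m => (∀ p ∈ m.primeFactors, Ze θ N < p) ∧ m * Pe θ N < n) := by
    rw [mem_filter, mem_Icc]
    refine ⟨⟨le_rfl, hN1⟩, ?_, by omega⟩
    intro p hp
    rw [Nat.primeFactors_one] at hp
    exact absurd hp (notMem_empty p)
  have h7 := single_le_sum (f := fun m : ℕ => 1 / (m : ℝ)) (fun _ _ => by positivity) h6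
  rw [Nat.cast_one, div_one] at h7
  exact h7

/-- `gt` is a well distributed majorant -/
theorem apx_gt {θ δ : ℝ} (hθ0 : 1 / 2 ≤ θ) (hθ1 : θ < 1) (hδ : 0 ≤ δ)
    (hup : ∃ N₀ : ℕ, ∀ N : ℕ, N₀ ≤ N → Wg θ N N ≤ 1 + δ) (h1 : L2Stm) (hB : BilMaj3Stm) (hB' : BilMinStm) :
    Apx θ (gt θ) (Wg θ) ∧ Mjt δ (gt θ) (Wg θ) := by
  obtain ⟨N₀, hN₀⟩ := hup
  constructor
  · refine ⟨⟨1 + δ, N₀, fun N hN => ⟨wb_mono (WZ_wb _ _ _) (hN₀ N hN), fun n hn => ?_⟩⟩, ?_, ?_,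
      nc_gt hθ1, apG hθ0 hθ1⟩
    · rw [abs_of_nonneg (gt_nn θ N n)]
      have h2 := gt_le (θ := θ) hn
      have h3 : 0 ≤ Real.log N := Real.log_natCast_nonneg N
      nlinarith
    · intro A C t ht
      obtain ⟨C₃, N₁, h⟩ := majG h1 hB A C hθ0 hθ1 ht
      exact ⟨C₃, N₁, fun N hN => h N hN⟩
    · intro A t ht
      obtain ⟨C, N₁, h⟩ := minG h1 hB' A hθ0 hθ1 ht
      exact ⟨C, N₁, fun N hN => h N hN⟩
  · refine ⟨gt_nn θ, few_gt hθ0 hθ1, fun B => ?_⟩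
    obtain ⟨N₁, h2⟩ := dens_one hθ0 B
    refine ⟨N₀ + N₁, fun N hN n hn hnN => ⟨h2 N (by omega) n hn hnN, ?_⟩⟩
    exact (WZ_mono _ _ _ hn).trans (hN₀ N (by omega))

end Pool.Agent.T2h83.GT
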