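import Pool.Agent.R460.GS.Low
import Pool.Agent.T2h83.GT.Mod

set_option autoImplicit false

/-! Properties of the difference of a function `g` and of a model with the density `W`. -/

namespace Pool.Agent.T2h83.GT

open Finset
open Pool.Agent.R460.GS
open Pool.Agent.H807R2.Dav (ee)
open Pool.Agent.H373R2.T7 (lamz Vz pz lamz_ap)
open Pool.Agent.Y883.T3 (lsh)
open Pool.Agent.Y883.GJ

/-- complex values -/
noncomputable def gC (g : ℕ → ℝ) (n : ℕ) : ℂ := ((g n : ℝ) : ℂ)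

/-- the weighted sieve model -/
noncomputable def hC (W : ℕ → ℝ) (z r n : ℕ) : ℂ := ((W n * lsh z r n : ℝ) : ℂ)

/-- the difference -/
noncomputable def fC (g W : ℕ → ℝ) (z r n : ℕ) : ℂ := gC g n - hC W z r n

lemma norm_gC (g : ℕ → ℝ) (n : ℕ) : ‖gC g n‖ = |g n| := by
  unfold gC
  rw [Complex.norm_real, Real.norm_eq_abs]

lemma bd_gC {N : ℕ} {g : ℕ → ℝ} {c : ℝ} (hg : ∀ n ∈ Icc 1 N, |g n| ≤ c * Real.log N) (hL0 : 0 ≤ Real.log N)
    (hL : c ≤ Real.log N) : BdAt N (gC g) := by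
  intro n hn
  have h1 := one_le_div hn
  have h2 := hg n hn
  rw [norm_gC]
  calc |g n| ≤ c * Real.log N := h2
    _ ≤ Real.log N * Real.log N := mul_le_mul_of_nonneg_right hL hL0
    _ = Real.log N ^ 2 * 1 := by ring
    _ ≤ Real.log N ^ 2 * (n.divisors.card : ℝ) := mul_le_mul_of_nonneg_left h1 (sq_nonneg _)

lemma norm_hC {N z r n : ℕ} {W : ℕ → ℝ} {c : ℝ} (hW : WB W c N) (hn : n ∈ Icc 1 N) :
    ‖hC W z r n‖ ≤ c * |lsh z r n| := by
  unfold hC
  rw [Complex.norm_real, Real.norm_eq_abs, abs_mul, abs_of_nonneg (hW.h0 n)]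
  exact mul_le_mul_of_nonneg_right (hW.h1 n (mem_Icc.1 hn).2) (abs_nonneg _)

lemma bd_hC' {U N z r : ℕ} {W : ℕ → ℝ} {c : ℝ} (hW : WB W c N) (hP : Par U N z r) {n : ℕ} (hn : n ∈ Icc 1 N) :
    ‖hC W z r n‖ ≤ 3 * c * Real.log N * (n.divisors.card : ℝ) := by
  refine (norm_hC hW hn).trans ?_
  have := lsh_abs hP hn
  calc c * |lsh z r n| ≤ c * (3 * Real.log N * (n.divisors.card : ℝ)) := mul_le_mul_of_nonneg_left this hW.nn
    _ = _ := by ring

lemma bd_hC {U N z r : ℕ} {W : ℕ → ℝ} {c : ℝ} (hW : WB W c N) (hP : Par U N z r) (hL : 1 + 3 * c ≤ Real.log N) :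
    BdAt N (hC W z r) := by
  intro n hn
  refine (bd_hC' hW hP hn).trans ?_
  have h1 := one_le_div hn
  have hc := hW.nn
  have h2 : 3 * c * Real.log N ≤ Real.log N ^ 2 := by nlinarith
  exact mul_le_mul_of_nonneg_right h2 (by positivity)

lemma bd_fC {U N z r : ℕ} {g W : ℕ → ℝ} {c : ℝ} (hg : ∀ n ∈ Icc 1 N, |g n| ≤ c * Real.log N) (hW : WB W c N)
    (hP : Par U N z r) (hL : 1 + 4 * c ≤ Real.log N) : BdAt N (fC g W z r) := by
  intro n hn
  have h1 := one_le_div hn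
  have hc := hW.nn
  unfold fC
  refine (norm_sub_le _ _).trans ?_
  have h2 := bd_hC' hW hP hn
  have h3 := hg n hn
  rw [norm_gC]
  have hL0 : 0 ≤ Real.log N := by linarith
  have h4 : c * Real.log N * 1 ≤ c * Real.log N * (n.divisors.card : ℝ) :=
    mul_le_mul_of_nonneg_left h1 (mul_nonneg hc hL0)
  have h5 : (c + 3 * c) * Real.log N ≤ Real.log N ^ 2 := by nlinarith
  have h6 := mul_le_mul_of_nonneg_right h5 (by positivity : (0 : ℝ) ≤ (n.divisors.card : ℝ))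
  have h7 : (c + 3 * c) * Real.log N * (n.divisors.card : ℝ) =
    c * Real.log N * (n.divisors.card : ℝ) + 3 * c * Real.log N * (n.divisors.card : ℝ) := by ring
  linarith

lemma nc_hC {U N z r : ℕ} {W : ℕ → ℝ} {c : ℝ} (hW : WB W c N) (hP : Par (U + 1) N z r)
    (hL : 1 + 3 * c ≤ Real.log N) : NcAt N U (hC W z r) := by
  intro q hq hqN
  have hc := hW.nn
  have hL0 : 0 < Real.log N := by linarith
  have h1 := hP.hC q hq hqN
  have h2 := hP.hL q hq hqN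
  have h3 : ∀ n ∈ (Icc 1 N).filter (fun n => ¬ n.Coprime q), ‖hC W z r n‖ ≤
      c * (|ArithmeticFunction.vonMangoldt n - lsh z r n| + ArithmeticFunction.vonMangoldt n) := by
    intro n hn
    rw [mem_filter] at hn
    refine (norm_hC hW hn.1).trans (mul_le_mul_of_nonneg_left ?_ hc)
    have h5 : lsh z r n = ArithmeticFunction.vonMangoldt n -
      (ArithmeticFunction.vonMangoldt n - lsh z r n) := by ring
    have h4 : 0 ≤ ArithmeticFunction.vonMangoldt n := ArithmeticFunction.vonMangoldt_nonneg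
    calc |lsh z r n| = |ArithmeticFunction.vonMangoldt n - (ArithmeticFunction.vonMangoldt n - lsh z r n)| := by
          rw [← h5]
      _ ≤ |ArithmeticFunction.vonMangoldt n| + |ArithmeticFunction.vonMangoldt n - lsh z r n| := abs_sub _ _
      _ = _ := by rw [abs_of_nonneg h4]; ring
  refine (sum_le_sum h3).trans ?_
  rw [← mul_sum, sum_add_distrib]
  have hX : 0 ≤ (N : ℝ) / Real.log N ^ (U + 1) := by positivity
  calc c * (∑ n ∈ (Icc 1 N).filter (fun n => ¬ n.Coprime q), |ArithmeticFunction.vonMangoldt n - lsh z r n| +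
        ∑ n ∈ (Icc 1 N).filter (fun n => ¬ n.Coprime q), ArithmeticFunction.vonMangoldt n)
      ≤ c * (N / Real.log N ^ (U + 1) + N / Real.log N ^ (U + 1)) :=
        mul_le_mul_of_nonneg_left (add_le_add h1 h2) hc
    _ = (2 * c) * (N / Real.log N ^ (U + 1)) := by ring
    _ ≤ Real.log N * (N / Real.log N ^ (U + 1)) := mul_le_mul_of_nonneg_right (by linarith) hX
    _ = _ := by
        rw [pow_succ]
        field_simp

lemma nc_fC {U N z r : ℕ} {g W : ℕ → ℝ} {c : ℝ} (hg : NcAt N (U + 1) (gC g)) (hW : WB W c N)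
    (hP : Par (U + 2) N z r) (hL : 2 + 3 * c ≤ Real.log N) : NcAt N U (fC g W z r) := by
  intro q hq hqN
  have hc := hW.nn
  have hL0 : 0 < Real.log N := by linarith
  have h1 := hg q hq hqN
  have h2 := nc_hC (U := U + 1) hW hP (by linarith) q hq hqN
  have hX : 0 ≤ (N : ℝ) / Real.log N ^ (U + 1) := by positivity
  calc ∑ n ∈ (Icc 1 N).filter (fun n => ¬ n.Coprime q), ‖fC g W z r n‖
      ≤ ∑ n ∈ (Icc 1 N).filter (fun n => ¬ n.Coprime q), (‖gC g n‖ + ‖hC W z r n‖) :=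
        sum_le_sum fun n _ => norm_sub_le _ _
    _ ≤ N / Real.log N ^ (U + 1) + N / Real.log N ^ (U + 1) := by
        rw [sum_add_distrib]
        exact add_le_add h1 h2
    _ = 2 * (N / Real.log N ^ (U + 1)) := by ring
    _ ≤ Real.log N * (N / Real.log N ^ (U + 1)) := mul_le_mul_of_nonneg_right (by linarith) hX
    _ = _ := by
        rw [pow_succ]
        field_simp

/-- the weighted model in progressions -/
lemma ap_hC {N z r₀ r c y : ℕ} {W : ℕ → ℝ} {ct X : ℝ} (hW : WB W ct N) (hy : y ≤ N)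
    (h1 : ∀ y ≤ N, |∑ n ∈ (Icc 1 y).filter (fun n => n ≡ c [MOD r]), lamz z n -
      (if c.Coprime r then (y : ℝ) / (Nat.totient r : ℝ) else 0)| ≤ X)
    (h2 : ∑ n ∈ Icc 1 N, |lamz z n - lsh z r₀ n| ≤ X) :
    |∑ n ∈ (Icc 1 y).filter (fun n => n ≡ c [MOD r]), W n * lsh z r₀ n -
      (if c.Coprime r then (∑ n ∈ Icc 1 y, W n) / (Nat.totient r : ℝ) else 0)| ≤ (2 * X) * (ct + ct) := by
  classical
  obtain ⟨κ, hκ⟩ : ∃ κ : ℝ, κ = if c.Coprime r then 1 / (Nat.totient r : ℝ) else 0 := ⟨_, rfl⟩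
  obtain ⟨x, hx⟩ : ∃ x : ℕ → ℝ, x = fun n => (if n ≡ c [MOD r] then lsh z r₀ n else 0) - κ := ⟨_, rfl⟩
  have hpart : ∀ m ≤ y, |∑ i ∈ Icc 1 m, x i| ≤ 2 * X := by
    intro m hm
    have e1 : ∑ i ∈ Icc 1 m, x i = (∑ n ∈ (Icc 1 m).filter (fun n => n ≡ c [MOD r]), lamz z n -
        (if c.Coprime r then (m : ℝ) / (Nat.totient r : ℝ) else 0)) -
        ∑ n ∈ (Icc 1 m).filter (fun n => n ≡ c [MOD r]), (lamz z n - lsh z r₀ n) := by
      rw [hx, sum_sub_distrib, ← sum_filter, sum_const, Nat.card_Icc, Nat.add_sub_cancel, nsmul_eq_mul,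
        sum_sub_distrib, hκ]
      split_ifs
      · ring
      · ring
    rw [e1]
    refine (abs_sub _ _).trans ?_
    have k1 := h1 m (hm.trans hy)
    have k2 : |∑ n ∈ (Icc 1 m).filter (fun n => n ≡ c [MOD r]), (lamz z n - lsh z r₀ n)| ≤ X := by
      refine (abs_sum_le_sum_abs _ _).trans (le_trans ?_ h2)
      refine sum_le_sum_of_subset_of_nonneg (fun n hn => ?_) fun _ _ _ => abs_nonneg _
      rw [mem_filter] at hn
      exact Icc_subset_Icc le_rfl (hm.trans hy) hn.1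
    linarith
  have h3 := abelR x W (2 * X) ct ct y hpart
    (fun i hi => by
      rw [abs_of_nonneg (hW.h0 i)]
      exact hW.h1 i ((mem_Icc.1 hi).2.trans hy)) (hW.tv hy) hW.nn
  have e2 : ∑ i ∈ Icc 1 y, W i * x i =
      ∑ n ∈ (Icc 1 y).filter (fun n => n ≡ c [MOD r]), W n * lsh z r₀ n -
      (if c.Coprime r then (∑ n ∈ Icc 1 y, W n) / (Nat.totient r : ℝ) else 0) := by
    have e3 : ∀ i ∈ Icc 1 y, W i * x i = (if i ≡ c [MOD r] then W i * lsh z r₀ i else 0) - W i * κ := by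
      intro i _
      rw [hx]
      simp only
      split_ifs
      · ring
      · ring
    rw [sum_congr rfl e3, sum_sub_distrib, ← sum_filter, ← sum_mul, hκ]
    congr 1
    split_ifs
    · ring
    · ring
  rw [← e2]
  exact h3

/-- `g` in progressions with a small difference -/
def ApgAt (N K U : ℕ) (g W : ℕ → ℝ) : Prop :=
  ∀ r : ℕ, 1 ≤ r → (r : ℝ) ≤ Real.log N ^ K → ∀ c y : ℕ, y ≤ N →
    |∑ n ∈ (Icc 1 y).filter (fun n => n ≡ c [MOD r]), g n -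
      (if c.Coprime r then (∑ n ∈ Icc 1 y, W n) / (Nat.totient r : ℝ) else 0)| ≤ N / Real.log N ^ U

lemma ap_fC {N K U z r₀ : ℕ} {g W : ℕ → ℝ} {ct : ℝ} (hW : WB W ct N) (hL : 2 + 4 * ct ≤ Real.log N)
    (hlam : ∀ q : ℕ, 1 ≤ q → (q : ℝ) ≤ Real.log N ^ K → ∀ c y : ℕ, y ≤ N →
      |∑ n ∈ (Icc 1 y).filter (fun n => n ≡ c [MOD q]), lamz z n -
        (if c.Coprime q then (y : ℝ) / (Nat.totient q : ℝ) else 0)| ≤ N / Real.log N ^ (U + 2))
    (hsum : ∑ n ∈ Icc 1 N, |lamz z n - lsh z r₀ n| ≤ N / Real.log N ^ (U + 2))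
    (hap : ApgAt N K (U + 2) g W) :
    ApAt N K U (fC g W z r₀) := by
  intro r hr1 hrK c y hy
  have hc := hW.nn
  have hL0 : 0 < Real.log N := by linarith
  have h1 := ap_hC (r₀ := r₀) (c := c) hW hy (fun y hy => hlam r hr1 hrK c y hy) hsum
  have h2 := hap r hr1 hrK c y hy
  have e1 : ∑ n ∈ (Icc 1 y).filter (fun n => n ≡ c [MOD r]), fC g W z r₀ n =
      ((∑ n ∈ (Icc 1 y).filter (fun n => n ≡ c [MOD r]), g n -
      ∑ n ∈ (Icc 1 y).filter (fun n => n ≡ c [MOD r]), W n * lsh z r₀ n : ℝ) : ℂ) := by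
    rw [← sum_sub_distrib]
    push_cast
    refine sum_congr rfl fun n _ => ?_
    unfold fC gC hC
    push_cast
    ring
  rw [e1, Complex.norm_real, Real.norm_eq_abs]
  obtain ⟨M, hM⟩ : ∃ M : ℝ, M = (if c.Coprime r then (∑ n ∈ Icc 1 y, W n) / (Nat.totient r : ℝ) else 0) :=
    ⟨_, rfl⟩
  rw [← hM] at h1 h2
  have e2 : ∑ n ∈ (Icc 1 y).filter (fun n => n ≡ c [MOD r]), g n -
      ∑ n ∈ (Icc 1 y).filter (fun n => n ≡ c [MOD r]), W n * lsh z r₀ n =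
      (∑ n ∈ (Icc 1 y).filter (fun n => n ≡ c [MOD r]), g n - M) -
      (∑ n ∈ (Icc 1 y).filter (fun n => n ≡ c [MOD r]), W n * lsh z r₀ n - M) := by ring
  rw [e2]
  refine (abs_sub _ _).trans ?_
  have hX : 0 ≤ (N : ℝ) / Real.log N ^ (U + 2) := by positivity
  calc _ ≤ N / Real.log N ^ (U + 2) + 2 * (N / Real.log N ^ (U + 2)) * (ct + ct) := add_le_add h2 h1
    _ = (1 + 4 * ct) * (N / Real.log N ^ (U + 2)) := by ring
    _ ≤ Real.log N ^ 2 * (N / Real.log N ^ (U + 2)) := by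
        apply mul_le_mul_of_nonneg_right _ hX
        nlinarith
    _ = _ := by
        rw [pow_add]
        field_simp

/-- the weighted model on the major arcs -/
lemma maj_hC {N A C z r : ℕ} {ρ : ℝ} {W : ℕ → ℝ} {c : ℝ} (hW : WB W c N) (hL : 1 + 2 * c ≤ Real.log N)
    (hH : ∀ (q : ℕ) [NeZero q], (q : ℝ) ≤ (N : ℝ) ^ (7 / 10 - ρ) →
      ∀ η : ℝ, |η| ≤ Real.log N ^ C / N → ∀ y : ℕ, y ≤ N →
      ∀ S : Finset (DirichletCharacter ℂ q), 1 ∉ S →
        ∑ χ ∈ S, ‖cs q y (fun n => ((lsh z r n : ℝ) : ℂ)) η χ‖ ^ 2 ≤ (N : ℝ) ^ 2 / Real.log N ^ (A + 2)) :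
    ∀ (q : ℕ) [NeZero q], (q : ℝ) ≤ (N : ℝ) ^ (7 / 10 - ρ) →
      ∀ η : ℝ, |η| ≤ Real.log N ^ C / N → ∀ y : ℕ, y ≤ N →
      ∀ S : Finset (DirichletCharacter ℂ q), 1 ∉ S →
        ∑ χ ∈ S, ‖cs q y (hC W z r) η χ‖ ^ 2 ≤ (N : ℝ) ^ 2 / Real.log N ^ A := by
  intro q _ hq η hη y hy S hS
  have hc := hW.nn
  have hL0 : 0 < Real.log N := by linarith
  have hX : 0 ≤ Real.sqrt ((N : ℝ) ^ 2 / Real.log N ^ (A + 2)) := Real.sqrt_nonneg _
  have hX2 : Real.sqrt ((N : ℝ) ^ 2 / Real.log N ^ (A + 2)) ^ 2 = (N : ℝ) ^ 2 / Real.log N ^ (A + 2) :=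
    Real.sq_sqrt (by positivity)
  have h1 := wt_cs (N := N) S (fun n => ((lsh z r n : ℝ) : ℂ)) W η hX hc
    (fun n hn => by rw [abs_of_nonneg (hW.h0 n)]; exact hW.h1 n hn) hW.h2
    (fun y' hy' => by rw [hX2]; exact hH q hq η hη y' hy' S hS) y hy
  have e1 : hC W z r = fun n => ((W n : ℝ) : ℂ) * ((lsh z r n : ℝ) : ℂ) := by
    funext n
    unfold hC
    push_cast
    ring
  rw [e1]
  refine h1.trans ?_
  rw [mul_pow, hX2]
  calc (N : ℝ) ^ 2 / Real.log N ^ (A + 2) * (c + c) ^ 2 ≤ (N : ℝ) ^ 2 / Real.log N ^ (A + 2) * Real.log N ^ 2 := by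
        apply mul_le_mul_of_nonneg_left _ (by positivity)
        exact pow_le_pow_left₀ (by linarith) (by linarith) 2
    _ = _ := by
        rw [pow_add]
        field_simp

/-- the weighted model on the minor arcs -/
lemma min_hC {N A C z r : ℕ} {ρ : ℝ} {W : ℕ → ℝ} {c : ℝ} (hW : WB W c N) (hL : 1 + 2 * c ≤ Real.log N)
    (hH : MinAt N ρ (A + 2) C (fun n => ((lsh z r n : ℝ) : ℂ))) : MinAt N ρ A C (hC W z r) := by
  intro q _ hq k h β k1 k2 k3 k4 y hy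
  have hc := hW.nn
  have hL0 : 0 < Real.log N := by linarith
  have hX : 0 ≤ Real.sqrt ((N : ℝ) ^ 2 / Real.log N ^ (A + 2)) := Real.sqrt_nonneg _
  have hX2 : Real.sqrt ((N : ℝ) ^ 2 / Real.log N ^ (A + 2)) ^ 2 = (N : ℝ) ^ 2 / Real.log N ^ (A + 2) :=
    Real.sq_sqrt (by positivity)
  have h1 := wt_cs (N := N) (univ : Finset (DirichletCharacter ℂ q)) (fun n => ((lsh z r n : ℝ) : ℂ)) W β hX hc
    (fun n hn => by rw [abs_of_nonneg (hW.h0 n)]; exact hW.h1 n hn) hW.h2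
    (fun y' hy' => by rw [hX2]; exact hH q hq k h β k1 k2 k3 k4 y' hy') y hy
  have e1 : hC W z r = fun n => ((W n : ℝ) : ℂ) * ((lsh z r n : ℝ) : ℂ) := by
    funext n
    unfold hC
    push_cast
    ring
  rw [e1]
  refine h1.trans ?_
  rw [mul_pow, hX2]
  calc (N : ℝ) ^ 2 / Real.log N ^ (A + 2) * (c + c) ^ 2 ≤ (N : ℝ) ^ 2 / Real.log N ^ (A + 2) * Real.log N ^ 2 := by
        apply mul_le_mul_of_nonneg_left _ (by positivity)
        exact pow_le_pow_left₀ (by linarith) (by linarith) 2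
    _ = _ := by
        rw [pow_add]
        field_simp

lemma maj_fC {N A C C₃ z r : ℕ} {ρ : ℝ} {g W : ℕ → ℝ} (hL : 2 ≤ Real.log N) (hG : MajAt N ρ (A + 2) C C₃ (gC g))
    (hH : ∀ (q : ℕ) [NeZero q], (q : ℝ) ≤ (N : ℝ) ^ (7 / 10 - ρ) →
      ∀ η : ℝ, |η| ≤ Real.log N ^ C / N → ∀ y : ℕ, y ≤ N →
      ∀ S : Finset (DirichletCharacter ℂ q), 1 ∉ S →
        ∑ χ ∈ S, ‖cs q y (hC W z r) η χ‖ ^ 2 ≤ (N : ℝ) ^ 2 / Real.log N ^ (A + 2)) :
    MajAt N ρ A C C₃ (fC g W z r) := by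
  intro q _ hq
  obtain ⟨B, hB1, hBc, hB⟩ := hG q hq
  refine ⟨B, hB1, hBc, fun η hη y hy S hS => ?_⟩
  have h1 := hB η hη y hy S hS
  have h2 := hH q hq η hη y hy S (fun h => disjoint_left.1 hS h hB1)
  exact (sq_sub_sum (gC g) (hC W z r) η S h1 h2).trans (four_le hL)

lemma maj_hC1 {N A C C₃ z r : ℕ} {ρ : ℝ} {W : ℕ → ℝ} (hL : 1 ≤ Real.log N)
    (hH : ∀ (q : ℕ) [NeZero q], (q : ℝ) ≤ (N : ℝ) ^ (7 / 10 - ρ) →
      ∀ η : ℝ, |η| ≤ Real.log N ^ C / N → ∀ y : ℕ, y ≤ N →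
      ∀ S : Finset (DirichletCharacter ℂ q), 1 ∉ S →
        ∑ χ ∈ S, ‖cs q y (hC W z r) η χ‖ ^ 2 ≤ (N : ℝ) ^ 2 / Real.log N ^ A) :
    MajAt N ρ A C C₃ (hC W z r) := by
  intro q _ hq
  refine ⟨{1}, mem_singleton_self _, ?_, fun η hη y hy S hS => ?_⟩
  · rw [card_singleton, Nat.cast_one]
    exact one_le_pow₀ hL
  · exact hH q hq η hη y hy S (fun h => disjoint_left.1 hS h (mem_singleton_self _))

lemma min_fC {N A C C' z r : ℕ} {ρ : ℝ} {g W : ℕ → ℝ} (hL : 2 ≤ Real.log N) (hG : MinAt N ρ (A + 2) C (gC g))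
    (hH : MinAt N ρ (A + 2) C' (hC W z r)) : MinAt N ρ A (max C C') (fC g W z r) := by
  have h1 := min_mono (by linarith) (le_max_left C C') hG
  have h2 := min_mono (by linarith) (le_max_right C C') hH
  intro q _ hq k hh β k1 k2 k3 k4 y hy
  exact (sq_sub_sum (gC g) (hC W z r) β univ (h1 q hq k hh β k1 k2 k3 k4 y hy)
    (h2 q hq k hh β k1 k2 k3 k4 y hy)).trans (four_le hL)

end Pool.Agent.T2h83.GT
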