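import Pool.Agent.T2h83.GT.Ap
import Pool.Agent.T2h83.GT.Grid
import Pool.Agent.R453.GS.Wt0

set_option autoImplicit false

/-! The density of the sieve function: upper bounds. -/

namespace Pool.Agent.T2h83.GT

open Finset
open Pool.Agent.R460.GS
open Pool.Agent.R453.GS (sum_pow log_num)
open Pool.Agent.Y614.GJ.Core (ev_log)

/-- the sum of `1 / p` between two powers of `N` -/
noncomputable def SQ (a b : ℝ) (N : ℕ) : ℝ :=
  ∑ p ∈ (Ioc ⌊(N : ℝ) ^ a⌋₊ ⌊(N : ℝ) ^ b⌋₊).filter Nat.Prime, (1 : ℝ) / p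

lemma SQ_nn (a b : ℝ) (N : ℕ) : 0 ≤ SQ a b N := sum_nonneg fun _ _ => by positivity

lemma lt_floor {N p : ℕ} {a : ℝ} (h : ⌊(N : ℝ) ^ a⌋₊ < p) : (N : ℝ) ^ a < p := by
  have h1 := Nat.lt_floor_add_one ((N : ℝ) ^ a)
  have h2 : ((⌊(N : ℝ) ^ a⌋₊ : ℕ) : ℝ) + 1 ≤ p := by exact_mod_cast h
  linarith

/-- the cofactors are small -/
lemma cof_small {θ η : ℝ} (hθ1 : θ < 1) (hθ0 : 0 ≤ θ) (hη : 0 < η) : ∃ N₀ : ℕ, ∀ N : ℕ, N₀ ≤ N → ∀ m : ℕ,
    m * Pe θ N < N → (m : ℝ) ≤ (N : ℝ) ^ (θ / 2 + η) := by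
  obtain ⟨N₁, h1⟩ := Filter.eventually_atTop.1 (ev_log 1 (s := η) hη 3)
  refine ⟨N₁ + 2, fun N hN m hm => ?_⟩
  obtain ⟨hL3, hLp⟩ := h1 N (by omega)
  rw [pow_one] at hLp
  have hN0 : (0 : ℝ) < N := by exact_mod_cast (by omega : 0 < N)
  obtain ⟨hP1, -, hPlog⟩ := Pool.Agent.R453.GS.log_floor (γ := 1 - θ / 2) (N := N) (by linarith) (by omega)
  have hPd : Pe θ N = ⌊(N : ℝ) ^ (1 - θ / 2)⌋₊ := rfl
  rw [← hPd] at hP1 hPlog
  have hP0 : (0 : ℝ) < (Pe θ N : ℝ) := by exact_mod_cast hP1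
  have g2 : (N : ℝ) ^ (1 - θ / 2) * Real.exp (-1) ≤ (Pe θ N : ℝ) := by
    rw [← Real.exp_log hP0, Real.rpow_def_of_pos hN0, ← Real.exp_add]
    apply Real.exp_le_exp.2
    linarith
  have g3 : 1 / 3 ≤ Real.exp (-1) := by
    rw [Real.exp_neg, one_div]
    apply inv_anti₀ (Real.exp_pos 1)
    have := Real.exp_one_lt_d9
    linarith
  have g4 : (N : ℝ) ^ (1 - θ / 2) * (1 / 3) ≤ (Pe θ N : ℝ) := by
    refine le_trans ?_ g2
    gcongr
  have g5 : (m : ℝ) * (Pe θ N : ℝ) ≤ N := by exact_mod_cast hm.le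
  have g6 : (m : ℝ) * ((N : ℝ) ^ (1 - θ / 2) * (1 / 3)) ≤ N := by
    refine le_trans ?_ g5
    gcongr
  have g7 : (N : ℝ) ^ (θ / 2) * (N : ℝ) ^ (1 - θ / 2) = N := by
    rw [← Real.rpow_add hN0, show θ / 2 + (1 - θ / 2) = (1 : ℝ) by ring, Real.rpow_one]
  have g8 : 0 < (N : ℝ) ^ (1 - θ / 2) := by positivity
  have g9 : (m : ℝ) ≤ 3 * (N : ℝ) ^ (θ / 2) := by
    have : (m : ℝ) * (N : ℝ) ^ (1 - θ / 2) ≤ (3 * (N : ℝ) ^ (θ / 2)) * (N : ℝ) ^ (1 - θ / 2) := by linarith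
    exact le_of_mul_le_mul_right this g8
  refine g9.trans ?_
  rw [Real.rpow_add hN0, mul_comm]
  have : 3 ≤ (N : ℝ) ^ η := by linarith
  gcongr

/-- the structure of a rough number -/
lemma rough_split {Z m : ℕ} (hm : 1 ≤ m) (h : ∀ p ∈ m.primeFactors, Z < p) (hm1 : m ≠ 1) :
    m.minFac.Prime ∧ Z < m.minFac ∧ m.minFac * (m / m.minFac) = m ∧ 1 ≤ m / m.minFac ∧
      (∀ p ∈ (m / m.minFac).primeFactors, Z < p ∧ m.minFac ≤ p) := by
  have h1 : m.minFac.Prime := Nat.minFac_prime hm1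
  have h2 : m.minFac ∣ m := Nat.minFac_dvd m
  have h3 : m.minFac * (m / m.minFac) = m := Nat.mul_div_cancel' h2
  have h4 : 1 ≤ m / m.minFac := Nat.div_pos (Nat.minFac_le hm) h1.pos
  refine ⟨h1, h _ (Nat.mem_primeFactors.2 ⟨h1, h2, by omega⟩), h3, h4, fun p hp => ?_⟩
  obtain ⟨hp1, hp2, hp3⟩ := Nat.mem_primeFactors.1 hp
  have hpm : p ∣ m := hp2.trans (Nat.div_dvd_of_dvd h2)
  exact ⟨h p (Nat.mem_primeFactors.2 ⟨hp1, hpm, by omega⟩), Nat.minFac_le_of_dvd hp1.two_le hpm⟩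

/-- the density for `θ < 4 / 5` -/
lemma up_a {θ δ : ℝ} (hθ0 : 1 / 2 ≤ θ) (hθ1 : θ < 4 / 5) (hδ0 : 0 < δ) (hδ : Real.log (θ / (2 - 2 * θ)) < δ) :
    ∃ N₀ : ℕ, ∀ N : ℕ, N₀ ≤ N → Wg θ N N ≤ 1 + δ := by
  classical
  obtain ⟨M, hM⟩ : ∃ M, M = max 0 (Real.log (θ / (2 - 2 * θ))) := ⟨_, rfl⟩
  have hMδ : M < δ := by rw [hM]; exact max_lt hδ0 hδ
  have hM0 : 0 ≤ M := by rw [hM]; exact le_max_left _ _
  obtain ⟨η, hη⟩ : ∃ η, η = min ((δ - M) / 8) (2 - 5 / 2 * θ) := ⟨_, rfl⟩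
  have hη0 : 0 < η := by rw [hη]; exact lt_min (by linarith) (by linarith)
  have hη1 : η ≤ (δ - M) / 8 := by rw [hη]; exact min_le_left _ _
  have hη2 : η ≤ 2 - 5 / 2 * θ := by rw [hη]; exact min_le_right _ _
  obtain ⟨β, hβ⟩ : ∃ β, β = max (θ / 2 + η) (1 - θ) := ⟨_, rfl⟩
  have hβ1 : θ / 2 + η ≤ β := by rw [hβ]; exact le_max_left _ _
  have hβ2 : 1 - θ ≤ β := by rw [hβ]; exact le_max_right _ _
  obtain ⟨N₁, h1⟩ := cof_small (θ := θ) (by linarith) (by linarith) hη0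
  obtain ⟨N₂, h2⟩ := Filter.eventually_atTop.1 (sum_pow (α := 1 - θ) (β := β) (ε := (δ - M) / 2) (by linarith) hβ2
    (by linarith))
  refine ⟨N₁ + N₂ + 2, fun N hN => ?_⟩
  have hN0 : (0 : ℝ) < N := by exact_mod_cast (by omega : 0 < N)
  have hN1 : (1 : ℝ) ≤ N := by exact_mod_cast (by omega : 1 ≤ N)
  have h3 := h2 N (by omega)
  have h4 : Real.log (β / (1 - θ)) ≤ M + (δ - M) / 2 := by
    have hθ' : 0 < 1 - θ := by linarith
    rcases le_total (θ / 2 + η) (1 - θ) with h | h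
    · have e : β = 1 - θ := by rw [hβ]; exact max_eq_right h
      rw [e, div_self hθ'.ne', Real.log_one]
      linarith
    · have e : β = θ / 2 + η := by rw [hβ]; exact max_eq_left h
      have e2 : β / (1 - θ) = θ / (2 - 2 * θ) * (1 + 2 * η / θ) := by
        rw [e]
        have : (2 - 2 * θ) = 2 * (1 - θ) := by ring
        rw [this]
        field_simp
      have hθp : 0 < θ := by linarith
      rw [e2, Real.log_mul (div_pos hθp (by linarith)).ne' (by positivity)]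
      have e3 : Real.log (1 + 2 * η / θ) ≤ 2 * η / θ := by
        have := Real.log_le_sub_one_of_pos (show 0 < 1 + 2 * η / θ by positivity)
        linarith
      have e4 : 2 * η / θ ≤ 4 * η := by
        rw [div_le_iff₀ hθp]
        nlinarith
      have e5 : Real.log (θ / (2 - 2 * θ)) ≤ M := by rw [hM]; exact le_max_right _ _
      linarith
  unfold Wg WZ
  obtain ⟨R, hR⟩ : ∃ R, R = (Icc 1 N).filter (fun m => (∀ p ∈ m.primeFactors, Ze θ N < p) ∧ m * Pe θ N < N) :=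
    ⟨_, rfl⟩
  rw [← hR]
  obtain ⟨Q, hQ⟩ : ∃ Q, Q = (Ioc ⌊(N : ℝ) ^ (1 - θ)⌋₊ ⌊(N : ℝ) ^ β⌋₊).filter Nat.Prime := ⟨_, rfl⟩
  have hsub : R ⊆ insert 1 Q := by
    intro m hm
    rw [hR, mem_filter, mem_Icc] at hm
    obtain ⟨⟨a1, a2⟩, a3, a4⟩ := hm
    have hms := h1 N (by omega) m a4
    rw [mem_insert]
    by_cases hm1 : m = 1
    · exact Or.inl hm1
    · right
      obtain ⟨b1, b2, b3, b4, b5⟩ := rough_split a1 a3 hm1
      have hk : m / m.minFac = 1 := by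
        by_contra hk
        obtain ⟨p, hp⟩ := Nat.exists_prime_and_dvd hk
        have hp2 := (b5 p (Nat.mem_primeFactors.2 ⟨hp.1, hp.2, by omega⟩)).1
        have hpk := Nat.le_of_dvd b4 hp.2
        have c1 : (N : ℝ) ^ (1 - θ) < m.minFac := lt_floor b2
        have c2 : (N : ℝ) ^ (1 - θ) < p := lt_floor hp2
        have c3 : (m.minFac : ℝ) * p ≤ m := by
          have : m.minFac * p ≤ m := by
            calc m.minFac * p ≤ m.minFac * (m / m.minFac) := Nat.mul_le_mul_left _ hpk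
              _ = m := b3
          exact_mod_cast this
        have c4 : (N : ℝ) ^ (1 - θ) * (N : ℝ) ^ (1 - θ) < (m.minFac : ℝ) * p :=
          mul_lt_mul'' c1 c2 (by positivity) (by positivity)
        rw [← Real.rpow_add hN0] at c4
        have c5 : (N : ℝ) ^ (θ / 2 + η) ≤ (N : ℝ) ^ (1 - θ + (1 - θ)) :=
          Real.rpow_le_rpow_of_exponent_le hN1 (by linarith)
        linarith
      have hmp : m.minFac = m := by
        rw [hk, mul_one] at b3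
        exact b3
      rw [hmp] at b1 b2
      rw [hQ, mem_filter, mem_Ioc]
      refine ⟨⟨b2, ?_⟩, b1⟩
      apply Nat.le_floor
      exact hms.trans (Real.rpow_le_rpow_of_exponent_le hN1 hβ1)
  have h5 : ∑ m ∈ R, 1 / (m : ℝ) ≤ ∑ m ∈ insert 1 Q, 1 / (m : ℝ) :=
    sum_le_sum_of_subset_of_nonneg hsub fun _ _ _ => by positivity
  have h6 : (1 : ℕ) ∉ Q := by
    rw [hQ, mem_filter]
    rintro ⟨-, h⟩
    exact Nat.not_prime_one h
  rw [sum_insert h6, Nat.cast_one, div_one] at h5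
  rw [← hQ] at h3
  linarith

/-- symmetric sums -/
lemma sym_sum (A : Finset ℕ) (f : ℕ → ℝ) : ∑ x ∈ (A ×ˢ A).filter (fun x => x.1 ≤ x.2), f x.1 * f x.2 =
    1 / 2 * ((∑ a ∈ A, f a) ^ 2 + ∑ a ∈ A, f a ^ 2) := by
  classical
  have h1 : (∑ a ∈ A, f a) ^ 2 = ∑ x ∈ A ×ˢ A, f x.1 * f x.2 := by
    rw [sq, sum_mul_sum, sum_product]
  have h2 : ∑ x ∈ A ×ˢ A, f x.1 * f x.2 = ∑ x ∈ (A ×ˢ A).filter (fun x => x.1 ≤ x.2), f x.1 * f x.2 +
      ∑ x ∈ (A ×ˢ A).filter (fun x => ¬ x.1 ≤ x.2), f x.1 * f x.2 :=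
    (sum_filter_add_sum_filter_not _ _ _).symm
  have h3 : ∑ x ∈ (A ×ˢ A).filter (fun x => ¬ x.1 ≤ x.2), f x.1 * f x.2 =
      ∑ x ∈ (A ×ˢ A).filter (fun x => x.1 < x.2), f x.1 * f x.2 := by
    refine sum_nbij' (fun x => (x.2, x.1)) (fun x => (x.2, x.1)) ?_ ?_ ?_ ?_ ?_
    · intro x hx
      simp only [mem_filter, mem_product] at hx ⊢
      exact ⟨⟨hx.1.2, hx.1.1⟩, not_le.1 hx.2⟩
    · intro x hx
      simp only [mem_filter, mem_product] at hx ⊢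
      exact ⟨⟨hx.1.2, hx.1.1⟩, not_le.2 hx.2⟩
    · intro x _
      rfl
    · intro x _
      rfl
    · intro x _
      exact mul_comm _ _
  have h4 : ∑ x ∈ (A ×ˢ A).filter (fun x => x.1 ≤ x.2), f x.1 * f x.2 =
      ∑ x ∈ (A ×ˢ A).filter (fun x => x.1 < x.2), f x.1 * f x.2 + ∑ a ∈ A, f a ^ 2 := by
    have e1 : (A ×ˢ A).filter (fun x => x.1 ≤ x.2) =
        (A ×ˢ A).filter (fun x => x.1 < x.2) ∪ (A ×ˢ A).filter (fun x => x.1 = x.2) := by
      ext x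
      simp only [mem_filter, mem_union, mem_product]
      constructor
      · rintro ⟨h, h'⟩
        rcases lt_or_eq_of_le h' with h'' | h''
        · exact Or.inl ⟨h, h''⟩
        · exact Or.inr ⟨h, h''⟩
      · rintro (⟨h, h'⟩ | ⟨h, h'⟩)
        · exact ⟨h, h'.le⟩
        · exact ⟨h, h'.le⟩
    have hd : Disjoint ((A ×ˢ A).filter (fun x => x.1 < x.2)) ((A ×ˢ A).filter (fun x => x.1 = x.2)) := by
      rw [disjoint_left]
      intro x hx hx'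
      rw [mem_filter] at hx hx'
      exact absurd hx'.2 hx.2.ne
    rw [e1, sum_union hd]
    congr 1
    refine sum_nbij' (fun x => x.1) (fun a => (a, a)) ?_ ?_ ?_ ?_ ?_
    · intro x hx
      rw [mem_filter, mem_product] at hx
      exact hx.1.1
    · intro a ha
      rw [mem_filter, mem_product]
      exact ⟨⟨ha, ha⟩, rfl⟩
    · rintro ⟨a, b⟩ hx
      rw [mem_filter] at hx
      have : a = b := hx.2
      rw [this]
    · intro a _
      rfl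
    · rintro ⟨a, b⟩ hx
      rw [mem_filter] at hx
      have : a = b := hx.2
      simp only
      rw [this, sq]
  rw [h1, h2, h3] 
  linarith

/-- the squares of the reciprocals of the large primes -/
lemma sq_small {a b : ℝ} {N : ℕ} (hN : 1 ≤ N) :
    ∑ p ∈ (Ioc ⌊(N : ℝ) ^ a⌋₊ ⌊(N : ℝ) ^ b⌋₊).filter Nat.Prime, ((1 : ℝ) / p) ^ 2 ≤ SQ a b N / (N : ℝ) ^ a := by
  unfold SQ
  rw [sum_div]
  refine sum_le_sum fun p hp => ?_
  rw [mem_filter, mem_Ioc] at hp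
  have h1 := lt_floor hp.1.1
  have h0 : (0 : ℝ) < (N : ℝ) ^ a := Real.rpow_pos_of_pos (by exact_mod_cast hN) a
  have hp0 : (0 : ℝ) < p := by linarith
  rw [sq, mul_one_div, div_div, div_div]
  apply div_le_div_of_nonneg_left (by norm_num) (by positivity)
  gcongr

/-- the numerical bounds -/
lemma num_b : ∃ N₀ : ℕ, ∀ N : ℕ, N₀ ≤ N →
    SQ (1 / 6) (5 / 12 + 1 / 10000) N ≤ 0.91656 ∧ SQ (1 / 6) (3 / 16) N ≤ 0.1178 ∧
    SQ (3 / 16) (1 / 4 + 1 / 10000) N ≤ 0.28821 ∧ SQ (3 / 16) (5 / 24 + 1 / 20000) N ≤ 0.10571 ∧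
    SQ (5 / 24 + 1 / 20000) (11 / 48 + 1 / 10000) N ≤ 0.09561 := by
  have e1 : Real.log ((5 / 12 + 1 / 10000) / (1 / 6)) ≤ 0.91655 := by
    have h1 : (5 / 12 + 1 / 10000 : ℝ) / (1 / 6) = 2 * 1.2503 := by norm_num
    rw [h1, Real.log_mul (by norm_num) (by norm_num)]
    have h2 := Real.log_two_lt_d9
    have h3 : Real.log 1.2503 ≤ 0.2234 := log_num (by norm_num) (by norm_num) (by norm_num)
    linarith
  have e2 : Real.log ((3 / 16) / (1 / 6)) ≤ 0.11779 := log_num (by norm_num) (by norm_num) (by norm_num)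
  have e3 : Real.log ((1 / 4 + 1 / 10000) / (3 / 16)) ≤ 0.2882 := log_num (by norm_num) (by norm_num) (by norm_num)
  have e4 : Real.log ((5 / 24 + 1 / 20000) / (3 / 16)) ≤ 0.1057 := log_num (by norm_num) (by norm_num) (by norm_num)
  have e5 : Real.log ((11 / 48 + 1 / 10000) / (5 / 24 + 1 / 20000)) ≤ 0.0956 :=
    log_num (by norm_num) (by norm_num) (by norm_num)
  obtain ⟨n1, h1⟩ := Filter.eventually_atTop.1 (sum_pow (α := 1 / 6) (β := 5 / 12 + 1 / 10000) (ε := 0.00001)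
    (by norm_num) (by norm_num) (by norm_num))
  obtain ⟨n2, h2⟩ := Filter.eventually_atTop.1 (sum_pow (α := 1 / 6) (β := 3 / 16) (ε := 0.00001)
    (by norm_num) (by norm_num) (by norm_num))
  obtain ⟨n3, h3⟩ := Filter.eventually_atTop.1 (sum_pow (α := 3 / 16) (β := 1 / 4 + 1 / 10000) (ε := 0.00001)
    (by norm_num) (by norm_num) (by norm_num))
  obtain ⟨n4, h4⟩ := Filter.eventually_atTop.1 (sum_pow (α := 3 / 16) (β := 5 / 24 + 1 / 20000) (ε := 0.00001)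
    (by norm_num) (by norm_num) (by norm_num))
  obtain ⟨n5, h5⟩ := Filter.eventually_atTop.1 (sum_pow (α := 5 / 24 + 1 / 20000) (β := 11 / 48 + 1 / 10000)
    (ε := 0.00001) (by norm_num) (by norm_num) (by norm_num))
  refine ⟨n1 + n2 + n3 + n4 + n5, fun N hN => ⟨?_, ?_, ?_, ?_, ?_⟩⟩
  · have := h1 N (by omega)
    unfold SQ
    linarith
  · have := h2 N (by omega)
    unfold SQ
    linarith
  · have := h3 N (by omega)
    unfold SQ
    linarith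
  · have := h4 N (by omega)
    unfold SQ
    linarith
  · have := h5 N (by omega)
    unfold SQ
    linarith

/-- the primes between two powers of `N` -/
noncomputable def PrI (a b : ℝ) (N : ℕ) : Finset ℕ := (Ioc ⌊(N : ℝ) ^ a⌋₊ ⌊(N : ℝ) ^ b⌋₊).filter Nat.Prime

lemma mem_PrI {a b : ℝ} {N p : ℕ} (hp : p.Prime) (h1 : (N : ℝ) ^ a < p) (h2 : (p : ℝ) ≤ (N : ℝ) ^ b) :
    p ∈ PrI a b N := by
  unfold PrI
  rw [mem_filter, mem_Ioc]
  refine ⟨⟨?_, Nat.le_floor h2⟩, hp⟩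
  have h3 : ((⌊(N : ℝ) ^ a⌋₊ : ℕ) : ℝ) ≤ (N : ℝ) ^ a := Nat.floor_le (by positivity)
  exact_mod_cast lt_of_le_of_lt h3 h1

/-- the density for `θ = 5 / 6` -/
lemma up_b : ∃ N₀ : ℕ, ∀ N : ℕ, N₀ ≤ N → Wg (5 / 6) N N ≤ 1 + 974 / 1000 := by
  classical
  obtain ⟨N₁, h1⟩ := cof_small (θ := 5 / 6) (η := 1 / 10000) (by norm_num) (by norm_num) (by norm_num)
  obtain ⟨N₂, h2⟩ := num_b
  obtain ⟨N₃, h3⟩ := Filter.eventually_atTop.1 (ev_log 1 (s := 1 / 6) (by norm_num) 10000)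
  refine ⟨N₁ + N₂ + N₃ + 2, fun N hN => ?_⟩
  have hNn : 1 ≤ N := by omega
  have hN0 : (0 : ℝ) < N := by exact_mod_cast (by omega : 0 < N)
  have hN1 : (1 : ℝ) ≤ N := by exact_mod_cast (by omega : 1 ≤ N)
  obtain ⟨b1, b2, b3, b4, b5⟩ := h2 N (by omega)
  obtain ⟨hL, hLp⟩ := h3 N (by omega)
  rw [pow_one] at hLp
  have hZ : ∀ p : ℕ, Ze (5 / 6) N < p → (N : ℝ) ^ (1 / 6 : ℝ) < p := by
    intro p hp
    have e : Ze (5 / 6) N = ⌊(N : ℝ) ^ (1 / 6 : ℝ)⌋₊ := by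
      unfold Ze
      norm_num
    rw [e] at hp
    exact lt_floor hp
  unfold Wg WZ
  obtain ⟨R, hR⟩ : ∃ R, R = (Icc 1 N).filter (fun m => (∀ p ∈ m.primeFactors, Ze (5 / 6) N < p) ∧
    m * Pe (5 / 6) N < N) := ⟨_, rfl⟩
  rw [← hR]
  obtain ⟨A, hA⟩ : ∃ A, A = PrI (1 / 6) (3 / 16) N := ⟨_, rfl⟩
  obtain ⟨B, hB⟩ : ∃ B, B = PrI (3 / 16) (1 / 4 + 1 / 10000) N := ⟨_, rfl⟩
  obtain ⟨C, hC⟩ : ∃ C, C = PrI (3 / 16) (5 / 24 + 1 / 20000) N := ⟨_, rfl⟩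
  obtain ⟨D, hD⟩ : ∃ D, D = PrI (5 / 24 + 1 / 20000) (11 / 48 + 1 / 10000) N := ⟨_, rfl⟩
  obtain ⟨Q, hQ⟩ : ∃ Q, Q = PrI (1 / 6) (5 / 12 + 1 / 10000) N := ⟨_, rfl⟩
  obtain ⟨f, hf⟩ : ∃ f : ℕ → ℝ, f = fun p : ℕ => (1 : ℝ) / p := ⟨_, rfl⟩
  have hf0 : ∀ p, 0 ≤ f p := fun p => by rw [hf]; positivity
  obtain ⟨P2, hP2⟩ : ∃ P2 : Finset (ℕ × ℕ), P2 = ((A ×ˢ A).filter (fun x => x.1 ≤ x.2) ∪ A ×ˢ B) ∪
    ((C ×ˢ C).filter (fun x => x.1 ≤ x.2) ∪ C ×ˢ D) := ⟨_, rfl⟩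
  obtain ⟨I2, hI2⟩ : ∃ I2 : Finset ℕ, I2 = P2.image (fun x => x.1 * x.2) := ⟨_, rfl⟩
  have pw : ∀ a b : ℝ, a ≤ b → (N : ℝ) ^ a ≤ (N : ℝ) ^ b := fun a b h =>
    Real.rpow_le_rpow_of_exponent_le hN1 h
  have hsub : R ⊆ insert 1 (Q ∪ I2) := by
    intro m hm
    rw [hR, mem_filter, mem_Icc] at hm
    obtain ⟨⟨a1, a2⟩, a3, a4⟩ := hm
    have hms := h1 N (by omega) m a4
    norm_num only at hms
    rw [hI2, mem_insert, mem_union, mem_image]
    by_cases hm1 : m = 1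
    · exact Or.inl hm1
    · right
      obtain ⟨c1, c2, c3, c4, c5⟩ := rough_split a1 a3 hm1
      have c2' := hZ _ c2
      by_cases hk : m / m.minFac = 1
      · left
        have hmp : m.minFac = m := by
          rw [hk, mul_one] at c3
          exact c3
        rw [hmp] at c1 c2'
        rw [hQ]
        refine mem_PrI c1 c2' ?_
        refine hms.trans (pw _ _ (by norm_num))
      · right
        obtain ⟨k, hkd⟩ : ∃ k, k = m / m.minFac := ⟨_, rfl⟩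
        obtain ⟨p, hpd⟩ : ∃ p, p = m.minFac := ⟨_, rfl⟩
        rw [← hkd] at c3 c4 c5 hk
        rw [← hpd] at c1 c2' c3 c5
        obtain ⟨d1, d2, d3, d4, d5⟩ := rough_split (Z := Ze (5 / 6) N) c4 (fun p hp => (c5 p hp).1) hk
        have d2' := hZ _ d2
        have hpk : p ≤ k.minFac := (c5 _ (Nat.mem_primeFactors.2 ⟨d1, Nat.minFac_dvd k, by omega⟩)).2
        have hp0 : (0 : ℝ) < p := by exact_mod_cast c1.pos
        have hmr : (m : ℝ) = p * k := by exact_mod_cast c3.symm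
        have hkk : k / k.minFac = 1 := by
          by_contra hk2
          obtain ⟨s, hs⟩ := Nat.exists_prime_and_dvd hk2
          have hs2 := hZ s (d5 s (Nat.mem_primeFactors.2 ⟨hs.1, hs.2, by omega⟩)).1
          have hsk := Nat.le_of_dvd d4 hs.2
          have g1 : (k.minFac : ℝ) * s ≤ k := by
            have : k.minFac * s ≤ k := by
              calc k.minFac * s ≤ k.minFac * (k / k.minFac) := Nat.mul_le_mul_left _ hsk
                _ = k := d3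
            exact_mod_cast this
          have g2 : (N : ℝ) ^ (1 / 6 : ℝ) * (N : ℝ) ^ (1 / 6 : ℝ) < (k.minFac : ℝ) * s :=
            mul_lt_mul'' d2' hs2 (by positivity) (by positivity)
          have g3 : (N : ℝ) ^ (1 / 6 : ℝ) * ((N : ℝ) ^ (1 / 6 : ℝ) * (N : ℝ) ^ (1 / 6 : ℝ)) < p * k :=
            mul_lt_mul'' c2' (lt_of_lt_of_le g2 g1) (by positivity) (by positivity)
          rw [← Real.rpow_add hN0, ← Real.rpow_add hN0, ← hmr] at g3
          have g4 := pw _ _ (show (12503 / 30000 : ℝ) ≤ 1 / 6 + (1 / 6 + 1 / 6) by norm_num)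
          have g5 : (m : ℝ) ≤ (N : ℝ) ^ (12503 / 30000 : ℝ) := hms
          linarith
        have hkp : k.minFac = k := by
          rw [hkk, mul_one] at d3
          exact d3
        rw [hkp] at d1 d2' hpk
        have hpkr : (p : ℝ) ≤ k := by exact_mod_cast hpk
        have hk0 : (0 : ℝ) < k := by linarith
        have hpkN : (p : ℝ) * k ≤ (N : ℝ) ^ (5 / 12 + 1 / 10000 : ℝ) := by
          rw [← hmr]
          exact hms.trans (pw _ _ (by norm_num))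
        -- a bound for `k` from a bound for `p`
        have hkb : ∀ a b : ℝ, a + b = 5 / 12 + 1 / 10000 → (N : ℝ) ^ a < p → (k : ℝ) ≤ (N : ℝ) ^ b := by
          intro a b hab hpa
          have g1 : (N : ℝ) ^ a * k ≤ (N : ℝ) ^ a * (N : ℝ) ^ b := by
            rw [← Real.rpow_add hN0, hab]
            refine le_trans ?_ hpkN
            gcongr
          exact le_of_mul_le_mul_left g1 (Real.rpow_pos_of_pos hN0 a)
        refine ⟨(p, k), ?_, c3⟩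
        rw [hP2, mem_union, mem_union, mem_union, mem_filter, mem_filter, mem_product, mem_product, mem_product,
          mem_product]
        rcases le_or_gt (p : ℝ) ((N : ℝ) ^ (3 / 16 : ℝ)) with hp1 | hp1
        · left
          have hpA : p ∈ A := by rw [hA]; exact mem_PrI c1 c2' hp1
          rcases le_or_gt (k : ℝ) ((N : ℝ) ^ (3 / 16 : ℝ)) with hk1 | hk1
          · left
            exact ⟨⟨hpA, by rw [hA]; exact mem_PrI d1 d2' hk1⟩, hpk⟩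
          · right
            refine ⟨hpA, ?_⟩
            rw [hB]
            exact mem_PrI d1 hk1 (hkb (1 / 6) _ (by norm_num) c2')
        · right
          have hps : (p : ℝ) ≤ (N : ℝ) ^ (5 / 24 + 1 / 20000 : ℝ) := by
            by_contra hcon
            rw [not_le] at hcon
            have g1 : (N : ℝ) ^ (5 / 24 + 1 / 20000 : ℝ) * (N : ℝ) ^ (5 / 24 + 1 / 20000 : ℝ) < (p : ℝ) * k :=
              mul_lt_mul'' hcon (lt_of_lt_of_le hcon hpkr) (by positivity) (by positivity)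
            rw [← Real.rpow_add hN0] at g1
            have g2 := pw _ _ (show (5 / 12 + 1 / 10000 : ℝ) ≤ 5 / 24 + 1 / 20000 + (5 / 24 + 1 / 20000) by norm_num)
            linarith
          have hpC : p ∈ C := by rw [hC]; exact mem_PrI c1 hp1 hps
          rcases le_or_gt (k : ℝ) ((N : ℝ) ^ (5 / 24 + 1 / 20000 : ℝ)) with hk1 | hk1
          · left
            exact ⟨⟨hpC, by rw [hC]; exact mem_PrI d1 (lt_of_lt_of_le hp1 hpkr) hk1⟩, hpk⟩
          · right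
            refine ⟨hpC, ?_⟩
            rw [hD]
            exact mem_PrI d1 hk1 (hkb (3 / 16) _ (by norm_num) hp1)
  have sA : ∑ p ∈ A, f p = SQ (1 / 6) (3 / 16) N := by rw [hA, hf]; rfl
  have sB : ∑ p ∈ B, f p = SQ (3 / 16) (1 / 4 + 1 / 10000) N := by rw [hB, hf]; rfl
  have sC : ∑ p ∈ C, f p = SQ (3 / 16) (5 / 24 + 1 / 20000) N := by rw [hC, hf]; rfl
  have sD : ∑ p ∈ D, f p = SQ (5 / 24 + 1 / 20000) (11 / 48 + 1 / 10000) N := by rw [hD, hf]; rfl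
  have sQ : ∑ p ∈ Q, f p = SQ (1 / 6) (5 / 12 + 1 / 10000) N := by rw [hQ, hf]; rfl
  have qA : ∑ p ∈ A, f p ^ 2 ≤ SQ (1 / 6) (3 / 16) N / (N : ℝ) ^ (1 / 6 : ℝ) := by
    rw [hA, hf]; exact sq_small hNn
  have qC : ∑ p ∈ C, f p ^ 2 ≤ SQ (3 / 16) (5 / 24 + 1 / 20000) N / (N : ℝ) ^ (3 / 16 : ℝ) := by
    rw [hC, hf]; exact sq_small hNn
  have nA := SQ_nn (1 / 6) (3 / 16) N
  have nB := SQ_nn (3 / 16) (1 / 4 + 1 / 10000) N
  have nC := SQ_nn (3 / 16) (5 / 24 + 1 / 20000) N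
  have nD := SQ_nn (5 / 24 + 1 / 20000) (11 / 48 + 1 / 10000) N
  have hbig : (10000 : ℝ) ≤ (N : ℝ) ^ (1 / 6 : ℝ) := by linarith
  have hbig2 : (10000 : ℝ) ≤ (N : ℝ) ^ (3 / 16 : ℝ) := hbig.trans (pw _ _ (by norm_num))
  have qA' : ∑ p ∈ A, f p ^ 2 ≤ 0.0001 := by
    refine qA.trans ?_
    rw [div_le_iff₀ (by linarith)]
    linarith
  have qC' : ∑ p ∈ C, f p ^ 2 ≤ 0.0001 := by
    refine qC.trans ?_
    rw [div_le_iff₀ (by linarith)]
    linarith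
  have hP2s : ∑ x ∈ P2, f x.1 * f x.2 ≤ 1 / 2 * (SQ (1 / 6) (3 / 16) N ^ 2 + 0.0001) +
      SQ (1 / 6) (3 / 16) N * SQ (3 / 16) (1 / 4 + 1 / 10000) N +
      (1 / 2 * (SQ (3 / 16) (5 / 24 + 1 / 20000) N ^ 2 + 0.0001) +
      SQ (3 / 16) (5 / 24 + 1 / 20000) N * SQ (5 / 24 + 1 / 20000) (11 / 48 + 1 / 10000) N) := by
    have hU : ∀ s t : Finset (ℕ × ℕ), ∑ x ∈ s ∪ t, f x.1 * f x.2 ≤ ∑ x ∈ s, f x.1 * f x.2 + ∑ x ∈ t, f x.1 * f x.2 := by
      intro s t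
      rw [← sum_union_inter]
      have : 0 ≤ ∑ x ∈ s ∩ t, f x.1 * f x.2 := sum_nonneg fun x _ => mul_nonneg (hf0 _) (hf0 _)
      linarith
    have pAB : ∑ x ∈ A ×ˢ B, f x.1 * f x.2 = (∑ p ∈ A, f p) * ∑ p ∈ B, f p := by
      rw [sum_mul_sum, sum_product]
    have pCD : ∑ x ∈ C ×ˢ D, f x.1 * f x.2 = (∑ p ∈ C, f p) * ∑ p ∈ D, f p := by
      rw [sum_mul_sum, sum_product]
    have pAA := sym_sum A f
    have pCC := sym_sum C f
    rw [sA] at pAB pAA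
    rw [sB] at pAB
    rw [sC] at pCD pCC
    rw [sD] at pCD
    have u1 := hU ((A ×ˢ A).filter (fun x => x.1 ≤ x.2) ∪ A ×ˢ B) ((C ×ˢ C).filter (fun x => x.1 ≤ x.2) ∪ C ×ˢ D)
    have u2 := hU ((A ×ˢ A).filter (fun x => x.1 ≤ x.2)) (A ×ˢ B)
    have u3 := hU ((C ×ˢ C).filter (fun x => x.1 ≤ x.2)) (C ×ˢ D)
    rw [← hP2] at u1
    linarith
  have himg : ∑ m ∈ I2, 1 / (m : ℝ) ≤ ∑ x ∈ P2, f x.1 * f x.2 := by
    rw [hI2]
    have h5 := sum_image_le_of_nonneg (s := P2) (g := fun x : ℕ × ℕ => x.1 * x.2) (f := fun m : ℕ => 1 / (m : ℝ))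
      (fun m _ => by positivity)
    refine h5.trans (le_of_eq (sum_congr rfl fun x _ => ?_))
    rw [hf]
    push_cast
    rw [div_mul_div_comm, one_mul]
  have h5 : ∑ m ∈ R, 1 / (m : ℝ) ≤ ∑ m ∈ insert 1 (Q ∪ I2), 1 / (m : ℝ) :=
    sum_le_sum_of_subset_of_nonneg hsub fun _ _ _ => by positivity
  have h6 : ∑ m ∈ insert 1 (Q ∪ I2), 1 / (m : ℝ) ≤
      1 + (∑ m ∈ Q, 1 / (m : ℝ) + ∑ m ∈ I2, 1 / (m : ℝ)) := by
    have g1 : ∑ m ∈ insert 1 (Q ∪ I2), 1 / (m : ℝ) ≤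
        1 + ∑ m ∈ (Q ∪ I2), 1 / (m : ℝ) := by
      by_cases hh : (1 : ℕ) ∈ Q ∪ I2
      · rw [insert_eq_of_mem hh]
        linarith
      · rw [sum_insert hh, Nat.cast_one, div_one]
    have g2 : ∑ m ∈ (Q ∪ I2), 1 / (m : ℝ) ≤
        ∑ m ∈ Q, 1 / (m : ℝ) + ∑ m ∈ I2, 1 / (m : ℝ) := by
      rw [← sum_union_inter]
      have : 0 ≤ ∑ m ∈ Q ∩ I2, 1 / (m : ℝ) := sum_nonneg fun x _ => by positivity
      linarith
    linarith
  have h7 : ∑ m ∈ Q, 1 / (m : ℝ) = SQ (1 / 6) (5 / 12 + 1 / 10000) N := by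
    rw [← sQ, hf]
  rw [h7] at h6
  have m1 : SQ (1 / 6) (3 / 16) N ^ 2 ≤ 0.1178 ^ 2 := pow_le_pow_left₀ nA b2 2
  have m2 : SQ (3 / 16) (5 / 24 + 1 / 20000) N ^ 2 ≤ 0.10571 ^ 2 := pow_le_pow_left₀ nC b4 2
  have m3 : SQ (1 / 6) (3 / 16) N * SQ (3 / 16) (1 / 4 + 1 / 10000) N ≤ 0.1178 * 0.28821 :=
    mul_le_mul b2 b3 nB (by norm_num)
  have m4 : SQ (3 / 16) (5 / 24 + 1 / 20000) N * SQ (5 / 24 + 1 / 20000) (11 / 48 + 1 / 10000) N ≤
      0.10571 * 0.09561 := mul_le_mul b4 b5 nD (by norm_num)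
  linarith

end Pool.Agent.T2h83.GT
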